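import Mathlib
import Pool.Agent.Helper26.AL.Defs

/-!
Project AW (MP_af6c86_pr, third theorem): the exact exponential rate of `p_g(l)` in the whole critical
window, as `g` tends to infinity and `l` is of order `g^(1/3)`.  Definitions.

`ee r`, `eg g r`, `dd r`, `bb g r`, `JJ l r` are those of project AL (`Pool/Agent/Helper26/AL/Defs.lean`).
-/

namespace Pool.Agent.Helper96.AW

open Finset Pool.Agent.Helper26.AF Pool.Agent.Helper26.AL

/-- The density `x^(3s/2-1)/(2^(3s/2) Γ(3s/2))`. -/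
noncomputable def ww (s : ℕ) (x : ℝ) : ℝ :=
  x ^ (3 * (s : ℝ) / 2 - 1) / (2 ^ (3 * (s : ℝ) / 2) * Real.Gamma (3 * (s : ℝ) / 2))

/-- The exponent. -/
noncomputable def FF (x l : ℝ) : ℝ := ((x - l) ^ 3 + l ^ 3) / 6

/-- The limit of the probability that there is no complex component (theorem NOC). -/
noncomputable def p0 (l : ℝ) : ℝ := ∑' r : ℕ, dd r * JJ l r

/-- `ee s * PP l s` is the limit of the probability that the total excess is `s`. -/
noncomputable def PP (l : ℝ) (s : ℕ) : ℝ := ∑' t : ℕ, dd t * JJ l (s + t)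

/-- The limit of the probability of `Embeds G g` (project AL). -/
noncomputable def pg (g : ℕ) (l : ℝ) : ℝ := ∑' r : ℕ, bb g r * JJ l r

/-- The parametrisation of the position in the window. -/
noncomputable def yt (t : ℝ) : ℝ := (3 : ℝ) ^ ((1 : ℝ) / 3) * (2 - t) / t ^ ((2 : ℝ) / 3)

/-- The rate. -/
noncomputable def It (t : ℝ) : ℝ := Real.log t + (1 - t) * (2 - t) / t ^ 2

/-- The point `y(t) g^(1/3)` of the window; `(lg t g)^3 = 3 (2 - t)^3 / t^2 * g` for `t > 0`. -/
noncomputable def lg (t : ℝ) (g : ℕ) : ℝ := yt t * (g : ℝ) ^ ((1 : ℝ) / 3)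

/-- Sum over the no complex component graphs with contributions of total excess `r`. -/
noncomputable def TD (n : ℕ) (p : ℝ) (r : ℕ) : ℝ :=
  ∑ k ∈ range (n + 1), (n.choose k : ℝ) * (1 - p) ^ MM n k * ((p / (1 - p)) ^ (k + r) * ds k r)

open Classical in
/-- Weighted number of the graphs on `Fin m` without complex components, all of whose tree components
have less than `L` vertices. -/
noncomputable def XL (u : ℝ) (L m : ℕ) : ℝ :=
  ∑ G : SimpleGraph (Fin m),
    if (∀ Q : Finset (Fin m), IsComp G Q → eIn G Q ≤ #Q ∧ (eIn G Q < #Q → #Q < L)) then u ^ ne G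
    else 0

/-- The number of trees on `Fin k`. -/
noncomputable def trk (k : ℕ) : ℕ := Nat.card {H : SimpleGraph (Fin k) // H.Connected ∧ ne H + 1 = k}

/-- Weighted number of the connected graphs on `Fin k` allowed in `XL`. -/
noncomputable def wk (u : ℝ) (L k : ℕ) : ℝ :=
  (if k < L then (trk k : ℝ) * u ^ (k - 1) else 0) + (Nc k 0 : ℝ) * u ^ k

/-- The weight of an edge. -/
noncomputable def uu (l : ℝ) (n : ℕ) : ℝ := pc l n / (1 - pc l n)

/-- The auxiliary parameter `1 - 1/((1+l) n^(1/3))`. -/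
noncomputable def ta (l : ℝ) (n : ℕ) : ℝ := 1 - 1 / ((1 + l) * (n : ℝ) ^ ((1 : ℝ) / 3))

/-- The term `k^(k-2) (τ e^(-τ))^k / k!`. -/
noncomputable def vv (τ : ℝ) (k : ℕ) : ℝ :=
  (k : ℝ) ^ (k - 2) * (τ * Real.exp (-τ)) ^ k / (k.factorial : ℝ)

/-- The number of fixed points. -/
noncomputable def fix {D : Type} (σ : Equiv.Perm D) : ℕ := Nat.card {x : D // σ x = x}

end Pool.Agent.Helper96.AW
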