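import Mathlib
import Pool.Agent.Helper96.AW.Defs

/-!
Project AW (MP_af6c86_pr, third theorem).  Part A: the graph side (no complex component; genus of
kernels).  Every goal is a `def S_XXX : Prop` with its complete proof in the docstring.  The landed
theorems `okXXX` of projects AF and AL (`Pool/Agent/Helper26/AF/All.lean`,
`Pool/Agent/Helper26/AL/All.lean`) may be used everywhere.
-/

namespace Pool.Agent.Helper96.AW

open Finset Filter Topology Pool.Agent.Helper26.AF Pool.Agent.Helper26.AL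

/-! ### The probability of no complex component -/

/-- PACKET NA (as TAI, `Pool/Agent/Helper45/AL/TAI.lean`; from `okCLO`, `okFUN`, `okCXN`, `okPW2`).  Proof.
By CLO with `Φ U = (-1)^(cc (gi G U))`: the sum over the closed `U` with `CXR R (gi G U)` of `(-1)^(cc (gi G U))` is
`∑_(A ⊆ cxs R G) (-1)^(#A) = [cxs R G = ∅]`.  Split it into the `U` with excess `E = ne (gi G U) - #U ≤ R` and the
others.  In the first part `CXR R` may be replaced by `CXG` (by CXN the excess of every component is at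
most the total one); its expectation is, by FUN with `w j i H₁ H₂ = [j = 0] (-1)^(cc H₂)` if `CXG H₂ ∧
ne H₂ ≤ i + R`, else `0` (so `U₁ = ∅`; on no vertices `ne H₁ = 0`), grouping by `ne H₂ = k + r`, equal to
`∑_(r ≤ R) TD n p r`.  The second part is at most `∑_(A ⊆ cxs) s^(E - R) ≤ s^(-R) ∏_(Q ∈ cxs) (1 + s^(exc Q))`. -/
def S_NA : Prop := ∀ (n R : ℕ) (p s : ℝ), 0 < p → p < 1 → 1 ≤ s →
  |Pr p (fun G : SimpleGraph (Fin n) => cxs R G = ∅) - ∑ r ∈ range (R + 1), TD n p r|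
    ≤ 1 / s ^ R * EE p (fun G : SimpleGraph (Fin n) =>
        ∏ Q ∈ cxs R G, (1 + 2 * s ^ (eIn G Q - #Q)))

/-- PACKET NB (as TLM, `Pool/Agent/Helper26/AL/TLM.lean`; from `okDAS`, `okRIE`, `okCXN`).  Proof.  `r = 0`:
`ds k 0 = [k = 0]` (CXN: a graph on `k ≥ 1` vertices with all components complex has at least `k + 1`
edges; for `k = 0` the only graph has `cc = 0`), so `TD n p 0 = 1 = dd 0 * JJ l 0` (`dd 0 = 1`, since
`ee 0 = 1`).  `r ≥ 1`: the term `k = 0` vanishes (`ds 0 r = 0`), and RIE with `f k = ds k r`, `β = dd r`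
(DAS). -/
def S_NB : Prop := ∀ (l : ℝ) (r : ℕ),
  Tendsto (fun n : ℕ => TD n (pc l n) r) atTop (𝓝 (dd r * JJ l r))

/-- PACKET NC (as LIP, `Pool/Agent/Helper47/AL/LIP.lean`; hypotheses NA, NB; from `okUPE`, `okUPP`, `okJCO`).
Proof.  `s = 11/10`, `t = 19/10`: `1 + 2 s^e ≤ t^(e+1)` for `e ≥ 1`, so the product of NA is at most
`t^(ZR R G)`, of bounded expectation (UPE).  `cxs R G = ∅` and `ZZ G = 0` differ only if some component has
`eIn G Q ≥ #Q + R + 1`, then `R + 2 ≤ ZZ G`, probability at most `C t^(-R)` (UPP).  So `|Pr (ZZ G = 0) -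
∑_(r ≤ R) TD| ≤ C s^(-R)` for all large `n`, for every `R`; with NB the claim follows exactly as in LIP. -/
def S_NC : Prop := S_NA → S_NB → ∀ l : ℝ, Summable (fun r : ℕ => |dd r| * JJ l r) ∧
  Tendsto (fun n : ℕ => Pr (pc l n) (fun G : SimpleGraph (Fin n) => ZZ G = 0)) atTop (𝓝 (p0 l))

/-! ### Counting graphs without complex components -/

/-- PACKET TA (number of trees; from `okFOR`).  Proof.  For `k ≥ 1` and a tree `H` on `Fin k` let `f 0 = 0` and,
for `x ≠ 0`, `f x` = a neighbour of `x` which is nearer to `0` (`SimpleGraph.dist`).  Iterating `f` reaches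
`0`, so `IsFor {0} f`; the `k - 1` pairs `{x, f x}`, `x ≠ 0`, are distinct edges (`{x, f x} = {y, f y}` with
`x ≠ y` would give `f x = y`, `f y = x`, against the decrease of the distance), so they are all edges
(`ne H = k - 1`) and `H` is determined by `f`.  FOR with `S = {0}`: `#{f // IsFor {0} f} * k = k^(k-1)`. -/
def S_TA : Prop := ∀ k : ℕ, 1 ≤ k → trk k ≤ k ^ (k - 2)

/-- PACKET TB1 (2-core of a connected graph with as many edges as vertices; from `okFOR`).  Proof.  As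
COR2 (`Pool/Agent/Helper93/AF/COR2.lean`, the case `r = 0` is excluded there but the argument is the same):
peel leaves, keeping `G[W]` connected with `#W` edges; degree zero is impossible since a graph on one
vertex has no edge.  At the end `G[S]` is connected with `#S` edges and minimal degree at least two. -/
def S_TB1 : Prop := ∀ k : ℕ, Nc k 0 * k ≤ ∑ s ∈ Icc 1 k, k.choose s * Kc s 0 * (s * k ^ (k - s))

/-- PACKET TB2 (number of cycles).  `Kc s 0` counts the connected graphs on `Fin s` with `s` edges and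
all degrees at least two; the sum of the degrees is `2 s`, so all degrees are two.  Proof.  For such a
graph `Γ` (then `s ≥ 3`, a vertex has two neighbours), a vertex `x` and a neighbour `y` of `x` define `v_0 = x`,
`v_1 = y`, `v_(i+1)` = the neighbour of `v_i` different from `v_(i-1)`.  The sequence is periodic, its first
repetition is at `v_0` (degrees two), the set of its values is closed under adjacency, so it is all of
`Fin s` and `i ↦ v_i`, `i < s`, is a bijection of `Fin s` whose consecutive values (cyclically) are the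
`s` edges of `Γ`.  So `Γ` is determined by this permutation of `Fin s`, and `Γ` gives `2 s` different ones
(`s` choices of `x`, two of `y`): `2 s Kc s 0 ≤ s!`. -/
def S_TB2 : Prop := ∀ s : ℕ, 2 * s * Kc s 0 ≤ s.factorial ∧ (s ≤ 2 → Kc s 0 = 0)

/-- PACKET TC (recursion for `XL`; from `okBIJ`).  Proof.  For `u` arbitrary.  `m * XL u L m = ∑_G [G is
counted] ∑_(Q component) #Q u^(ne G)`, since the sizes of the components add up to `m`.  In
BIJ put `w j i H₁ H₂ = j u^(ne H₁ + ne H₂)` if `H₁` is connected with `ne H₁ ≤ j`, and `ne H₁ < j → j < L`, and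
`H₂` satisfies the condition of `XL`; else `0` (for `j = 0`: `w = 0`, because of the factor `j`).  If `U` is
closed and nonempty then `gi G U` is connected iff `U` is (the vertex set of) a component, `ne (gi G U) =
eIn G U`, `ne G = ne (gi G U) + ne (gi G Uᶜ)`, and the components of `gi G Uᶜ` correspond to the components
of `G` contained in `Uᶜ`.  A connected `H₁` on `Fin j` has `ne H₁ ≥ j - 1`, so it is a tree (`trk`) or has `j`
edges (`Nc j 0`): `∑_(H₁) = j * wk u L j`. -/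
def S_TC : Prop := ∀ (u : ℝ) (L m : ℕ), (m : ℝ) * XL u L m =
  ∑ k ∈ Icc 1 m, (m.choose k : ℝ) * (k * wk u L k) * XL u L (m - k)

/-- PACKET TD1 (exponential bound; from TC).  Proof.  Let `P(z) = ∑_(m ≤ n) XL u L m z^m/m!`, `W(z) = ∑_(1 ≤ k ≤
n) wk u L k z^k/k!`; both have nonnegative coefficients (`u ≥ 0`).  By TC, for `z ≥ 0`, `P'(z) =
∑_(1 ≤ m ≤ n) m XL u L m z^(m-1)/m! = ∑_m ∑_(k ≤ m) (k wk u L k z^(k-1)/k!) (XL u L (m-k) z^(m-k)/(m-k)!) ≤ W'(z)
P(z)` (every pair `(k, m-k)` with `k ≤ n`, `m - k ≤ n` occurs in the product, the others are nonnegative).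
So `P e^(-W)` is nonincreasing on `[0, ∞)` (`antitoneOn_of_deriv_nonpos`), and `P(0) = XL u L 0 = 1`,
`W(0) = 0`. -/
def S_TD1 : Prop := S_TC → ∀ (u z : ℝ) (L n : ℕ), 0 ≤ u → 0 ≤ z →
  ∑ m ∈ range (n + 1), XL u L m * z ^ m / (m.factorial : ℝ)
    ≤ Real.exp (∑ k ∈ Icc 1 n, wk u L k * z ^ k / (k.factorial : ℝ))

/-- PACKET TE (largest tree in a block; from `okBIJ`).  Proof.  A graph counted by `XL u (2K) n` and not by
`XL u K n` has a tree component with `K ≤ #U < 2 K` vertices.  So the difference is at most `∑_G ∑_U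
u^(ne G)` over the closed `U` with `K ≤ #U < 2K`, `gi G U` a tree, `gi G Uᶜ` counted by `XL u (2K) (n - #U)`
(`u ≥ 0`); BIJ. -/
def S_TE : Prop := ∀ (u : ℝ) (K n : ℕ), 0 ≤ u → 1 ≤ K →
  XL u (2 * K) n ≤ XL u K n +
    ∑ k ∈ Ico K (2 * K), (n.choose k : ℝ) * ((trk k : ℝ) * u ^ (k - 1)) * XL u (2 * K) (n - k)

/-- PACKET TF (from TD1, TE, given as hypotheses in the form below).  Proof.  Let `c_k = trk k u^(k-1) z^k/k!`,
`V = ∑_(1 ≤ k ≤ n) Nc k 0 u^k z^k/k!`, `A_i = ∑_(1 ≤ k < 2^(i+1)) c_k`.  For all `L ≤ 2^(i+1)` the exponent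
of TD1 is at most `A_i + V`; for `L = 1` it is `V`.  So `XL u 1 n z^n/n! ≤ e^V` (one term of the sum TD1) and
`∑_(m ≤ n) XL u (2^(i+1)) m z^m/m! ≤ e^(A_i + V)`.  TE with `K = 2^i`, multiplied by `z^n/n!`: the term `k ≤ n` of
the sum becomes `c_k XL u (2K) (n-k) z^(n-k)/(n-k)! ≤ M i * (...)`, the terms `k > n` are `0`; so
`XL u (2^(i+1)) n z^n/n! ≤ XL u (2^i) n z^n/n! + M i e^(A_i + V)`.  Add over `i < I`.  At the end
`XL u (2^I) n = XL u (n+1) n`, since `#Q ≤ n < 2^I`. -/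
def S_TF : Prop :=
  (∀ (u z : ℝ) (L n : ℕ), 0 ≤ u → 0 ≤ z →
    ∑ m ∈ range (n + 1), XL u L m * z ^ m / (m.factorial : ℝ)
      ≤ Real.exp (∑ k ∈ Icc 1 n, wk u L k * z ^ k / (k.factorial : ℝ))) → S_TE →
  ∀ (u z : ℝ) (n I : ℕ) (M : ℕ → ℝ), 0 < u → 0 < z → n < 2 ^ I →
    (∀ i < I, ∀ k ∈ Ico (2 ^ i) (2 ^ (i + 1)),
      (trk k : ℝ) * u ^ (k - 1) * z ^ k / (k.factorial : ℝ) ≤ M i) →
    XL u (n + 1) n * z ^ n / (n.factorial : ℝ)
      ≤ Real.exp (∑ k ∈ Icc 1 n, (Nc k 0 : ℝ) * u ^ k * z ^ k / (k.factorial : ℝ)) *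
        (1 + ∑ i ∈ range I, M i * Real.exp (∑ k ∈ Ico 1 (2 ^ (i + 1)),
          (trk k : ℝ) * u ^ (k - 1) * z ^ k / (k.factorial : ℝ)))

/-- PACKET TG.  Proof.  `ZZ G = 0` iff every component `Q` has `eIn G Q ≤ #Q` (every term `zq G Q` of `ZZ G` is
`0`; `zq G Q ≥ 2` for a complex component).  All components have at most `n < n + 1` vertices.  The
weight is `p^(ne G) (1-p)^(N - ne G) = (1-p)^N (p/(1-p))^(ne G)`, `N = n choose 2` (`ne G ≤ N`). -/
def S_TG : Prop := ∀ (n : ℕ) (p : ℝ), 0 < p → p < 1 →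
  Pr p (fun G : SimpleGraph (Fin n) => ZZ G = 0) = (1 - p) ^ (n.choose 2) * XL (p / (1 - p)) (n + 1) n

/-! ### Genus of kernels -/

/-- PACKET GA (two faces in every complex component; from `okROT`).  Proof.  Start from any rotation
system `σ₀` (ROT).  Let `Q` be a component with `#Q + 1 ≤ eIn G Q`; it is not a tree, so it contains a cycle
`v_0, ..., v_(j-1)`, `j ≥ 3`, distinct vertices.  Let `a_i` be the dart `(v_i, v_(i-1))` and `b_i` the dart
`(v_i, v_(i+1))` (indices mod `j`), two different darts at `v_i`.  Change the rotation at `v_i` so that it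
maps `a_i` to `b_i`: with `c = σ₀` at `v_i` replace it by the conjugate `τ c τ⁻¹`, `τ = swap (c a_i) b_i` (`τ`
fixes `a_i`: `c a_i ≠ a_i` because there are at least two darts at `v_i`, and `b_i ≠ a_i`), still one cycle on the
darts at `v_i`.  Do this for all complex components at once.  Then for `φ = σ * rev G`:
`φ (v_i, v_(i+1)) = σ (v_(i+1), v_i) = σ a_(i+1) = b_(i+1)`, so the `b_i` form one orbit of `φ`; the dart
`a_0` is not one of the `b_i` (`a_0 = b_0` is excluded, and `b_i` has source `v_i`). -/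
def S_GA : Prop := ∀ (V : Type) [Fintype V] [DecidableEq V] (G : SimpleGraph V),
  ∃ σ : Equiv.Perm G.Dart, IsRot G σ ∧ ∀ Q : Finset V, IsComp G Q → #Q + 1 ≤ eIn G Q →
    ∃ d d' : G.Dart, d.fst ∈ Q ∧ d'.fst ∈ Q ∧ ¬ (σ * rev G).SameCycle d d'

/-- PACKET GB (from GA; as UG, `Pool/Agent/Helper83/AF/UG.lean`; uses `okPAR`, `okBLK`).  Proof.  Take `σ` from
GA.  Every component `Q` is complex (`CXG G`).  Its block of darts (source in `Q`) has `F_Q ≥ 2` orbits of
`φ = σ * rev G`, and `F_Q ≡ #Q + eIn G Q` mod 2 (PAR applied to the block, as in UG: `σ` has `#Q` orbits there,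
every vertex of `Q` has a dart).  With `r_Q = eIn G Q - #Q ≥ 1`: `F_Q ≡ r_Q` mod 2, so `F_Q ≥ 3` if `r_Q` is odd,
that is `r_Q + 2 ≤ F_Q + 2 ⌊r_Q/2⌋`.  Sum over the `c` components: `(ne G - card V) + 2 c ≤ orb φ +
2 ∑ ⌊r_Q/2⌋ ≤ orb φ + 2 g`, since `∑ r_Q = ne G - card V ≤ 2 g`.  This is `Embeds G g` (no isolated vertex). -/
def S_GB : Prop := S_GA → ∀ (V : Type) [Fintype V] [DecidableEq V] (G : SimpleGraph V) (g : ℕ),
  CXG G → ne G ≤ Fintype.card V + 2 * g → Embeds G g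

/-- PACKET GC (from GB, given as hypothesis; `okCAS`, `okEEQ`).  Proof.  For `r = 0`: EEQ.  For `1 ≤ r ≤ 2 g`, GB
says `co (some g) k r = co none k r` for all `k` (for `CXG G`, `ne G = k + r`, `Embeds G g` holds).  By CAS the
two equal sequences satisfy `AS` with `eo (some g) r` and `eo none r`; limits are unique and `2^a Γ(a) ≠ 0`,
so `eg g r = ee r` (EEQ). -/
def S_GC : Prop :=
  (∀ (V : Type) [Fintype V] [DecidableEq V] (G : SimpleGraph V) (g : ℕ),
    CXG G → ne G ≤ Fintype.card V + 2 * g → Embeds G g) →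
  ∀ g s : ℕ, s ≤ 2 * g → eg g s = ee s

/-- PACKET GD (from `okKER`, `okPMC`).  Proof.  Let `η = δ/(4 (2 + δ))` (so `0 < η < 1/4`) and `r₀` from
KER.  If `(2 + δ) g ≤ s`, then `η s + 2 g ≤ η s + 2 s/(2 + δ) < s`.  For `s ≥ max r₀ 1` the pairings `κ` of KER
(connected, every rotation has at most `η s` orbits) are not `EmbX g`: `cmq κ Prod.fst ≥ 1` (`KX s` is
nonempty), so `2 + s ≤ orb + 2 g ≤ η s + 2 g` would follow.  Hence `#{κ // IsPair κ ∧ EmbX g κ} ≤
(6s-1)!! - (6s-1)!!/2` (PMC: `Fintype.card (KX s) = 6 s = 2 (3 s)`).  `g₀` with `2 g₀ ≥ r₀`, `g₀ ≥ 1`. -/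
def S_GD : Prop := ∀ δ : ℝ, 0 < δ → ∃ g₀ : ℕ, ∀ g ≥ g₀, ∀ s : ℕ, (2 + δ) * g ≤ s →
  eg g s ≤ ee s / 2

/-- PACKET GE (contraction of a pair).  `κ` is a pairing with `κ a = b`, `κ'` its restriction to the other
points.  Proof.  Let `s₁ = swap a (σ b)`, `s₂ = swap b (s₁ (σ a))` and `ψ = s₂ * s₁ * (σ * κ)`.  `(σ κ) a = σ b`, so `s₁ σ κ`
fixes `a`; `(s₁ σ κ) b = s₁ (σ a)`, which is not `a` (`a` is its own image), so `s₂` fixes `a`, and
`ψ` fixes `a` and `b`.  By `okSWAP` (left multiplication of `π` by `swap x (π x)` with `π x ≠ x` splits off the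
fixed point `x`: one more orbit, `swap x (π x) * π = π * swap (π⁻¹ x) x`; it is the identity if `π x = x`):
`orb ψ = orb (σ κ) + [σ b ≠ a] + [s₁ (σ a) ≠ b]`.  The permutation `σ'' = s₂ s₁ σ swap a b` fixes `a` and `b`
(`σ'' a = s₂ (s₁ (σ b)) = s₂ a = a`, `σ'' b = s₂ (s₁ (σ a)) = b`); let `σ'` be its restriction.  `ψ = σ'' * (swap a b * κ)`
and `swap a b * κ` fixes `a`, `b` and restricts to `κ'`, so `orb ψ = orb (σ' κ') + 2`.  Hence `orb (σ κ) =
orb (σ' κ') + e`, `e = [σ b = a] + [s₁ (σ a) = b]`.  Values of `σ'` for `z ≠ a, b`: `σ' z = σ z` if `σ z ≠ a, b`; if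
`σ z = a`: `σ' z = s₂ (s₁ a) = s₂ (σ b)`; if `σ z = b`: `σ' z = s₂ (s₁ b)`.
(i) Let `σ a = a`.  If `σ b = b`: `e = 1` (`s₁ (σ a) = s₁ a = b`), `σ'` is the restriction of `σ`, with two
fixed points less.  If `σ b ≠ b`: `σ b ≠ a`, `s₁ (σ a) = σ b ≠ b`, `e = 0`; only `z = σ⁻¹ b` changes its value, so
`fix σ' ≤ fix σ - 1 + 1`.  (ii) Let `σ` have no fixed point.  `σ' z = z` only if `σ z = a` or `σ z = b`.  In the
first case `σ b ≠ a` and `σ' z = s₂ (σ b)`: if `σ b` is not `b` (no fixed point) nor `s₁ (σ a)`, this is `σ b`;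
`s₁ (σ a) = σ b` only if `σ a = a`, excluded.  So `z = σ b`, `σ (σ b) = a`, `b = σ⁻¹ (σ⁻¹ a)`.  In the second
case (`σ z = b`, so `σ a ≠ b`, and `σ b ≠ b`): `s₁ b = b`, `σ' z = s₂ b = s₁ (σ a)`, equal to `σ a` unless
`σ a = σ b` (excluded) or `σ a = a` (excluded); so `z = σ a`, `b = σ (σ a)`.  And `e = [σ b = a] + [σ a = b]` (as
`s₁ (σ a) = b` iff `σ a = b`, when `σ b ≠ a`; when `σ b = a`, `s₁ = 1`).  So `fix σ' + e` is at most `[b = σ⁻¹ a] +
[b = σ a] + [b = σ⁻¹ (σ⁻¹ a)] + [b = σ (σ a)]`. -/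
def S_GE : Prop := ∀ (D : Type) [Fintype D] [DecidableEq D] (σ : Equiv.Perm D) (a b : D), a ≠ b →
  ∃ (σ' : Equiv.Perm {x : D // x ≠ a ∧ x ≠ b}) (e : ℕ),
    (∀ (κ : Equiv.Perm D) (κ' : Equiv.Perm {x : D // x ≠ a ∧ x ≠ b}), IsPair κ → κ a = b →
      (∀ x, (κ' x).1 = κ x.1) → orb (σ * κ) = orb (σ' * κ') + e) ∧
    (σ a = a → fix σ' + e ≤ fix σ) ∧
    ((∀ x, σ x ≠ x) → fix σ' + e ≤ 4 ∧
      (b ≠ σ a → b ≠ σ⁻¹ a → b ≠ σ (σ a) → b ≠ σ⁻¹ (σ⁻¹ a) → fix σ' + e = 0))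

open Classical in
/-- PACKET GF (moment of the number of faces; from GE).  Proof.  Induction on `m`; for `m = 0` there is
one permutation, `orb = 0`.  Let `B_m` be the product.  Step to `m + 1`: choose `a` with `σ a = a` if there is a
fixed point, otherwise any `a`.  Every pairing `κ` has a unique `b = κ a ≠ a` and restricts to a pairing `κ'` of
the `2 m` other points, and `κ ↦ (b, κ')` is a bijection (see `Pool/Agent/Helper28/AF/PMC.lean`).  So the sum
is `∑_(b ≠ a) x^e ∑_(κ') x^(orb (σ' κ')) ≤ ∑_(b ≠ a) x^(e + fix σ') B_m`.  If `σ a = a` every `b` contributes at most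
`x^(fix σ) B_m` (`x ≥ 1`), in total `(2m+1) x^(fix σ) B_m`.  If `σ` has no fixed point, at most four `b`
contribute at most `x^4 B_m`, the others at most `B_m`: in total at most `(2m + 1 + 4 x^4) B_m`, and
`fix σ = 0`. -/
def S_GF : Prop := S_GE → ∀ (m : ℕ) (D : Type) [Fintype D] [DecidableEq D] (σ : Equiv.Perm D) (x : ℝ),
  Fintype.card D = 2 * m → 1 ≤ x →
  ∑ κ ∈ (univ : Finset (Equiv.Perm D)).filter IsPair, x ^ orb (σ * κ)
    ≤ x ^ fix σ * ∏ i ∈ range m, (2 * (i : ℝ) + 1 + 4 * x ^ 4)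

open Classical in
/-- PACKET GG (kernels of small genus are superexponentially rare; from GF).  Proof.  For a rotation `σ` of
`KX s` (`RotX`), `fix σ = 0` (the three darts of a vertex form one cycle).  `EmbX g κ` gives a `σ` with
`RotX σ` and `s ≤ orb (σ κ) + 2 g`.  There are at most `6^(2s) = 36^s` rotations (they preserve the first
coordinate: a permutation of `Fin 3` for every vertex).  So for `x ≥ 1`, by Markov, `#{κ // IsPair κ ∧ EmbX g
κ} ≤ 36^s x^(-(s - 2g)) ∏_(i < 3s) (2i + 1 + 4 x^4)` if `2 g ≤ s`, and `∏_(i<3s) (2i+1+4x^4)/(6s-1)!! = ∏ (1 + 4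
x^4/(2i+1)) ≤ exp (4 x^4 ∑_(i<3s) 1/(2i+1)) ≤ exp (4 x^4 (1 + log (3 s)))` (`(6s-1)!! = ∏_(i<3s) (2i+1)`).  If
`s ≥ (2 + δ) g` then `s - 2 g ≥ η s`, `η = δ/(2 + δ)`; choose `x ≥ 1` with `36 x^(-η) ≤ e^(-K-1)`: then
`eg g s/ee s ≤ exp (-(K+1) s + 4 x^4 (1 + log (3 s))) ≤ exp (-K s) ≤ exp (-K g)` for `s` large, that is `g ≥ g₀`
(`K ≥ 0`, `s ≥ g`). -/
def S_GG : Prop :=
  (∀ (m : ℕ) (D : Type) [Fintype D] [DecidableEq D] (σ : Equiv.Perm D) (x : ℝ),
    Fintype.card D = 2 * m → 1 ≤ x →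
    ∑ κ ∈ (univ : Finset (Equiv.Perm D)).filter IsPair, x ^ orb (σ * κ)
      ≤ x ^ fix σ * ∏ i ∈ range m, (2 * (i : ℝ) + 1 + 4 * x ^ 4)) →
  ∀ δ K : ℝ, 0 < δ → 0 < K → ∃ g₀ : ℕ, ∀ g ≥ g₀, ∀ s : ℕ, (2 + δ) * g ≤ s →
    eg g s ≤ Real.exp (-(K * g)) * ee s

end Pool.Agent.Helper96.AW
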