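import Mathlib
import Pool.Agent.Helper96.AW.Defs

/-!
Project AW (MP_af6c86_pr, third theorem).  Part B: analysis of the coefficients, the limit law of the
excess, numerical sums.  Every goal is a `def S_XXX : Prop` with its complete proof in the docstring.
The landed theorems `okXXX` of projects AF and AL may be used everywhere.
-/

namespace Pool.Agent.Helper96.AW

open Finset Filter Topology Pool.Agent.Helper26.AF Pool.Agent.Helper26.AL MeasureTheory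

/-! ### Coefficients -/

/-- PACKET AA (size of the coefficients; from `okEEB`).  Proof.  `x * (ee s * ww s x) = (x^3)^(s/2) * c_s` with
`c_s = ee s/(2^(3s/2) Γ(3s/2))`, so the claim is `c_s ≤ C s^3 (e/(12 s))^(s/2)` and `(e/(12 s))^(s/2) ≤ C s^3 c_s`.
By EEB `ee s = θ_s (3s-1)! (3s)^(-2s) e^(2s) 2^(-s)` with `1/(20 s) ≤ θ_s ≤ 3 s`.  `(3s-1)! = Γ(3s)` and, with
`a = 3s/2`, `Γ(a) Γ(a + 1/2) = 2^(1-2a) √π Γ(2a)` (`Real.Gamma_mul_Gamma_add_half`), so `Γ(3s)/Γ(a) =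
Γ(a + 1/2) 2^(2a-1)/√π`.  Log-convexity gives `Γ(a + 1/2)^2 ≤ Γ(a) Γ(a+1) = a Γ(a)^2` and `Γ(a+1)^2 ≤ Γ(a+1/2)
Γ(a+3/2)`, that is `a^2 Γ(a)^2 ≤ (a+1/2) Γ(a+1/2)^2`; so `Γ(a+1/2)^2` lies between `Γ(a) Γ(a+1/2) a/√(a+1/2)` and
`Γ(a) Γ(a+1/2) √a`, where `Γ(a) Γ(a+1/2) = 2^(1-3s) √π (3s-1)!`, and `(3s-1)! = (3s)!/(3s)` lies between
`(3s/e)^(3s)/(3s)` and `e √(3s) (3s/e)^(3s)` (Stirling).  Altogether `c_s = θ_s 2^(3s/2 - s) (3s)^(-2s) e^(2s)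
2^(-1) π^(-1/2) Γ(a+1/2)` and `Γ(a+1/2) = ((3s/e)^(3s) 2^(-3s))^(1/2)` up to a factor between `c s^(-1)` and
`C s`; the powers combine to `(3s)^(-s/2) e^(s/2) 2^(-s) = (e/(12 s))^(s/2)`. -/
def S_AA : Prop := ∃ C : ℝ, 0 < C ∧ ∀ s : ℕ, 1 ≤ s → ∀ x : ℝ, 0 < x →
  ee s * ww s x ≤ C * (s : ℝ) ^ 3 * (x⁻¹ * (Real.exp 1 * x ^ 3 / (12 * s)) ^ ((s : ℝ) / 2)) ∧
  x⁻¹ * (Real.exp 1 * x ^ 3 / (12 * s)) ^ ((s : ℝ) / 2) ≤ C * (s : ℝ) ^ 3 * (ee s * ww s x)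

/-- PACKET AB (Kaluza's lemma).  Proof.  `ee (r+1)/ee r = (6r+1)(6r+3)(6r+5)/(36 (2r+1)(2r+2)) = (36 r^2 + 36 r +
5)/(24 (r+1))` is increasing in `r`, so `ee` is positive and log-convex, `ee 0 = 1`, `dd 0 = 1`.
`∑_(i+j=r) ee i dd j = 0` for `r ≥ 1`.  Claim `dd r ≤ 0` for `r ≥ 1`, by strong induction.  `r = 1`: `dd 1 = -ee 1`.
`r + 1 ≥ 2`: with `b_k = -dd k ≥ 0` for `1 ≤ k ≤ r`: `ee r = ∑_(k=1)^r b_k ee (r-k)` and `b_(r+1) = ee (r+1) -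
∑_(k=1)^r b_k ee (r+1-k)`; `ee (r+1-k) ≤ ee (r-k) ee (r+1)/ee r` for `k ≥ 1`, so the last sum is at most
`(ee (r+1)/ee r) ee r = ee (r+1)` and `b_(r+1) ≥ 0`.  The convolution: `∑_(i ≤ r) ee i |dd (r-i)| = ee r +
∑_(i<r) ee i (-dd (r-i)) = 2 ee r`.  In particular `|dd r| ≤ ee r` for `r ≥ 1` (term `i = 0` of
`∑_(i<r) ee i (-dd (r-i)) = ee r`, `ee 0 = 1`). -/
def S_AB : Prop := dd 0 = 1 ∧ (∀ t, 1 ≤ t → dd t ≤ 0) ∧ (∀ t, |dd t| ≤ ee t) ∧ (∀ r, 0 < ee r) ∧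
  ∀ r, 1 ≤ r → ∑ i ∈ range (r + 1), ee i * |dd (r - i)| = 2 * ee r

/-- PACKET AC (the function `JJ`).  `FF x l = x^3/6 - l x^2/2 + l^2 x/2`, and for `x ≥ 0`, `FF x l ≥ x^3/24`
(minimum over `l` at `l = x/2`).  Proof.  The first formula is the definition of `JJ` (constant factor in
the integral), integrability: `ww s x ≤ c x^(3s/2-1)` with `3s/2 - 1 ≥ 1/2` and `exp (-(FF x l)) ≤
exp (-(x^3/24))`.  For `l ≤ l' ≤ 0`, `FF x l ≥ FF x l'`.  For `l ≤ 0`, `FF x l ≥ x^3/6 + l^2 x/2`; as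
`l → -∞` the integrand tends to `0`, dominated by the one for `l = 0`. -/
def S_AC : Prop := (∀ x l : ℝ, 0 ≤ x → x ^ 3 / 24 ≤ FF x l) ∧
  (∀ (l : ℝ) (s : ℕ), 1 ≤ s → JJ l s = ∫ x in Set.Ioi (0 : ℝ), ww s x * Real.exp (-(FF x l))) ∧
  (∀ (l : ℝ) (s : ℕ), 1 ≤ s → IntegrableOn (fun x => ww s x * Real.exp (-(FF x l))) (Set.Ioi 0)) ∧
  (∀ (l l' : ℝ) (s : ℕ), l ≤ l' → l' ≤ 0 → JJ l s ≤ JJ l' s) ∧
  ∀ s : ℕ, 1 ≤ s → Tendsto (fun l => JJ l s) atBot (𝓝 0)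

/-- PACKET AD (semigroup property; from AC).  Proof.  `FF x l + FF z (l - x) = FF (x + z) l`.  By AC,
`JJ (l-x) t = ∫_(z>0) ww t z exp (-(FF z (l-x)))`.  So the right side is `∫_(x>0) ∫_(z>0) ww s x ww t z h(x+z)`,
`h(w) = exp (-(FF w l)) ≥ 0` (Tonelli; all functions are nonnegative and measurable).  Substituting `z = w - x` and
exchanging the integrals it is `∫_(w>0) h(w) ∫_(0<x<w) ww s x ww t (w-x) dx dw`, and the inner integral is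
`w^(a+b-1) B(a,b)/(2^(a+b) Γ(a) Γ(b)) = ww (s+t) w`, `a = 3s/2`, `b = 3t/2` (`x = w y`; Beta integral
`∫_0^1 y^(a-1) (1-y)^(b-1) dy = Γ(a) Γ(b)/Γ(a+b)`, `Complex.Gamma_mul_Gamma_eq_betaIntegral`; compare
`Pool/Agent/Helper56/AL/CNV.lean`).  The value is finite, so the function of `x` is integrable. -/
def S_AD : Prop := S_AC → ∀ (l : ℝ) (s t : ℕ), 1 ≤ s → 1 ≤ t →
  IntegrableOn (fun x => ww s x * Real.exp (-(FF x l)) * JJ (l - x) t) (Set.Ioi 0) ∧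
  JJ l (s + t) = ∫ x in Set.Ioi (0 : ℝ), ww s x * Real.exp (-(FF x l)) * JJ (l - x) t

/-- PACKET AE (geometric bound; from AA).  Proof.  Put `X = x^3/12`.  For every `A > 0` and real `s > 0`,
`(A/s)^(s/2) ≤ e^(A/(2e))` (maximum over `s` at `s = A/e`).  With `A = e θ^2 (1+δ) X`: `θ^s (e X/s)^(s/2) =
(1+δ)^(-s/2) (A/s)^(s/2) ≤ (1+δ)^(-s/2) exp ((1+δ) θ^2 X/2)`, and `(1+δ) θ^2 X/2 = (1+δ) θ^2 x^3/24`.  So by AA for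
`x ≥ 1`, `θ^s ee s ww s x ≤ C s^3 (1+δ)^(-s/2) exp (...)`.  For `x < 1`: `x⁻¹ (x^3)^(s/2) = x^(3s/2-1) ≤ 1` and
`θ^s (e/(12 s))^(s/2) = (e θ^2/(12 s))^(s/2) ≤ C' (1+δ)^(-s/2)` for all `s ≥ 1`, since `(A/s)^(s/2)` is bounded
(`A = e θ^2 (1+δ)/12`).  Take `q = (1+δ)^(-1/4)` (`s^3 (1+δ)^(-s/4)` is bounded). -/
def S_AE : Prop := S_AA → ∀ θ δ : ℝ, 0 < θ → 0 < δ → ∃ C q : ℝ, 0 < C ∧ 0 < q ∧ q < 1 ∧
  ∀ s : ℕ, 1 ≤ s → ∀ x : ℝ, 0 < x →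
    θ ^ s * (ee s * ww s x) ≤ C * q ^ s * Real.exp ((1 + δ) * θ ^ 2 * x ^ 3 / 24)

/-- PACKET AF (from AC and the conclusion of AE, given as hypothesis).  Proof.  AE with `θ = 1`, `δ = 1`:
`ee s ww s x ≤ C q^s exp (x^3/12)`, and `FF x l ≥ x^3/6 - |l| x^2/2`, so `ee s JJ l s ≤ C q^s ∫_(x>0)
exp (x^3/12 - x^3/6 + |l| x^2/2) dx`, a finite constant times `q^s`.  (The term `s = 0` is irrelevant.) -/
def S_AF : Prop := S_AC →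
  (∀ θ δ : ℝ, 0 < θ → 0 < δ → ∃ C q : ℝ, 0 < C ∧ 0 < q ∧ q < 1 ∧ ∀ s : ℕ, 1 ≤ s → ∀ x : ℝ, 0 < x →
    θ ^ s * (ee s * ww s x) ≤ C * q ^ s * Real.exp ((1 + δ) * θ ^ 2 * x ^ 3 / 24)) →
  ∀ l : ℝ, Summable (fun s : ℕ => ee s * JJ l s)

/-! ### The limit law of the excess -/

/-- PACKET AG (from AB and the conclusion of AF; `okEEQ`, `okPMC`, `okJCO`).  Proof.  `JJ ≥ 0` (JCO).  The double
family `ee i |dd j| JJ l (i+j)` is nonnegative and its sum over `i + j = r` is `2 ee r JJ l r` for `r ≥ 1` (AB),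
summable over `r`; so it is summable on `ℕ × ℕ` (`summable_sum_mul_antidiagonal...` or
`summable_prod_of_nonneg` through `Finset.sigmaAntidiagonalEquivProd`).  Hence all rearrangements are
allowed: `∑'_s ee s * PP l s = ∑'_r JJ l r ∑_(i+j=r) ee i dd j = JJ l 0 = 1` (the inner sum is `[r = 0]`, `ee 0 = dd 0
= 1`), and with `0 ≤ eg g i ≤ ee i` (fewer pairings; PMC gives the total number `(6r-1)!!`), `∑'_s eg g s *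
PP l s = ∑'_r JJ l r ∑_(i+j=r) eg g i dd j = ∑'_r bb g r JJ l r` (`bb g r` is the coefficient of the product of
`∑ eg g r z^r` and `∑ dd r z^r`). -/
def S_AG : Prop := S_AB → (∀ l : ℝ, Summable (fun s : ℕ => ee s * JJ l s)) →
  (∀ g s, 0 ≤ eg g s ∧ eg g s ≤ ee s) ∧
  (∀ (l : ℝ) (s : ℕ), Summable (fun t : ℕ => |dd t| * JJ l (s + t))) ∧
  (∀ l : ℝ, Summable (fun s : ℕ => ee s * |PP l s|) ∧ ∑' s : ℕ, ee s * PP l s = 1) ∧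
  ∀ (g : ℕ) (l : ℝ), pg g l = ∑' s : ℕ, eg g s * PP l s

/-- PACKET AH (from AC, the conclusions of AD, AG).  Proof.  `PP l s = ∑'_t dd t JJ l (s+t)`; for `t ≥ 1` insert
AD, for `t = 0` it is `JJ l s = ∫ ww s x exp (-(FF x l)) * 1` (AC; `JJ _ 0 = 1`).  So `PP l s = ∑'_t ∫_(x>0)
ww s x exp (-(FF x l)) dd t JJ (l-x) t`, and `∑_t ∫ |...| = ∑_t |dd t| JJ l (s+t) < ∞`
(`integral_tsum` or `hasSum_integral_of_summable_integral_norm`), so sum and integral may be exchanged;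
the inner sum is `p0 (l-x)`. -/
def S_AH : Prop := S_AC →
  (∀ (l : ℝ) (s t : ℕ), 1 ≤ s → 1 ≤ t →
    IntegrableOn (fun x => ww s x * Real.exp (-(FF x l)) * JJ (l - x) t) (Set.Ioi 0) ∧
    JJ l (s + t) = ∫ x in Set.Ioi (0 : ℝ), ww s x * Real.exp (-(FF x l)) * JJ (l - x) t) →
  (∀ (l : ℝ) (s : ℕ), Summable (fun t : ℕ => |dd t| * JJ l (s + t))) →
  ∀ (l : ℝ) (s : ℕ), 1 ≤ s →
    IntegrableOn (fun x => ww s x * Real.exp (-(FF x l)) * p0 (l - x)) (Set.Ioi 0) ∧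
    PP l s = ∫ x in Set.Ioi (0 : ℝ), ww s x * Real.exp (-(FF x l)) * p0 (l - x)

/-- PACKET AI (from AB, AC, the conclusions of AF and NC).  Proof.  `0 ≤ Pr ≤ 1` for `0 < pc l n < 1` (all
large `n`), so `0 ≤ p0 l ≤ 1`.  `p0 l = 1 + ∑'_(t ≥ 1) dd t JJ l t ≥ 1 - ∑'_(t ≥ 1) ee t JJ l t`; for `l → -∞` the last sum
tends to `0` by dominated convergence (AC: every `JJ l t → 0`, and `JJ l t ≤ JJ 0 t` for `l ≤ 0`; summable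
by AF; `tendsto_tsum_of_dominated_convergence`). -/
def S_AI : Prop := S_AB → S_AC → (∀ l : ℝ, Summable (fun s : ℕ => ee s * JJ l s)) →
  (∀ l : ℝ, Tendsto (fun n : ℕ => Pr (pc l n) (fun G : SimpleGraph (Fin n) => ZZ G = 0)) atTop
    (𝓝 (p0 l))) →
  (∀ l : ℝ, 0 ≤ p0 l ∧ p0 l ≤ 1) ∧ ∃ M : ℝ, 0 < M ∧ ∀ l ≤ -M, 1 / 2 ≤ p0 l

/-- PACKET AJ (bounds for `PP`; from AC and the conclusions of AH, AI, TZ).  Proof.  Let `s ≥ 1`.  By AH,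
`PP l s = ∫ ww s x e^(-FF) p0 (l-x)` with `0 ≤ p0 ≤ 1`: so `0 ≤ PP l s ≤ JJ l s` (AC), and restricting to
`x > max 0 (l + M)`, where `l - x ≤ -M`, gives the lower bound.  For `s = 0`, `PP l 0 = p0 l`, `JJ l 0 = 1`.
Upper bound for `l ≥ 0`, with `C ≥ 1` from TZ (`p0 m ≤ C (1+m) e^(-m^3/6)` for `m ≥ 0`): for `0 < x ≤ l`,
`FF x l + (l-x)^3/6 = l^3/6`, so `e^(-FF) p0 (l-x) ≤ C (1+l) e^(-l^3/6)`; for `x > l`, `e^(-FF) p0 (l-x) ≤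
e^(-l^3/6 - (x-l)^3/6)`.  Integrability of the last function: AC (`FF x l` differs from `l^3/6 +
(max (x-l) 0)^3/6` only on a bounded interval), or compare directly. -/
def S_AJ : Prop := S_AC →
  (∀ (l : ℝ) (s : ℕ), 1 ≤ s →
    IntegrableOn (fun x => ww s x * Real.exp (-(FF x l)) * p0 (l - x)) (Set.Ioi 0) ∧
    PP l s = ∫ x in Set.Ioi (0 : ℝ), ww s x * Real.exp (-(FF x l)) * p0 (l - x)) →
  ((∀ l : ℝ, 0 ≤ p0 l ∧ p0 l ≤ 1) ∧ ∃ M : ℝ, 0 < M ∧ ∀ l ≤ -M, 1 / 2 ≤ p0 l) →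
  (∃ C : ℝ, 0 < C ∧ ∀ l : ℝ, 0 ≤ l → p0 l ≤ C * ((1 + l) * Real.exp (-(l ^ 3 / 6)))) →
  (∀ (l : ℝ) (s : ℕ), 0 ≤ PP l s ∧ PP l s ≤ JJ l s) ∧
  (∃ M : ℝ, 0 < M ∧ ∀ (l : ℝ) (s : ℕ), 1 ≤ s →
    1 / 2 * (∫ x in Set.Ioi (max 0 (l + M)), ww s x * Real.exp (-(FF x l))) ≤ PP l s) ∧
  ∃ C : ℝ, 0 < C ∧ ∀ l : ℝ, 0 ≤ l → PP l 0 ≤ C * ((1 + l) * Real.exp (-(l ^ 3 / 6))) ∧
    ∀ s : ℕ, 1 ≤ s → PP l s ≤ C * ((1 + l) * Real.exp (-(l ^ 3 / 6)) *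
      ∫ x in Set.Ioi (0 : ℝ), ww s x * Real.exp (-((max (x - l) 0) ^ 3 / 6)))

/-! ### Large deviations -/

/-- PACKET AK (a series).  Proof.  Let `h(s) = (s/2)(1 + log X - log s)` for real `s > 0`, so that the terms are
`s^3 e^(h(s))`; `h'(s) = (log X - log s)/2`, `h` is increasing up to `s = X`, where `h = X/2`, then decreasing, and
`h'(s) ≤ -(log 2)/2` for `s ≥ 2 X`.  Case `X ≤ S`: for `S ≤ s ≤ 2S`, `h(s) ≤ h(S)`; for `s ≥ 2 S`, `h(s) ≤ h(S) -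
(s - 2S) (log 2)/2`; the sum is at most `((S+1) (2S)^3 + ∑_(j ≥ 0) (2S + j)^3 2^(-j/2)) e^(h(S)) ≤ C S^4 e^(h(S))`.
Case `X > S` (`≥ 1`): `h ≤ X/2` for `s ≤ 2X + 1` (at most `2X + 2` terms), `h(s) ≤ X/2 - (s - 2X) (log 2)/2` for
`s ≥ 2X`: the sum is at most `C X^4 e^(X/2)`. -/
def S_AK : Prop := ∃ C : ℝ, 0 < C ∧ ∀ (S : ℕ) (X : ℝ), 1 ≤ S → 0 < X →
  Summable (fun s : ℕ => if S ≤ s then (s : ℝ) ^ 3 * (Real.exp 1 * X / s) ^ ((s : ℝ) / 2) else 0) ∧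
  (X ≤ S → ∑' s : ℕ, (if S ≤ s then (s : ℝ) ^ 3 * (Real.exp 1 * X / s) ^ ((s : ℝ) / 2) else 0)
    ≤ C * (S : ℝ) ^ 4 * (Real.exp 1 * X / S) ^ ((S : ℝ) / 2)) ∧
  ((S : ℝ) < X → ∑' s : ℕ, (if S ≤ s then (s : ℝ) ^ 3 * (Real.exp 1 * X / s) ^ ((s : ℝ) / 2) else 0)
    ≤ C * X ^ 4 * Real.exp (X / 2))

/-- PACKET AL (the exponent, `t > 1`).  Proof.  Let `x₀ > 0` with `x₀^3 = 12 S/t^2`.  Then `l^3 = (x₀ (2-t)/2)^3`, so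
`l = x₀ (1 - t/2)`.  (i) With `v = x/x₀`: `(S/2)(1 + log (x^3/(12 S))) = (S/2)(1 + 3 log v - 2 log t)` and `FF x l =
(x₀^3/6)((v - 1 + t/2)^3 + (1 - t/2)^3) = (2S/t^2)((v-1)^3 + (3t/2)(v-1)^2 + (3t^2/4)(v-1) + 1 - 3t/2 + 3t^2/4)`.
The constant terms give `S/2 - S log t - S (2 - 3t + 3t^2/2)/t^2 = - S It t`.  The rest is `(3S/2) log v - (3S/2)
(v-1) - (2S/t^2)(v-1)^2 (v - 1 + 3t/2) ≤ 0`, since `log v ≤ v - 1` and `v - 1 + 3t/2 > 0`.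
(ii) Let `x₁^3 = 12 S` (`x₁ > 0`), `κ = max 0 (2 l/x₁)`; `2 l/x₁ = (2-t)/t^(2/3) < 1`, since `x₀ = x₁ t^(-2/3)` and
`2 - t < 1 < t^(2/3)`.  For `y ≥ x₁`, `l ≤ κ y/2`, so `(y - l)^2 ≥ (1 - κ/2)^2 y^2`, and integrating `3 (y-l)^2` from
`x₁` to `x`: `(x-l)^3 - (x₁-l)^3 ≥ (1-κ/2)^2 (x^3 - x₁^3)`.  So `x^3/24 - FF x l ≤ x₁^3/24 - FF x₁ l - c (x^3 -
x₁^3)`, `c = ((2-κ)^2 - 1)/24 > 0` (depends only on `t`), and `x₁^3/24 - FF x₁ l = S/2 - FF x₁ l ≤ - S It t` by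
(i) at `x₁`. -/
def S_AL : Prop := ∀ t : ℝ, 1 < t → ∃ c : ℝ, 0 < c ∧ ∀ S l : ℝ, 0 < S →
  l ^ 3 = 3 / 2 * S * (2 - t) ^ 3 / t ^ 2 → ∀ x : ℝ, 0 < x →
    (S / 2 * (1 + Real.log (x ^ 3 / (12 * S))) - FF x l ≤ -(S * It t)) ∧
    (12 * S ≤ x ^ 3 → x ^ 3 / 24 - FF x l ≤ -(S * It t) - c * (x ^ 3 - 12 * S))

/-- PACKET AM (upper bound, `t > 1`; from AA, AC, AK, AL and the conclusion of AF).  Proof.  `l = lg t g`,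
`S = 2 g`, so `l^3 = (3/2) S (2-t)^3/t^2`.  The sum is at most `∑_(s ≥ S) ∫_(x>0) ee s ww s x e^(-FF x l) dx ≤ C
∫_(x>0) x⁻¹ e^(-FF x l) ∑_(s ≥ S) s^3 (e X/s)^(s/2) dx`, `X = x^3/12` (AA, Tonelli).  By AK: (a) for `x < 1` (then
`X ≤ S`) the integrand is at most `C S^4 x^(3S/2 - 1) (e/(12 S))^(S/2) ≤ C S^4 (e/(12 S))^(S/2)` (`FF ≥ 0`, AC),
superexponentially small; (b) for `1 ≤ x`, `x^3 ≤ 12 S`, it is at most `C S^4 exp ((S/2)(1 + log (x^3/(12 S))) -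
FF x l) ≤ C S^4 exp (-(S It t))` (AL), on an interval of length at most `12 S`; (c) for `x^3 > 12 S` it is at
most `C x^12 exp (x^3/24 - FF x l) ≤ C x^12 exp (-(S It t) - c (x^3 - 12 S))`, whose integral is at most
a polynomial in `S` times `exp (-(S It t))`.  And a polynomial in `g` is at most `e^(ε g)` for `g` large. -/
def S_AM : Prop := S_AA → S_AC → S_AK → S_AL → (∀ l : ℝ, Summable (fun s : ℕ => ee s * JJ l s)) →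
  ∀ t ε : ℝ, 1 < t → 0 < ε → ∃ g₀ : ℕ, ∀ g ≥ g₀,
    ∑' s : ℕ, (if 2 * g < s then ee s * JJ (lg t g) s else 0) ≤ Real.exp (-(g * (2 * It t - ε)))

/-- PACKET AN (the exponent, `t < 1`).  Proof.  For `x ≤ l` the left side is at most `t^2 l^3/24 ≤ t^2 l^3/
(6 (2-t)^2)`, as `(2-t)^2 ≤ 4`.  For `x ≥ l` put `z = x/l ≥ 1` and `z₀ = 2/(2-t)`: `4 t^2/(2-t)^2 - t^2 z^3 + 4 (z-1)^3 =
(z - z₀)^2 ((4 - t^2) z - 4 (1-t))` (polynomial identity after multiplication by `(2-t)^2`), and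
`(4-t^2) z - 4(1-t) ≥ 4 - t^2 - 4 + 4t = t (4-t) > 0`.  Multiply by `l^3/24`. -/
def S_AN : Prop := ∀ t l x : ℝ, 0 < t → t < 2 → 0 < l → 0 ≤ x →
  t ^ 2 * x ^ 3 / 24 - (max (x - l) 0) ^ 3 / 6 ≤ t ^ 2 * l ^ 3 / (6 * (2 - t) ^ 2)

/-- PACKET AO (upper bound, `t < 1`; from AN and the conclusions of AE, AJ).  Proof.  `l = lg t g ≥ 0`, `l^3 =
3 g (2-t)^3/t^2`.  Let `δ' ∈ (0,1)` with `t₁ = (1+δ') t < 1`, and `N = ⌊(2+δ) g⌋`.  For `s ≤ N`, `1 ≤ t^s t^(-N)`.  AE with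
`θ = t`: for `s ≥ 1`, `ee s ww s x ≤ t^(-N) C q^s exp ((1+δ') t^2 x^3/24)`, and `(1+δ') t^2 ≤ t₁^2 - δ' t^2`.  So by
AN (for `t₁`) `ee s ∫_(x>0) ww s x exp (-((max (x-l) 0)^3/6)) ≤ C t^(-N) q^s exp (t₁^2 l^3/(6 (2-t₁)^2)) ∫_(x>0)
exp (-(δ' t^2 x^3/24)) dx`.  With the bounds of AJ for `PP` (also `s = 0`) the whole sum is at most
`C' (1+l) t^(-N) exp (-(l^3/6) + t₁^2 l^3/(6 (2-t₁)^2))`, `C'` depending on `t`, `δ'`.  Here `t^(-N) ≤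
exp (-((2+δ) g log t))` and, at `t₁ = t`, `-(l^3/6) + t^2 l^3/(6(2-t)^2) = -(2 g (1-t)(2-t)/t^2)`.  By continuity in
`t₁` choose `δ'` and then `δ` so small that the exponent is at most `-(g (2 It t - ε/2))`; `C' (1+l) ≤ e^(ε g/2)`
for `g` large. -/
def S_AO : Prop := S_AN →
  (∀ θ δ : ℝ, 0 < θ → 0 < δ → ∃ C q : ℝ, 0 < C ∧ 0 < q ∧ q < 1 ∧ ∀ s : ℕ, 1 ≤ s → ∀ x : ℝ, 0 < x →
    θ ^ s * (ee s * ww s x) ≤ C * q ^ s * Real.exp ((1 + δ) * θ ^ 2 * x ^ 3 / 24)) →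
  (∃ C : ℝ, 0 < C ∧ ∀ l : ℝ, 0 ≤ l → PP l 0 ≤ C * ((1 + l) * Real.exp (-(l ^ 3 / 6))) ∧
    ∀ s : ℕ, 1 ≤ s → PP l s ≤ C * ((1 + l) * Real.exp (-(l ^ 3 / 6)) *
      ∫ x in Set.Ioi (0 : ℝ), ww s x * Real.exp (-((max (x - l) 0) ^ 3 / 6)))) →
  ∀ t ε : ℝ, 0 < t → t < 1 → 0 < ε → ∃ δ : ℝ, 0 < δ ∧ ∃ g₀ : ℕ, ∀ g ≥ g₀,
    ∑ s ∈ range (⌊(2 + δ) * (g : ℝ)⌋₊ + 1), ee s * PP (lg t g) s ≤ Real.exp (-(g * (2 * It t - ε)))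

/-- PACKET AP (lower bound for the integral; from AA, AC).  Proof.  `S = 2 g`, `l = lg t g`, `x₀^3 = 12 S/t^2`
(`x₀ > 0`), so `l = x₀ (1 - t/2)` (cubes), `x₀ - l = t x₀/2 → ∞`.  For `g` large the interval `[x₀, x₀ + 1]` lies in
`x > max 0 (l + M)`.  On it, by AA, `ee s ww s x ≥ (C s^3 (x₀+1))⁻¹ (e x₀^3/(12 s))^(s/2)`, and `e x₀^3/(12 s) = e S/(t^2
s)`.  `FF x l ≤ FF x₀ l + C₂ x₀^2` (`FF (·) l` has derivative `(x-l)^2/2`), `FF x₀ l = (x₀^3/6)(t^3/8 + (1-t/2)^3) =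
S (2 - 3t + 3t^2/2)/t^2`.  So the right side is at least `(C s^3 (x₀+1))⁻¹ exp ((s/2)(1 - 2 log t - log (s/S)) -
S (2 - 3t + 3t^2/2)/t^2 - C₂ x₀^2)`.  At `s = S` the main part of the exponent is `- S It t`; for `S ≤ s ≤
(1 + δ/2) S + 1` it differs from this by at most `((δ/2) S + 1) (1 + 2 |log t|) + s log (1 + δ/2 + 1/S)`, at most
`ε g/2` for `δ` small and `g` large.  The other factors are at least `e^(-ε g/2)` for `g` large. -/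
def S_AP : Prop := S_AA → S_AC → ∀ t ε M : ℝ, 0 < t → 0 < ε → ∃ δ : ℝ, 0 < δ ∧ ∃ g₀ : ℕ, ∀ g ≥ g₀,
  ∀ s : ℕ, 2 * g ≤ s → (s : ℝ) ≤ (2 + δ) * g + 1 →
    Real.exp (-(g * (2 * It t + ε))) ≤
      ee s * ∫ x in Set.Ioi (max 0 (lg t g + M)), ww s x * Real.exp (-(FF x (lg t g)))

/-- PACKET AQ.  Proof.  `yt t = 3^(1/3) (2 t^(-2/3) - t^(1/3))`, both terms strictly decreasing on `(0, ∞)`; it tends
to `∞` at `0+` and to `-∞` at `∞`, continuous: intermediate value theorem.  `lg`: `(y g^(1/3))^3 = y^3 g`, `y^3 = 3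
(2-t)^3/t^2`.  `It t > 0` for `t ≠ 1`: `It 1 = 0`, `It' t = 1/t - 4/t^3 + 3/t^2 = (t^2 + 3 t - 4)/t^3 = (t-1)(t+4)/t^3`
(`It t = log t + 2/t^2 - 3/t + 1`). -/
def S_AQ : Prop := StrictAntiOn yt (Set.Ioi 0) ∧ (∀ y : ℝ, ∃ t : ℝ, 0 < t ∧ yt t = y) ∧
  (∀ (t : ℝ) (g : ℕ), 0 < t → lg t g ^ 3 = 3 * (2 - t) ^ 3 / t ^ 2 * g) ∧
  (∀ t : ℝ, 0 < t → t ≠ 1 → 0 < It t) ∧ yt 1 = 3 ^ ((1 : ℝ) / 3) ∧ yt 2 = 0

/-! ### The numbers of trees and unicyclic graphs -/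

/-- PACKET AR (generating function of trees).  Proof.  It is enough to prove `∑'_(k ≥ 1) k^(k-2) (τ e^(-τ))^k/k!
= τ - τ^2/2` for `0 ≤ τ < 1` (nonnegative terms; then let `τ → 1` in the finite sum).  (1) For `0 ≤ τ ≤ 1/4`: expand
`e^(-kτ) = ∑_j (-kτ)^j/j!`; the double series converges absolutely, since `∑_k k^(k-2) τ^k e^(kτ)/k! < ∞`
(`k^k/k! ≤ e^k`, `τ e^(1+τ) < 1`).  The coefficient of `τ^m`, `m ≥ 1`, is `(1/m!) ∑_(k=1)^m (m choose k) (-1)^(m-k)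
k^(k-2) k^(m-k)`, which is `1` for `m = 1`, `-1 + 1/2 = -1/2` for `m = 2`, and for `m ≥ 3` it is `(1/m!) ∑_(k=0)^m
(-1)^(m-k) (m choose k) k^(m-2) = 0` (an `m`-th difference of a polynomial of degree `m-2`).
(2) For `τ ∈ (0,1)`: `τ e^(-τ) < 1/e` and `G(z) = ∑_k k^(k-2) z^k/k!` is a power series with radius of
convergence at least `1/e`, so both sides are analytic functions of `τ` on `(0,1)`, equal on `(0,1/4)`, hence equal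
(identity theorem).  (Alternative to (2): with `T(z) = ∑ k^(k-1) z^k/k!` one has `T e^(-T) = z` near `0`, and so on
the whole interval by the same argument.) -/
def S_AR : Prop := ∀ (τ : ℝ) (n : ℕ), 0 ≤ τ → τ ≤ 1 →
  ∑ k ∈ Icc 1 n, (k : ℝ) ^ (k - 2) * (τ * Real.exp (-τ)) ^ k / (k.factorial : ℝ) ≤ τ - τ ^ 2 / 2

/-- PACKET AS (unicyclic graphs; from TB1, TB2).  Proof.  By TB1, TB2 `Nc k 0 ≤ (1/2) ∑_(s=3)^k (k choose s) (s-1)!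
s k^(k-s-1) = (1/2) ∑_(s=3)^k (k)_s k^(k-s-1)` (real numbers, `k ≥ 1`).  `(k)_s ≤ k^s exp (-s(s-1)/(2k)) ≤
k^s exp (-(s-1)^2/(2k))`, so `Nc k 0 ≤ (1/2) k^(k-1) (1 + ∑_(j ≥ 1) e^(-j^2/(2k))) ≤ (1/2) k^(k-1) (1 + √(πk/2))`
(comparison with `∫_0^∞ e^(-y^2/(2k)) dy`).  `k! ≥ √(2πk) (k/e)^k`.  Let `w = τ e^(1-τ) ≤ 1 - (1-τ)^2/2` (with
`d = 1 - τ`: `(1-d) e^d ≤ 1 - d^2/2`).  So `∑_k Nc k 0 (τ e^(-τ))^k/k! ≤ (1/2) ∑_k (1/k) (1 + √(πk/2))/√(2πk) w^k ≤ C +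
(1/4) ∑_k w^k/k = C + (1/4) log (1/(1-w)) ≤ C + (1/4) log (2/(1-τ)^2)`. -/
def S_AS : Prop := (∀ k : ℕ, Nc k 0 * k ≤ ∑ s ∈ Icc 1 k, k.choose s * Kc s 0 * (s * k ^ (k - s))) →
  (∀ s : ℕ, 2 * s * Kc s 0 ≤ s.factorial ∧ (s ≤ 2 → Kc s 0 = 0)) → ∃ C : ℝ, 0 < C ∧ ∀ (τ : ℝ) (n : ℕ), 0 ≤ τ → τ < 1 →
  ∑ k ∈ Icc 1 n, (Nc k 0 : ℝ) * (τ * Real.exp (-τ)) ^ k / (k.factorial : ℝ)
    ≤ 1 / 2 * Real.log (1 / (1 - τ)) + C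

end Pool.Agent.Helper96.AW
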