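import Mathlib
import Pool.Agent.Helper96.AW.GoalsB

namespace Pool.Agent.Helper96.AW.AQ

open Filter Topology

lemma yt_eq {t : ℝ} (ht : 0 < t) :
    yt t = (3 : ℝ) ^ ((1 : ℝ) / 3) * (2 * t ^ (-(2 : ℝ) / 3) - t ^ ((1 : ℝ) / 3)) := by
  unfold yt
  have h1 : t ^ (-(2 : ℝ) / 3) = (t ^ ((2 : ℝ) / 3))⁻¹ := by
    rw [← Real.rpow_neg ht.le]; norm_num
  have h2 : t ^ ((1 : ℝ) / 3) = t / t ^ ((2 : ℝ) / 3) := by
    rw [eq_div_iff (by positivity), ← Real.rpow_add ht]; norm_num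
  rw [h1, h2]
  have : t ^ ((2 : ℝ) / 3) ≠ 0 := by positivity
  field_simp

lemma anti : StrictAntiOn yt (Set.Ioi 0) := by
  intro a ha b hb hab
  have ha' : 0 < a := ha
  have hb' : 0 < b := hb
  rw [yt_eq ha', yt_eq hb']
  refine mul_lt_mul_of_pos_left ?_ (by positivity)
  have h1 : b ^ (-(2 : ℝ) / 3) < a ^ (-(2 : ℝ) / 3) :=
    Real.rpow_lt_rpow_of_neg ha' hab (by norm_num)
  have h2 : a ^ ((1 : ℝ) / 3) < b ^ ((1 : ℝ) / 3) := Real.rpow_lt_rpow ha'.le hab (by norm_num)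
  linarith

lemma surj (y : ℝ) : ∃ t : ℝ, 0 < t ∧ yt t = y := by
  have hc : 0 < (3 : ℝ) ^ ((1 : ℝ) / 3) := by positivity
  have cont : ContinuousOn yt (Set.Ioi 0) := by
    have : ContinuousOn (fun t : ℝ => (3 : ℝ) ^ ((1 : ℝ) / 3) *
        (2 * t ^ (-(2 : ℝ) / 3) - t ^ ((1 : ℝ) / 3))) (Set.Ioi 0) := by
      refine continuousOn_const.mul ((continuousOn_const.mul ?_).sub ?_)
      · exact fun x hx => (Real.continuousAt_rpow_const _ _ (Or.inl (ne_of_gt hx))).continuousWithinAt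
      · exact fun x hx => (Real.continuousAt_rpow_const _ _ (Or.inl (ne_of_gt hx))).continuousWithinAt
    exact this.congr fun x hx => yt_eq hx
  -- large values at 0+
  set c := (3 : ℝ) ^ ((1 : ℝ) / 3) with hcdef
  -- point with yt a >= y
  obtain ⟨a, ha, hay⟩ : ∃ a : ℝ, 0 < a ∧ y ≤ yt a := by
    have hlim : Tendsto (fun x : ℝ => x ^ ((2 : ℝ) / 3)) atTop atTop :=
      tendsto_rpow_atTop (by norm_num)
    obtain ⟨x, hx⟩ := (hlim.eventually_ge_atTop ((|y| / c + 1) / 2)).and (eventually_ge_atTop 1)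
      |>.exists
    refine ⟨x⁻¹, by have := hx.2; positivity, ?_⟩
    have hx0 : 0 < x := by linarith [hx.2]
    rw [yt_eq (by positivity)]
    have e1 : (x⁻¹) ^ (-(2 : ℝ) / 3) = x ^ ((2 : ℝ) / 3) := by
      rw [Real.inv_rpow hx0.le, ← Real.rpow_neg hx0.le]; norm_num
    have e2 : (x⁻¹) ^ ((1 : ℝ) / 3) ≤ 1 :=
      Real.rpow_le_one (by positivity) (inv_le_one_of_one_le₀ hx.2) (by norm_num)
    rw [e1]
    have h3 : |y| / c ≤ 2 * x ^ ((2 : ℝ) / 3) - (x⁻¹) ^ ((1 : ℝ) / 3) := by linarith [hx.1]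
    have h4 := mul_le_mul_of_nonneg_left h3 hc.le
    rw [mul_div_cancel₀ _ hc.ne'] at h4
    exact (le_abs_self y).trans h4
  obtain ⟨b, hb, hby⟩ : ∃ b : ℝ, 0 < b ∧ yt b ≤ y := by
    have hlim : Tendsto (fun x : ℝ => x ^ ((1 : ℝ) / 3)) atTop atTop :=
      tendsto_rpow_atTop (by norm_num)
    obtain ⟨x, hx⟩ := (hlim.eventually_ge_atTop (|y| / c + 2)).and (eventually_ge_atTop 1)
      |>.exists
    refine ⟨x, by linarith [hx.2], ?_⟩
    have hx0 : 0 < x := by linarith [hx.2]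
    rw [yt_eq hx0]
    have e2 : x ^ (-(2 : ℝ) / 3) ≤ 1 := Real.rpow_le_one_of_one_le_of_nonpos hx.2 (by norm_num)
    have h3 : 2 * x ^ (-(2 : ℝ) / 3) - x ^ ((1 : ℝ) / 3) ≤ -(|y| / c) := by linarith [hx.1]
    have h4 := mul_le_mul_of_nonneg_left h3 hc.le
    rw [mul_neg, mul_div_cancel₀ _ hc.ne'] at h4
    linarith [neg_abs_le y]
  have hs : Set.OrdConnected (Set.Ioi (0 : ℝ)) := Set.ordConnected_Ioi
  have := (isPreconnected_Ioi (a := (0 : ℝ))).intermediate_value hb ha cont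
  obtain ⟨t, ht, hty⟩ := this ⟨hby, hay⟩
  exact ⟨t, ht, hty⟩

lemma cube (t : ℝ) (g : ℕ) (ht : 0 < t) : lg t g ^ 3 = 3 * (2 - t) ^ 3 / t ^ 2 * g := by
  unfold lg yt
  have h3 : ((3 : ℝ) ^ ((1 : ℝ) / 3)) ^ 3 = 3 := by
    rw [← Real.rpow_natCast, ← Real.rpow_mul (by norm_num)]; norm_num
  have ht3 : (t ^ ((2 : ℝ) / 3)) ^ 3 = t ^ 2 := by
    rw [← Real.rpow_natCast, ← Real.rpow_mul ht.le, ← Real.rpow_natCast]; norm_num
  have hg : ((g : ℝ) ^ ((1 : ℝ) / 3)) ^ 3 = g := by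
    rw [← Real.rpow_natCast, ← Real.rpow_mul (Nat.cast_nonneg g)]; norm_num
  rw [mul_pow, div_pow, mul_pow, h3, ht3, hg]

lemma It_deriv {t : ℝ} (ht : 0 < t) : HasDerivAt It ((t - 1) * (t + 4) / t ^ 3) t := by
  have h1 := Real.hasDerivAt_log ht.ne'
  have h2 : HasDerivAt (fun t : ℝ => (1 - t) * (2 - t)) ((-1) * (2 - t) + (1 - t) * (-1)) t := by
    have a : HasDerivAt (fun t : ℝ => 1 - t) (-1) t := by
      simpa using (hasDerivAt_id t).const_sub 1
    have b : HasDerivAt (fun t : ℝ => 2 - t) (-1) t := by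
      simpa using (hasDerivAt_id t).const_sub 2
    exact a.mul b
  have h3 : HasDerivAt (fun t : ℝ => t ^ 2) (2 * t) t := by simpa using hasDerivAt_pow 2 t
  have h4 := h1.add (h2.div h3 (by positivity))
  have : HasDerivAt It (t⁻¹ + (((-1) * (2 - t) + (1 - t) * (-1)) * t ^ 2 -
      (1 - t) * (2 - t) * (2 * t)) / (t ^ 2) ^ 2) t := h4
  convert this using 1
  field_simp
  ring

lemma It_pos (t : ℝ) (ht : 0 < t) (h1 : t ≠ 1) : 0 < It t := by
  have I1 : It 1 = 0 := by unfold It; norm_num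
  rcases lt_or_gt_of_ne h1 with h | h
  · -- strictly anti on (0,1]
    have : StrictAntiOn It (Set.Ioc 0 1) := by
      apply strictAntiOn_of_deriv_neg (convex_Ioc 0 1)
      · exact fun x hx => (It_deriv hx.1).continuousAt.continuousWithinAt
      · intro x hx
        rw [interior_Ioc] at hx
        rw [(It_deriv hx.1).deriv]
        have h3 : (x - 1) * (x + 4) < 0 := mul_neg_of_neg_of_pos (by linarith [hx.2]) (by linarith [hx.1])
        exact div_neg_of_neg_of_pos h3 (pow_pos hx.1 3)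
    have := this ⟨ht, h.le⟩ ⟨one_pos, le_rfl⟩ h
    rwa [I1] at this
  · have : StrictMonoOn It (Set.Ici 1) := by
      apply strictMonoOn_of_deriv_pos (convex_Ici 1)
      · exact fun x hx => (It_deriv (lt_of_lt_of_le one_pos hx)).continuousAt.continuousWithinAt
      · intro x hx
        rw [interior_Ici] at hx
        have hx' : 1 < x := hx
        have hx0 : 0 < x := by linarith
        rw [(It_deriv hx0).deriv]
        have h3 : 0 < (x - 1) * (x + 4) := mul_pos (by linarith) (by linarith)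
        positivity
    have := this (Set.mem_Ici.2 le_rfl) (Set.mem_Ici.2 h.le) h
    rwa [I1] at this

theorem t : S_AQ := by
  refine ⟨anti, surj, cube, It_pos, ?_, ?_⟩
  · unfold yt; norm_num
  · unfold yt; norm_num

end Pool.Agent.Helper96.AW.AQ
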