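import Mathlib
import Pool.Agent.Helper96.AW.GoalsB

namespace Pool.Agent.Helper96.AW.AB

open Finset Pool.Agent.Helper26.AF Pool.Agent.Helper26.AL

lemma ee_zero : ee 0 = 1 := by
  unfold ee
  simp

lemma ee_pos (r : ℕ) : 0 < ee r := by
  unfold ee
  have : 0 < Nat.doubleFactorial (6 * r - 1) := Nat.doubleFactorial_pos _
  positivity

lemma df (r : ℕ) : Nat.doubleFactorial (6 * (r + 1) - 1) =
    (6 * r + 5) * ((6 * r + 3) * ((6 * r + 1) * Nat.doubleFactorial (6 * r - 1))) := by
  have h1 : 6 * (r + 1) - 1 = (6 * r + 3) + 2 := by omega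
  rw [h1, Nat.doubleFactorial_add_two, Nat.doubleFactorial_add_two (6 * r + 1)]
  rcases Nat.eq_zero_or_pos r with h | h
  · subst h; simp
  · have h2 : 6 * r + 1 = (6 * r - 1) + 2 := by omega
    have e : Nat.doubleFactorial (6 * r + 1) = (6 * r + 1) * Nat.doubleFactorial (6 * r - 1) := by
      rw [h2, Nat.doubleFactorial_add_two]
    rw [e]

lemma ee_succ (r : ℕ) : ee (r + 1) = ee r * ((36 * (r : ℝ) ^ 2 + 36 * r + 5) / (24 * (r + 1))) := by
  unfold ee
  rw [df]
  have h2 : (2 * (r + 1)).factorial = (2 * r + 2) * ((2 * r + 1) * (2 * r).factorial) := by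
    rw [show 2 * (r + 1) = 2 * r + 1 + 1 by ring, Nat.factorial_succ, Nat.factorial_succ]
  rw [h2]
  have h3 : ((2 * r).factorial : ℝ) ≠ 0 := by positivity
  push_cast
  have h4 : (2 * (r : ℝ) + 1) ≠ 0 := by positivity
  have h5 : ((r : ℝ) + 1) ≠ 0 := by positivity
  have h6 : (2 * (r : ℝ) + 2) ≠ 0 := by positivity
  field_simp
  ring

lemma rho_mono {a b : ℕ} (h : a ≤ b) :
    (36 * (a : ℝ) ^ 2 + 36 * a + 5) / (24 * (a + 1)) ≤ (36 * (b : ℝ) ^ 2 + 36 * b + 5) / (24 * (b + 1)) := by
  have hab : (a : ℝ) ≤ b := by exact_mod_cast h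
  have ha : (0 : ℝ) ≤ a := Nat.cast_nonneg a
  rw [div_le_div_iff₀ (by positivity) (by positivity)]
  nlinarith [mul_nonneg ha (sub_nonneg.2 hab), mul_nonneg (mul_nonneg ha ha) (sub_nonneg.2 hab),
    mul_nonneg (mul_nonneg ha (ha.trans hab)) (sub_nonneg.2 hab), sub_nonneg.2 hab]

lemma ee_mul_le {k r : ℕ} (h : k ≤ r) : ee (k + 1) * ee r ≤ ee k * ee (r + 1) := by
  rw [ee_succ, ee_succ r]
  have := rho_mono h
  have h1 := ee_pos k
  have h2 := ee_pos r
  have h3 := mul_le_mul_of_nonneg_left this (mul_pos h1 h2).le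
  nlinarith

lemma conv (r : ℕ) : ∑ i ∈ range (r + 1), ee i * dd (r - i) = if r = 0 then 1 else 0 := by
  have hc : PowerSeries.constantCoeff (PowerSeries.mk ee) ≠ 0 := by
    rw [← PowerSeries.coeff_zero_eq_constantCoeff_apply, PowerSeries.coeff_mk, ee_zero]
    exact one_ne_zero
  have h := PowerSeries.mul_inv_cancel (PowerSeries.mk ee) hc
  have h1 := congrArg (PowerSeries.coeff r) h
  rw [PowerSeries.coeff_mul, PowerSeries.coeff_one] at h1
  rw [← h1, Finset.Nat.sum_antidiagonal_eq_sum_range_succ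
    (fun i j => PowerSeries.coeff i (PowerSeries.mk ee) * PowerSeries.coeff j (PowerSeries.mk ee)⁻¹)]
  refine Finset.sum_congr rfl fun i _ => ?_
  rw [PowerSeries.coeff_mk]
  rfl

lemma dd_zero : dd 0 = 1 := by
  have := conv 0
  simpa [ee_zero] using this

/-- The convolution with the term `dd r` and the term `dd 0` separated. -/
lemma conv' (r : ℕ) : ee (r + 1) + dd (r + 1) + ∑ j ∈ range r, ee (r - j) * dd (j + 1) = 0 := by
  have h := conv (r + 1)
  rw [if_neg (Nat.succ_ne_zero r)] at h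
  rw [← Finset.sum_range_reflect] at h
  rw [Finset.sum_range_succ', Finset.sum_range_succ] at h
  have e1 : ee (r + 1 + 1 - 1 - 0) * dd (r + 1 - (r + 1 + 1 - 1 - 0)) = ee (r + 1) := by
    simp [dd_zero]
  have e2 : ee (r + 1 + 1 - 1 - (r + 1)) * dd (r + 1 - (r + 1 + 1 - 1 - (r + 1))) = dd (r + 1) := by
    simp [ee_zero]
  rw [e1, e2] at h
  have e3 : ∑ x ∈ range r, ee (r + 1 + 1 - 1 - (x + 1)) * dd (r + 1 - (r + 1 + 1 - 1 - (x + 1))) =
      ∑ j ∈ range r, ee (r - j) * dd (j + 1) := by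
    refine Finset.sum_congr rfl fun j hj => ?_
    have hj' := Finset.mem_range.1 hj
    congr 2
    · omega
    · omega
  rw [e3] at h
  linarith

lemma dd_nonpos : ∀ r : ℕ, dd (r + 1) ≤ 0 := by
  intro r
  induction r using Nat.strong_induction_on with
  | _ r ih =>
    rcases Nat.eq_zero_or_pos r with h | h
    · subst h
      have := conv' 0
      simp only [Finset.range_zero, Finset.sum_empty, add_zero] at this
      have h1 := ee_pos (0 + 1)
      linarith
    · obtain ⟨q, rfl⟩ : ∃ q, r = q + 1 := ⟨r - 1, by omega⟩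
      have h1 := conv' (q + 1)
      have h2 := conv' q
      -- sum over j < q+1 of ee (q - j) (-dd (j+1)) = ee (q+1)
      have h3 : ∑ j ∈ range (q + 1), ee (q - j) * -dd (j + 1) = ee (q + 1) := by
        rw [Finset.sum_range_succ, Nat.sub_self, ee_zero]
        have : ∑ j ∈ range q, ee (q - j) * -dd (j + 1) = -∑ j ∈ range q, ee (q - j) * dd (j + 1) := by
          rw [← Finset.sum_neg_distrib]
          exact Finset.sum_congr rfl fun j _ => by ring
        rw [this]
        linarith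
      have h4 : ∑ j ∈ range (q + 1), ee (q + 1 - j) * -dd (j + 1) * ee (q + 1) ≤
          ∑ j ∈ range (q + 1), ee (q - j) * -dd (j + 1) * ee (q + 1 + 1) := by
        refine Finset.sum_le_sum fun j hj => ?_
        have hj' := Finset.mem_range.1 hj
        have hd := ih j hj'
        have e : q + 1 - j = (q - j) + 1 := by omega
        rw [e]
        have := ee_mul_le (k := q - j) (r := q + 1) (by omega)
        have := mul_le_mul_of_nonneg_right this (neg_nonneg.2 hd)
        linarith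
      rw [← Finset.sum_mul, ← Finset.sum_mul, h3] at h4
      have h5 : ∑ j ∈ range (q + 1), ee (q + 1 - j) * -dd (j + 1) ≤ ee (q + 1 + 1) := by
        have hp := ee_pos (q + 1)
        have : (∑ j ∈ range (q + 1), ee (q + 1 - j) * -dd (j + 1)) * ee (q + 1) ≤
            ee (q + 1 + 1) * ee (q + 1) := by linarith
        exact le_of_mul_le_mul_right this hp
      have h6 : ∑ j ∈ range (q + 1), ee (q + 1 - j) * -dd (j + 1) =
          -∑ j ∈ range (q + 1), ee (q + 1 - j) * dd (j + 1) := by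
        rw [← Finset.sum_neg_distrib]
        exact Finset.sum_congr rfl fun j _ => by ring
      rw [h6] at h5
      linarith

lemma abs_conv (r : ℕ) : ∑ i ∈ range (r + 1 + 1), ee i * |dd (r + 1 - i)| = 2 * ee (r + 1) := by
  have h := conv (r + 1)
  rw [if_neg (Nat.succ_ne_zero r), Finset.sum_range_succ, Nat.sub_self, dd_zero] at h
  rw [Finset.sum_range_succ, Nat.sub_self, dd_zero, abs_one]
  have : ∑ i ∈ range (r + 1), ee i * |dd (r + 1 - i)| = -∑ i ∈ range (r + 1), ee i * dd (r + 1 - i) := by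
    rw [← Finset.sum_neg_distrib]
    refine Finset.sum_congr rfl fun i hi => ?_
    have hi' := Finset.mem_range.1 hi
    have e : r + 1 - i = (r - i) + 1 := by omega
    rw [e, abs_of_nonpos (dd_nonpos _)]
    ring
  rw [this]
  linarith

lemma dd_abs (t : ℕ) : |dd t| ≤ ee t := by
  rcases Nat.eq_zero_or_pos t with h | h
  · subst h; rw [dd_zero, ee_zero, abs_one]
  · obtain ⟨r, rfl⟩ : ∃ q, t = q + 1 := ⟨t - 1, by omega⟩
    have h1 := abs_conv r
    rw [Finset.sum_range_succ, Nat.sub_self, dd_zero, abs_one, Finset.sum_range_succ', ee_zero,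
      Nat.sub_zero] at h1
    have : 0 ≤ ∑ i ∈ range r, ee (i + 1) * |dd (r + 1 - (i + 1))| :=
      Finset.sum_nonneg fun i _ => mul_nonneg (ee_pos _).le (abs_nonneg _)
    linarith

theorem t : S_AB := by
  refine ⟨dd_zero, fun t ht => ?_, dd_abs, ee_pos, fun r hr => ?_⟩
  · obtain ⟨q, rfl⟩ : ∃ q, t = q + 1 := ⟨t - 1, by omega⟩
    exact dd_nonpos q
  · obtain ⟨q, rfl⟩ : ∃ q, r = q + 1 := ⟨r - 1, by omega⟩
    exact abs_conv q

end Pool.Agent.Helper96.AW.AB
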