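import Mathlib
import Pool.Agent.Helper96.AW.GoalsB

namespace Pool.Agent.Helper96.AW.AC

open Finset Filter Topology Pool.Agent.Helper26.AF Pool.Agent.Helper26.AL MeasureTheory

lemma FF_ge {x : ℝ} (l : ℝ) (hx : 0 ≤ x) : x ^ 3 / 24 ≤ FF x l := by
  unfold FF
  have : ((x - l) ^ 3 + l ^ 3) / 6 - x ^ 3 / 24 = x / 2 * (l - x / 2) ^ 2 := by ring
  have h2 : 0 ≤ x / 2 * (l - x / 2) ^ 2 := mul_nonneg (by linarith) (sq_nonneg _)
  linarith

lemma FF_mono {x l l' : ℝ} (hx : 0 ≤ x) (h : l ≤ l') (h' : l' ≤ 0) : FF x l' ≤ FF x l := by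
  unfold FF
  have : ((x - l) ^ 3 + l ^ 3) / 6 - ((x - l') ^ 3 + l' ^ 3) / 6 =
      x / 2 * ((l' - l) * (x - l - l')) := by ring
  have h2 : 0 ≤ x / 2 * ((l' - l) * (x - l - l')) :=
    mul_nonneg (by linarith) (mul_nonneg (by linarith) (by linarith))
  linarith

lemma FF_neg {x l : ℝ} (hx : 0 ≤ x) (h : l ≤ 0) : x ^ 3 / 6 + l ^ 2 * x / 2 ≤ FF x l := by
  unfold FF
  have : ((x - l) ^ 3 + l ^ 3) / 6 - (x ^ 3 / 6 + l ^ 2 * x / 2) = x ^ 2 * (-l) / 2 := by ring
  have h2 : 0 ≤ x ^ 2 * (-l) / 2 := by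
    have : 0 ≤ -l := by linarith
    positivity
  linarith

lemma cs_pos {s : ℕ} (hs : 1 ≤ s) :
    0 < (2 : ℝ) ^ (3 * (s : ℝ) / 2) * Real.Gamma (3 * (s : ℝ) / 2) := by
  have : (0 : ℝ) < 3 * s / 2 := by
    have : (1 : ℝ) ≤ s := by exact_mod_cast hs
    positivity
  exact mul_pos (by positivity) (Real.Gamma_pos_of_pos this)

lemma ww_nonneg {s : ℕ} (hs : 1 ≤ s) {x : ℝ} (hx : 0 ≤ x) : 0 ≤ ww s x := by
  unfold ww
  exact div_nonneg (by positivity) (cs_pos hs).le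

lemma exp_half {s : ℕ} (hs : 1 ≤ s) : (1 : ℝ) / 2 ≤ 3 * (s : ℝ) / 2 - 1 := by
  have : (1 : ℝ) ≤ s := by exact_mod_cast hs
  linarith

/-- Integrability of `x^a exp (-c x^3)` on `(0, ∞)`. -/
lemma int_rpow {a c : ℝ} (ha : -1 < a) (hc : 0 < c) :
    IntegrableOn (fun x : ℝ => x ^ a * Real.exp (-c * x ^ (3 : ℝ))) (Set.Ioi 0) :=
  integrableOn_rpow_mul_exp_neg_mul_rpow ha (by norm_num) hc

lemma meas (s : ℕ) (l : ℝ) :
    Measurable (fun x : ℝ => ww s x * Real.exp (-(FF x l))) := by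
  unfold ww FF
  fun_prop

lemma integ (l : ℝ) {s : ℕ} (hs : 1 ≤ s) :
    IntegrableOn (fun x => ww s x * Real.exp (-(FF x l))) (Set.Ioi 0) := by
  have h := (int_rpow (a := 3 * (s : ℝ) / 2 - 1) (c := 1 / 24) (by linarith [exp_half hs])
    (by norm_num)).div_const ((2 : ℝ) ^ (3 * (s : ℝ) / 2) * Real.Gamma (3 * (s : ℝ) / 2))
  refine Integrable.mono' h (meas s l).aestronglyMeasurable ?_
  refine (ae_restrict_iff' measurableSet_Ioi).2 (Eventually.of_forall fun x hx => ?_)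
  have hx' : (0 : ℝ) < x := hx
  rw [Real.norm_of_nonneg (mul_nonneg (ww_nonneg hs hx'.le) (Real.exp_nonneg _))]
  unfold ww
  rw [div_mul_eq_mul_div]
  refine div_le_div_of_nonneg_right ?_ (cs_pos hs).le
  refine mul_le_mul_of_nonneg_left (Real.exp_le_exp.2 ?_) (by positivity)
  have := FF_ge l hx'.le
  have e : x ^ (3 : ℝ) = x ^ 3 := by
    rw [← Real.rpow_natCast]; norm_num
  rw [e]
  linarith

lemma JJ_eq (l : ℝ) {s : ℕ} (hs : 1 ≤ s) :
    JJ l s = ∫ x in Set.Ioi (0 : ℝ), ww s x * Real.exp (-(FF x l)) := by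
  unfold JJ
  rw [if_neg (by omega)]
  rw [← integral_div]
  refine setIntegral_congr_fun measurableSet_Ioi fun x _ => ?_
  unfold ww FF
  rw [div_mul_eq_mul_div]
  congr 3
  ring

lemma mono' (l l' : ℝ) {s : ℕ} (hs : 1 ≤ s) (h : l ≤ l') (h' : l' ≤ 0) : JJ l s ≤ JJ l' s := by
  rw [JJ_eq l hs, JJ_eq l' hs]
  refine setIntegral_mono_on (integ l hs) (integ l' hs) measurableSet_Ioi fun x hx => ?_
  have hx' : (0 : ℝ) < x := hx
  refine mul_le_mul_of_nonneg_left (Real.exp_le_exp.2 ?_) (ww_nonneg hs hx'.le)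
  linarith [FF_mono hx'.le h h']

lemma lim {s : ℕ} (hs : 1 ≤ s) : Tendsto (fun l => JJ l s) atBot (𝓝 0) := by
  have e : (fun l => JJ l s) = fun l => ∫ x in Set.Ioi (0 : ℝ), ww s x * Real.exp (-(FF x l)) := by
    funext l
    exact JJ_eq l hs
  rw [e]
  have z : (∫ x in Set.Ioi (0 : ℝ), (0 : ℝ)) = 0 := by simp
  suffices hsuf : Tendsto (fun l : ℝ => ∫ x in Set.Ioi (0 : ℝ), ww s x * Real.exp (-(FF x l))) atBot
      (𝓝 (∫ x in Set.Ioi (0 : ℝ), (0 : ℝ))) by
    rwa [z] at hsuf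
  refine tendsto_integral_filter_of_dominated_convergence (l := (atBot : Filter ℝ))
    (μ := volume.restrict (Set.Ioi (0 : ℝ)))
    (F := fun (l : ℝ) (x : ℝ) => ww s x * Real.exp (-(FF x l))) (f := fun _ : ℝ => (0 : ℝ))
    (fun x => ww s x * Real.exp (-(FF x 0))) ?_ ?_ (integ 0 hs) ?_
  · exact Eventually.of_forall fun l => (meas s l).aestronglyMeasurable
  · filter_upwards [eventually_le_atBot (0 : ℝ)] with l hl
    refine (ae_restrict_iff' measurableSet_Ioi).2 (Eventually.of_forall fun x hx => ?_)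
    have hx' : (0 : ℝ) < x := hx
    rw [Real.norm_of_nonneg (mul_nonneg (ww_nonneg hs hx'.le) (Real.exp_nonneg _))]
    refine mul_le_mul_of_nonneg_left (Real.exp_le_exp.2 ?_) (ww_nonneg hs hx'.le)
    linarith [FF_mono hx'.le hl le_rfl]
  · refine (ae_restrict_iff' measurableSet_Ioi).2 (Eventually.of_forall fun x hx => ?_)
    have hx' : (0 : ℝ) < x := hx
    have h1 : Tendsto (fun l : ℝ => FF x l) atBot atTop := by
      have h2 : Tendsto (fun l : ℝ => l ^ 2 * (x / 2)) atBot atTop := by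
        refine Tendsto.atTop_mul_const (by positivity) ?_
        have : Tendsto (fun l : ℝ => (-l) ^ 2) atBot atTop :=
          (tendsto_pow_atTop (by norm_num)).comp tendsto_neg_atBot_atTop
        refine this.congr fun l => by ring
      refine tendsto_atTop_mono' _ ?_ h2
      filter_upwards [eventually_le_atBot (0 : ℝ)] with l hl
      have := FF_neg hx'.le hl
      have h3 : 0 ≤ x ^ 3 / 6 := by positivity
      linarith
    have h2 : Tendsto (fun l : ℝ => Real.exp (-(FF x l))) atBot (𝓝 0) :=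
      Real.tendsto_exp_neg_atTop_nhds_zero.comp h1
    simpa using h2.const_mul (ww s x)

theorem t : S_AC := by
  refine ⟨fun x l hx => FF_ge l hx, fun l s hs => JJ_eq l hs, fun l s hs => integ l hs, ?_,
    fun s hs => lim hs⟩
  intro l l' s h h'
  rcases Nat.eq_zero_or_pos s with h0 | h0
  · subst h0
    unfold JJ
    simp
  · exact mono' l l' h0 h h'

end Pool.Agent.Helper96.AW.AC
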