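import Mathlib
import Pool.Agent.Helper96.AW.AC
import Pool.Agent.Helper56.AL.CNV

namespace Pool.Agent.Helper96.AW.AD

open Finset Filter Topology Pool.Agent.Helper26.AF Pool.Agent.Helper26.AL MeasureTheory

/-- The density extended by zero. -/
noncomputable def W (s : ℕ) (x : ℝ) : ℝ :=
  (max x 0) ^ (3 * (s : ℝ) / 2 - 1) / (2 ^ (3 * (s : ℝ) / 2) * Real.Gamma (3 * (s : ℝ) / 2))

lemma W_pos (s : ℕ) {x : ℝ} (hx : 0 < x) : W s x = ww s x := by
  unfold W ww
  rw [max_eq_left hx.le]

lemma W_neg {s : ℕ} (hs : 1 ≤ s) {x : ℝ} (hx : x ≤ 0) : W s x = 0 := by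
  unfold W
  rw [max_eq_right hx, Real.zero_rpow (by linarith [AC.exp_half hs]), zero_div]

lemma W_nonneg {s : ℕ} (hs : 1 ≤ s) (x : ℝ) : 0 ≤ W s x := by
  rcases lt_or_ge 0 x with h | h
  · rw [W_pos s h]; exact AC.ww_nonneg hs h.le
  · rw [W_neg hs h]

lemma W_meas (s : ℕ) : Measurable (W s) := by
  unfold W; fun_prop

lemma FF_add (x z l : ℝ) : FF x l + FF z (l - x) = FF (x + z) l := by
  unfold FF; ring

lemma FF_meas (l : ℝ) : Measurable (fun x => FF x l) := by
  unfold FF; fun_prop

lemma full {f : ℝ → ℝ} (h : ∀ x ≤ 0, f x = 0) : ∫ x in Set.Ioi (0 : ℝ), f x = ∫ x, f x := by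
  refine setIntegral_eq_integral_of_forall_compl_eq_zero fun x hx => h x ?_
  simpa using hx

lemma JJ_full (l : ℝ) {s : ℕ} (hs : 1 ≤ s) : JJ l s = ∫ x, W s x * Real.exp (-(FF x l)) := by
  rw [AC.JJ_eq l hs, ← full (fun x hx => by rw [W_neg hs hx, zero_mul])]
  exact setIntegral_congr_fun measurableSet_Ioi fun x hx => by
    have hx' : (0 : ℝ) < x := hx
    rw [W_pos s hx']

/-- The cut off density. -/
noncomputable def V (s : ℕ) (x : ℝ) : ℝ := W s x * Real.exp (-(x ^ 3 / 24))

lemma V_int {s : ℕ} (hs : 1 ≤ s) : Integrable (V s) := by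
  have h : IntegrableOn (fun x => ww s x * Real.exp (-(x ^ 3 / 24))) (Set.Ioi 0) := by
    have h := (AC.int_rpow (a := 3 * (s : ℝ) / 2 - 1) (c := 1 / 24) (by linarith [AC.exp_half hs])
      (by norm_num)).div_const ((2 : ℝ) ^ (3 * (s : ℝ) / 2) * Real.Gamma (3 * (s : ℝ) / 2))
    refine h.congr ?_
    refine (ae_restrict_iff' measurableSet_Ioi).2 (Eventually.of_forall fun x hx => ?_)
    have e : x ^ (3 : ℝ) = x ^ 3 := by
      rw [← Real.rpow_natCast]; norm_num
    simp only
    rw [e]
    unfold ww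
    rw [div_mul_eq_mul_div]
    congr 3
    ring
  have h2 : IntegrableOn (V s) (Set.Ioi 0) := by
    refine h.congr ?_
    refine (ae_restrict_iff' measurableSet_Ioi).2 (Eventually.of_forall fun x hx => ?_)
    have hx' : (0 : ℝ) < x := hx
    simp only
    unfold V
    rw [W_pos s hx']
  rw [← integrableOn_univ]
  have h3 : IntegrableOn (V s) (Set.Iic 0) := by
    have h0 : IntegrableOn (fun _ : ℝ => (0 : ℝ)) (Set.Iic 0) := by simp [IntegrableOn]
    refine h0.congr ?_
    refine (ae_restrict_iff' measurableSet_Iic).2 (Eventually.of_forall fun x hx => ?_)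
    have hx' : x ≤ 0 := hx
    show (0 : ℝ) = V s x
    unfold V
    rw [W_neg hs hx', zero_mul]
  have := h3.union h2
  rwa [Set.Iic_union_Ioi] at this

lemma K_int (l : ℝ) {s t : ℕ} (hs : 1 ≤ s) (ht : 1 ≤ t) :
    Integrable (fun p : ℝ × ℝ => W s p.2 * W t (p.1 - p.2) * Real.exp (-(FF p.1 l)))
      (volume.prod volume) := by
  have h := (V_int hs).convolution_integrand (ContinuousLinearMap.mul ℝ ℝ) (V_int ht)
    (μ := volume) (ν := volume)
  refine h.mono' ?_ ?_
  · have : Measurable (fun p : ℝ × ℝ => W s p.2 * W t (p.1 - p.2) * Real.exp (-(FF p.1 l))) := by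
      refine (((W_meas s).comp measurable_snd).mul
        ((W_meas t).comp (measurable_fst.sub measurable_snd))).mul ?_
      exact (((FF_meas l).comp measurable_fst).neg).exp
    exact this.aestronglyMeasurable
  · refine Eventually.of_forall fun p => ?_
    obtain ⟨w, x⟩ := p
    simp only [ContinuousLinearMap.mul_apply']
    rw [Real.norm_of_nonneg (mul_nonneg (mul_nonneg (W_nonneg hs _) (W_nonneg ht _))
      (Real.exp_nonneg _))]
    rcases le_or_gt x 0 with hx | hx
    · unfold V
      rw [W_neg hs hx]; simp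
    rcases le_or_gt (w - x) 0 with hz | hz
    · unfold V
      rw [W_neg ht hz]; simp
    unfold V
    have h1 : Real.exp (-(FF w l)) ≤ Real.exp (-(x ^ 3 / 24)) * Real.exp (-((w - x) ^ 3 / 24)) := by
      rw [← Real.exp_add]
      refine Real.exp_le_exp.2 ?_
      have h2 := AC.FF_ge l (show 0 ≤ w by linarith)
      have h3 : x ^ 3 + (w - x) ^ 3 ≤ w ^ 3 := by
        have : w ^ 3 - (x ^ 3 + (w - x) ^ 3) = 3 * (x * (w - x) * w) := by ring
        have h4 : 0 ≤ x * (w - x) * w := by
          have : 0 < w := by linarith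
          positivity
        linarith
      linarith
    have h2 := mul_le_mul_of_nonneg_left h1 (mul_nonneg (W_nonneg hs x) (W_nonneg ht (w - x)))
    refine h2.trans (le_of_eq ?_)
    ring

lemma inner_beta {s t : ℕ} (hs : 1 ≤ s) (ht : 1 ≤ t) {w : ℝ} (hw : 0 < w) :
    ∫ x, W s x * W t (w - x) = ww (s + t) w := by
  rw [← full (fun x hx => by rw [W_neg hs hx, zero_mul])]
  set a : ℝ := 3 * (s : ℝ) / 2 with ha
  set b : ℝ := 3 * (t : ℝ) / 2 with hb
  have ha' : 1 / 2 ≤ a - 1 := AC.exp_half hs
  have hb' : 1 / 2 ≤ b - 1 := AC.exp_half ht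
  have hB := Pool.Agent.Helper56.AL.betaR a b (by linarith) (by linarith)
  have hsub := integral_comp_mul_left_Ioi (fun x => W s x * W t (w - x)) 0 hw
  rw [mul_zero] at hsub
  have e1 : ∫ x in Set.Ioi (0 : ℝ), W s (w * x) * W t (w - w * x) =
      w ^ (a - 1) * w ^ (b - 1) / ((2 ^ a * Real.Gamma a) * (2 ^ b * Real.Gamma b)) *
        ∫ x in Set.Ioi (0 : ℝ), x ^ (a - 1) * (max (1 - x) 0) ^ (b - 1) := by
    rw [← integral_const_mul]
    refine setIntegral_congr_fun measurableSet_Ioi fun x hx => ?_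
    have hx' : (0 : ℝ) < x := hx
    unfold W
    rw [← ha, ← hb]
    have m1 : max (w * x) 0 = w * x := max_eq_left (by positivity)
    have m2 : max (w - w * x) 0 = w * max (1 - x) 0 := by
      rw [mul_max_of_nonneg _ _ hw.le, mul_zero]
      congr 1
      ring
    rw [m1, m2, Real.mul_rpow hw.le hx'.le, Real.mul_rpow hw.le (le_max_right _ _)]
    ring
  have e2 : ∫ x in Set.Ioi (0 : ℝ), W s x * W t (w - x) =
      w * ∫ x in Set.Ioi (0 : ℝ), W s (w * x) * W t (w - w * x) := by
    rw [hsub, smul_eq_mul, mul_inv_cancel_left₀ hw.ne']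
  rw [e2, e1, hB]
  unfold ww
  have hab : 3 * ((s + t : ℕ) : ℝ) / 2 = a + b := by
    rw [ha, hb]; push_cast; ring
  rw [hab]
  have g1 : 0 < Real.Gamma a := Real.Gamma_pos_of_pos (by linarith)
  have g2 : 0 < Real.Gamma b := Real.Gamma_pos_of_pos (by linarith)
  have g3 : 0 < Real.Gamma (a + b) := Real.Gamma_pos_of_pos (by linarith)
  have e3 : w ^ (a + b - 1) = w * (w ^ (a - 1) * w ^ (b - 1)) := by
    rw [← Real.rpow_add hw, ← Real.rpow_one_add' hw.le (by linarith)]
    congr 1
    ring
  rw [e3, Real.rpow_add (by norm_num : (0 : ℝ) < 2)]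
  field_simp

theorem t : S_AD := by
  intro _ l s t hs ht
  have hK := K_int l hs ht
  -- integration over w for fixed x
  have hw : ∀ x : ℝ, ∫ w, W s x * W t (w - x) * Real.exp (-(FF w l)) =
      W s x * Real.exp (-(FF x l)) * JJ (l - x) t := by
    intro x
    rw [JJ_full (l - x) ht, ← integral_const_mul]
    rw [← integral_add_right_eq_self (fun w => W s x * W t (w - x) * Real.exp (-(FF w l))) x]
    refine integral_congr_ae (Eventually.of_forall fun z => ?_)
    simp only
    have e : FF (z + x) l = FF x l + FF z (l - x) := by rw [FF_add, add_comm]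
    rw [add_sub_cancel_right, e, neg_add, Real.exp_add]
    ring
  have hint : Integrable (fun x => W s x * Real.exp (-(FF x l)) * JJ (l - x) t) := by
    have h := hK.integral_prod_right
    refine h.congr (Eventually.of_forall fun x => ?_)
    exact hw x
  constructor
  · refine (hint.integrableOn (s := Set.Ioi 0)).congr ?_
    refine (ae_restrict_iff' measurableSet_Ioi).2 (Eventually.of_forall fun x hx => ?_)
    have hx' : (0 : ℝ) < x := hx
    simp only
    rw [W_pos s hx']
  · have h1 : ∫ x in Set.Ioi (0 : ℝ), ww s x * Real.exp (-(FF x l)) * JJ (l - x) t =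
        ∫ x, W s x * Real.exp (-(FF x l)) * JJ (l - x) t := by
      rw [← full (fun x hx => by rw [W_neg hs hx, zero_mul, zero_mul])]
      refine setIntegral_congr_fun measurableSet_Ioi fun x hx => ?_
      have hx' : (0 : ℝ) < x := hx
      rw [W_pos s hx']
    rw [h1]
    have h2 : ∫ x, W s x * Real.exp (-(FF x l)) * JJ (l - x) t =
        ∫ x, ∫ w, W s x * W t (w - x) * Real.exp (-(FF w l)) :=
      integral_congr_ae (Eventually.of_forall fun x => (hw x).symm)
    rw [h2, ← integral_integral_swap (f := fun w x => W s x * W t (w - x) * Real.exp (-(FF w l))) hK]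
    rw [JJ_full l (by omega)]
    refine integral_congr_ae (Eventually.of_forall fun w => ?_)
    simp only
    rw [integral_mul_const]
    congr 1
    rcases lt_or_ge 0 w with h | h
    · rw [inner_beta hs ht h, W_pos _ h]
    · rw [W_neg (by omega) h]
      symm
      have : ∀ x, W s x * W t (w - x) = 0 := by
        intro x
        rcases le_or_gt x 0 with hx | hx
        · rw [W_neg hs hx, zero_mul]
        · rw [W_neg ht (by linarith), mul_zero]
      simp [this]

end Pool.Agent.Helper96.AW.AD
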