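import Mathlib
import Pool.Agent.Helper96.AW.GoalsB

namespace Pool.Agent.Helper96.AW.AE

open Finset Filter Topology Pool.Agent.Helper26.AF Pool.Agent.Helper26.AL MeasureTheory

lemma maxb {A s : ℝ} (hA : 0 < A) (hs : 0 < s) :
    (A / s) ^ (s / 2) ≤ Real.exp (A / (2 * Real.exp 1)) := by
  have hy : 0 < A / s := by positivity
  rw [Real.rpow_def_of_pos hy]
  refine Real.exp_le_exp.2 ?_
  have h1 : Real.log (A / s) ≤ A / s / Real.exp 1 := by
    have h2 := Real.log_le_sub_one_of_pos (show 0 < A / s / Real.exp 1 by positivity)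
    rw [Real.log_div hy.ne' (Real.exp_ne_zero _), Real.log_exp] at h2
    linarith
  have h3 := mul_le_mul_of_nonneg_right h1 (by positivity : (0 : ℝ) ≤ s / 2)
  refine h3.trans (le_of_eq ?_)
  have := Real.exp_pos 1
  field_simp

/-- `s^3 r^s` is bounded. -/
lemma poly_bdd {r : ℝ} (h0 : 0 < r) (h1 : r < 1) : ∃ C : ℝ, 0 < C ∧ ∀ s : ℕ, (s : ℝ) ^ 3 * r ^ s ≤ C := by
  have ht := tendsto_pow_const_mul_const_pow_of_abs_lt_one 3 (show |r| < 1 by rwa [abs_of_pos h0])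
  obtain ⟨C, hC⟩ := ht.bddAbove_range
  refine ⟨max C 1, by positivity, fun s => (hC ⟨s, rfl⟩).trans (le_max_left _ _)⟩

theorem t : S_AE := by
  rintro ⟨C, hC, hA⟩ θ δ hθ hδ
  set q : ℝ := (1 + δ) ^ (-(1 : ℝ) / 4) with hq
  have hq0 : 0 < q := by positivity
  have hq1 : q < 1 := Real.rpow_lt_one_of_one_lt_of_neg (by linarith) (by norm_num)
  obtain ⟨C₂, hC₂, hb⟩ := poly_bdd hq0 hq1
  set K := Real.exp ((1 + δ) * θ ^ 2 / 24) with hK
  have hK1 : 1 ≤ K := Real.one_le_exp (by positivity)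
  refine ⟨C * C₂ * K, q, by positivity, hq0, hq1, fun s hs x hx => ?_⟩
  have hs0 : (0 : ℝ) < s := by exact_mod_cast hs
  have hs1 : (1 : ℝ) ≤ s := by exact_mod_cast hs
  have hqq : (1 + δ) ^ (-((s : ℝ) / 2)) = q ^ s * q ^ s := by
    rw [hq, ← Real.rpow_natCast, ← Real.rpow_mul (by positivity), ← Real.rpow_add (by positivity)]
    congr 1
    ring
  -- the key bound
  have key : θ ^ s * (x⁻¹ * (Real.exp 1 * x ^ 3 / (12 * s)) ^ ((s : ℝ) / 2)) ≤
      K * (q ^ s * q ^ s) * Real.exp ((1 + δ) * θ ^ 2 * x ^ 3 / 24) := by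
    rw [← hqq]
    have hθs : θ ^ s = (θ ^ 2) ^ ((s : ℝ) / 2) := by
      rw [← Real.rpow_natCast θ 2, ← Real.rpow_mul hθ.le, ← Real.rpow_natCast]
      congr 1
      push_cast
      ring
    rcases le_or_gt 1 x with h | h
    · have hA : 0 < Real.exp 1 * θ ^ 2 * (1 + δ) * x ^ 3 / 12 := by positivity
      have h1 := maxb hA hs0
      have e1 : (Real.exp 1 * θ ^ 2 * (1 + δ) * x ^ 3 / 12 / s) ^ ((s : ℝ) / 2) =
          (1 + δ) ^ ((s : ℝ) / 2) * (θ ^ s * (Real.exp 1 * x ^ 3 / (12 * s)) ^ ((s : ℝ) / 2)) := by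
        rw [hθs, ← Real.mul_rpow (by positivity) (by positivity),
          ← Real.mul_rpow (by positivity) (by positivity)]
        congr 1
        field_simp
      have e2 : Real.exp 1 * θ ^ 2 * (1 + δ) * x ^ 3 / 12 / (2 * Real.exp 1) =
          (1 + δ) * θ ^ 2 * x ^ 3 / 24 := by
        have := Real.exp_pos 1
        field_simp
        norm_num
      rw [e1, e2] at h1
      have h2 : θ ^ s * (Real.exp 1 * x ^ 3 / (12 * s)) ^ ((s : ℝ) / 2) ≤
          (1 + δ) ^ (-((s : ℝ) / 2)) * Real.exp ((1 + δ) * θ ^ 2 * x ^ 3 / 24) := by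
        rw [Real.rpow_neg (by positivity), inv_mul_eq_div, le_div_iff₀ (by positivity)]
        linarith
      have h3 : x⁻¹ ≤ 1 := inv_le_one_of_one_le₀ h
      have h4 : 0 ≤ θ ^ s * (Real.exp 1 * x ^ 3 / (12 * s)) ^ ((s : ℝ) / 2) := by positivity
      calc _ = x⁻¹ * (θ ^ s * (Real.exp 1 * x ^ 3 / (12 * s)) ^ ((s : ℝ) / 2)) := by ring
        _ ≤ 1 * (θ ^ s * (Real.exp 1 * x ^ 3 / (12 * s)) ^ ((s : ℝ) / 2)) :=
            mul_le_mul_of_nonneg_right h3 h4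
        _ ≤ (1 + δ) ^ (-((s : ℝ) / 2)) * Real.exp ((1 + δ) * θ ^ 2 * x ^ 3 / 24) := by linarith
        _ = 1 * ((1 + δ) ^ (-((s : ℝ) / 2)) * Real.exp ((1 + δ) * θ ^ 2 * x ^ 3 / 24)) := by ring
        _ ≤ K * ((1 + δ) ^ (-((s : ℝ) / 2)) * Real.exp ((1 + δ) * θ ^ 2 * x ^ 3 / 24)) :=
            mul_le_mul_of_nonneg_right hK1 (by positivity)
        _ = _ := by ring
    · have hA : 0 < Real.exp 1 * θ ^ 2 * (1 + δ) / 12 := by positivity
      have h1 := maxb hA hs0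
      have e1 : (Real.exp 1 * θ ^ 2 * (1 + δ) / 12 / s) ^ ((s : ℝ) / 2) =
          (1 + δ) ^ ((s : ℝ) / 2) * (θ ^ s * (Real.exp 1 / (12 * s)) ^ ((s : ℝ) / 2)) := by
        rw [hθs, ← Real.mul_rpow (by positivity) (by positivity),
          ← Real.mul_rpow (by positivity) (by positivity)]
        congr 1
        field_simp
      have e2 : Real.exp 1 * θ ^ 2 * (1 + δ) / 12 / (2 * Real.exp 1) = (1 + δ) * θ ^ 2 / 24 := by
        have := Real.exp_pos 1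
        field_simp
        norm_num
      rw [e1, e2, ← hK] at h1
      have h2 : θ ^ s * (Real.exp 1 / (12 * s)) ^ ((s : ℝ) / 2) ≤
          (1 + δ) ^ (-((s : ℝ) / 2)) * K := by
        rw [Real.rpow_neg (by positivity), inv_mul_eq_div, le_div_iff₀ (by positivity)]
        linarith
      have e3 : x⁻¹ * (Real.exp 1 * x ^ 3 / (12 * s)) ^ ((s : ℝ) / 2) =
          x ^ (3 * (s : ℝ) / 2 - 1) * (Real.exp 1 / (12 * s)) ^ ((s : ℝ) / 2) := by
        have e0 : Real.exp 1 * x ^ 3 / (12 * s) = x ^ 3 * (Real.exp 1 / (12 * s)) := by ring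
        have e4 : x ^ (3 * (s : ℝ) / 2 - 1) = x⁻¹ * x ^ (3 * (s : ℝ) / 2) := by
          rw [Real.rpow_sub hx, Real.rpow_one, div_eq_inv_mul]
        have e5 : (x ^ 3) ^ ((s : ℝ) / 2) = x ^ (3 * (s : ℝ) / 2) := by
          rw [← Real.rpow_natCast x 3, ← Real.rpow_mul hx.le]
          congr 1
          push_cast
          ring
        rw [e0, Real.mul_rpow (by positivity) (by positivity), e4, e5, mul_assoc]
      have h4 : x ^ (3 * (s : ℝ) / 2 - 1) ≤ 1 :=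
        Real.rpow_le_one hx.le h.le (by linarith)
      have h5 : 1 ≤ Real.exp ((1 + δ) * θ ^ 2 * x ^ 3 / 24) := Real.one_le_exp (by positivity)
      rw [e3]
      calc θ ^ s * (x ^ (3 * (s : ℝ) / 2 - 1) * (Real.exp 1 / (12 * s)) ^ ((s : ℝ) / 2))
          = x ^ (3 * (s : ℝ) / 2 - 1) * (θ ^ s * (Real.exp 1 / (12 * s)) ^ ((s : ℝ) / 2)) := by ring
        _ ≤ 1 * (θ ^ s * (Real.exp 1 / (12 * s)) ^ ((s : ℝ) / 2)) :=
            mul_le_mul_of_nonneg_right h4 (by positivity)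
        _ ≤ (1 + δ) ^ (-((s : ℝ) / 2)) * K := by linarith
        _ = (K * (1 + δ) ^ (-((s : ℝ) / 2))) * 1 := by ring
        _ ≤ (K * (1 + δ) ^ (-((s : ℝ) / 2))) * Real.exp ((1 + δ) * θ ^ 2 * x ^ 3 / 24) :=
            mul_le_mul_of_nonneg_left h5 (by positivity)
  have h1 := (hA s hs x hx).1
  have h2 := mul_le_mul_of_nonneg_left h1 (by positivity : (0 : ℝ) ≤ θ ^ s)
  refine h2.trans ?_
  calc θ ^ s * (C * (s : ℝ) ^ 3 * (x⁻¹ * (Real.exp 1 * x ^ 3 / (12 * s)) ^ ((s : ℝ) / 2)))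
      = C * (s : ℝ) ^ 3 * (θ ^ s * (x⁻¹ * (Real.exp 1 * x ^ 3 / (12 * s)) ^ ((s : ℝ) / 2))) := by ring
    _ ≤ C * (s : ℝ) ^ 3 * (K * (q ^ s * q ^ s) * Real.exp ((1 + δ) * θ ^ 2 * x ^ 3 / 24)) :=
        mul_le_mul_of_nonneg_left key (by positivity)
    _ = ((s : ℝ) ^ 3 * q ^ s) * (C * K * q ^ s * Real.exp ((1 + δ) * θ ^ 2 * x ^ 3 / 24)) := by ring
    _ ≤ C₂ * (C * K * q ^ s * Real.exp ((1 + δ) * θ ^ 2 * x ^ 3 / 24)) :=
        mul_le_mul_of_nonneg_right (hb s) (by positivity)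
    _ = _ := by ring

end Pool.Agent.Helper96.AW.AE
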