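import Mathlib
import Pool.Agent.Helper96.AW.AC
import Pool.Agent.Helper26.AL.Defs

namespace Pool.Agent.Helper96.AW.AF

open Finset Filter Topology Pool.Agent.Helper26.AF Pool.Agent.Helper26.AL MeasureTheory

lemma ee_nonneg (r : ℕ) : 0 ≤ ee r := by
  unfold ee
  positivity

/-- `exp (c x^3 - FF x l)` with `c < 1/6` is integrable. -/
lemma integ_exp (l : ℝ) : IntegrableOn
    (fun x : ℝ => Real.exp (x ^ 3 / 12) * Real.exp (-(FF x l))) (Set.Ioi 0) := by
  -- FF x l ≥ x^3/6 - |l| x^2/2 ≥ x^3/6 - x^3/24 - K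
  have hK : ∀ x : ℝ, 0 < x → x ^ 3 / 12 - FF x l ≤ -(1 / 24) * x ^ (3 : ℝ) + 32 * |l| ^ 3 := by
    intro x hx
    have e : x ^ (3 : ℝ) = x ^ 3 := by
      rw [← Real.rpow_natCast]; norm_num
    rw [e]
    unfold FF
    have e2 : ((x - l) ^ 3 + l ^ 3) / 6 = x ^ 3 / 6 - l * x ^ 2 / 2 + l ^ 2 * x / 2 := by ring
    rw [e2]
    have hl : l ≤ |l| := le_abs_self l
    have ha : 0 ≤ |l| := abs_nonneg l
    have h1 : l * x ^ 2 ≤ |l| * x ^ 2 := mul_le_mul_of_nonneg_right hl (sq_nonneg x)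
    have h2 : 0 ≤ l ^ 2 * x / 2 := by positivity
    -- |l| x^2 / 2 ≤ x^3/24 + 32 |l|^3
    have h3 : |l| * x ^ 2 / 2 ≤ x ^ 3 / 24 + 32 * |l| ^ 3 := by
      rcases le_or_gt (12 * |l|) x with h | h
      · have : 12 * |l| * x ^ 2 ≤ x * x ^ 2 := mul_le_mul_of_nonneg_right h (sq_nonneg x)
        have : 0 ≤ |l| ^ 3 := by positivity
        nlinarith
      · -- x < 12 |l| : use AM-GM: x^3/24 + 32 a^3 - a x^2/2 = ...
        have key : 0 ≤ (x - 8 * |l|) ^ 2 * (x + 4 * |l|) := mul_nonneg (sq_nonneg _) (by linarith)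
        nlinarith [key]
    linarith
  have h := (AC.int_rpow (a := 0) (c := 1 / 24) (by norm_num) (by norm_num)).const_mul
    (Real.exp (32 * |l| ^ 3))
  refine Integrable.mono' h ?_ ?_
  · have : Measurable (fun x : ℝ => Real.exp (x ^ 3 / 12) * Real.exp (-(FF x l))) := by
      unfold FF; fun_prop
    exact this.aestronglyMeasurable
  · refine (ae_restrict_iff' measurableSet_Ioi).2 (Eventually.of_forall fun x hx => ?_)
    have hx' : (0 : ℝ) < x := hx
    rw [Real.norm_of_nonneg (by positivity), ← Real.exp_add, Real.rpow_zero, one_mul, ← Real.exp_add]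
    refine Real.exp_le_exp.2 ?_
    have := hK x hx'
    linarith

theorem t : S_AF := by
  intro _ hE l
  obtain ⟨C, q, hC, hq0, hq1, h⟩ := hE 1 1 one_pos one_pos
  set I := ∫ x in Set.Ioi (0 : ℝ), Real.exp (x ^ 3 / 12) * Real.exp (-(FF x l)) with hI
  have hb : ∀ s : ℕ, 1 ≤ s → ee s * JJ l s ≤ C * I * q ^ s := by
    intro s hs
    rw [AC.JJ_eq l hs, ← integral_const_mul]
    have : C * I * q ^ s = ∫ x in Set.Ioi (0 : ℝ),
        (C * q ^ s) * (Real.exp (x ^ 3 / 12) * Real.exp (-(FF x l))) := by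
      rw [integral_const_mul, ← hI]; ring
    rw [this]
    refine setIntegral_mono_on ((AC.integ l hs).const_mul _) ((integ_exp l).const_mul _)
      measurableSet_Ioi fun x hx => ?_
    have hx' : (0 : ℝ) < x := hx
    have h1 := h s hs x hx'
    have e : (1 + 1) * (1 : ℝ) ^ 2 * x ^ 3 / 24 = x ^ 3 / 12 := by ring
    rw [one_pow, one_mul, e] at h1
    have := mul_le_mul_of_nonneg_right h1 (Real.exp_nonneg (-(FF x l)))
    linarith
  have hn : ∀ s : ℕ, 1 ≤ s → 0 ≤ ee s * JJ l s := by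
    intro s hs
    refine mul_nonneg (ee_nonneg s) ?_
    rw [AC.JJ_eq l hs]
    exact setIntegral_nonneg measurableSet_Ioi fun x hx =>
      mul_nonneg (AC.ww_nonneg hs (le_of_lt hx)) (Real.exp_nonneg _)
  rw [← summable_nat_add_iff 1]
  refine Summable.of_nonneg_of_le (fun s => hn (s + 1) (by omega)) (fun s => hb (s + 1) (by omega)) ?_
  have : Summable (fun s : ℕ => C * I * q ^ (s + 1)) :=
    ((summable_nat_add_iff 1).2 (summable_geometric_of_lt_one hq0.le hq1)).mul_left _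
  exact this

end Pool.Agent.Helper96.AW.AF
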