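import Mathlib
import Pool.Agent.Helper96.AW.AB
import Pool.Agent.Helper96.AW.AC
import Pool.Agent.Helper26.AL.All

namespace Pool.Agent.Helper96.AW.AG

open Finset Filter Topology Pool.Agent.Helper26.AF Pool.Agent.Helper26.AL MeasureTheory

lemma JJ_nonneg (l : ℝ) (s : ℕ) : 0 ≤ JJ l s := (okJCO s).2.1 l

lemma eg_bd (g s : ℕ) : 0 ≤ eg g s ∧ eg g s ≤ ee s := by
  constructor
  · unfold eg; positivity
  · rw [← okEEQ.1 s]
    unfold eg eo
    refine div_le_div_of_nonneg_right ?_ (by positivity)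
    have : Finite {κ : Equiv.Perm (KX s) // IsPair κ ∧ EX none κ} := inferInstance
    have h : Nat.card {κ : Equiv.Perm (KX s) // IsPair κ ∧ EmbX g κ} ≤
        Nat.card {κ : Equiv.Perm (KX s) // IsPair κ ∧ EX none κ} := by
      refine Nat.card_le_card_of_injective
        (fun κ => ⟨κ.1, κ.2.1, fun g' hg' => by cases hg'⟩) ?_
      intro a b hab
      exact Subtype.ext (congrArg (fun z => z.1) hab)
    exact_mod_cast h

lemma sum_abs (l : ℝ) (hs : Summable (fun s : ℕ => ee s * JJ l s)) :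
    Summable (fun p : ℕ × ℕ => ee p.1 * |dd p.2| * JJ l (p.1 + p.2)) := by
  rw [← (HasAntidiagonal.sigmaAntidiagonalEquivProd (A := ℕ)).summable_iff]
  have hn : ∀ x : (Σ n : ℕ, antidiagonal n), 0 ≤ ((fun p : ℕ × ℕ => ee p.1 * |dd p.2| * JJ l (p.1 + p.2)) ∘
      (HasAntidiagonal.sigmaAntidiagonalEquivProd (A := ℕ))) x := fun x =>
    mul_nonneg (mul_nonneg (AB.ee_pos _).le (abs_nonneg _)) (JJ_nonneg _ _)
  rw [summable_sigma_of_nonneg hn]
  refine ⟨fun n => Summable.of_finite, ?_⟩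
  have e : ∀ n : ℕ, (∑' y : antidiagonal n, ((fun p : ℕ × ℕ => ee p.1 * |dd p.2| * JJ l (p.1 + p.2)) ∘
      (HasAntidiagonal.sigmaAntidiagonalEquivProd (A := ℕ))) ⟨n, y⟩) =
      (∑ i ∈ range (n + 1), ee i * |dd (n - i)|) * JJ l n := by
    intro n
    rw [tsum_fintype]
    simp only [Function.comp_apply, HasAntidiagonal.sigmaAntidiagonalEquivProd_apply]
    rw [Finset.sum_coe_sort (antidiagonal n) (fun p => ee p.1 * |dd p.2| * JJ l (p.1 + p.2)),
      Finset.sum_mul, Finset.Nat.sum_antidiagonal_eq_sum_range_succ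
      (fun i j => ee i * |dd j| * JJ l (i + j))]
    refine Finset.sum_congr rfl fun i hi => ?_
    have hi' := Finset.mem_range.1 hi
    congr 2
    omega
  simp_rw [e]
  rw [← summable_nat_add_iff 1]
  have e2 : ∀ n : ℕ, (∑ i ∈ range (n + 1 + 1), ee i * |dd (n + 1 - i)|) * JJ l (n + 1) =
      2 * (ee (n + 1) * JJ l (n + 1)) := by
    intro n
    rw [AB.abs_conv]
    ring
  simp_rw [e2]
  exact ((summable_nat_add_iff 1).2 hs).mul_left 2

lemma sum_gen (l : ℝ) (hs : Summable (fun s : ℕ => ee s * JJ l s)) (e : ℕ → ℝ)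
    (he : ∀ i, |e i| ≤ ee i) :
    Summable (fun p : ℕ × ℕ => e p.1 * dd p.2 * JJ l (p.1 + p.2)) := by
  refine Summable.of_norm_bounded (sum_abs l hs) fun p => ?_
  rw [Real.norm_eq_abs, abs_mul, abs_mul, abs_of_nonneg (JJ_nonneg _ _)]
  exact mul_le_mul_of_nonneg_right (mul_le_mul_of_nonneg_right (he _) (abs_nonneg _)) (JJ_nonneg _ _)

lemma rearr (l : ℝ) (hs : Summable (fun s : ℕ => ee s * JJ l s)) (e : ℕ → ℝ)
    (he : ∀ i, |e i| ≤ ee i) :
    ∑' s : ℕ, e s * PP l s = ∑' r : ℕ, (∑ i ∈ range (r + 1), e i * dd (r - i)) * JJ l r := by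
  have h := sum_gen l hs e he
  have h1 : ∑' p : ℕ × ℕ, e p.1 * dd p.2 * JJ l (p.1 + p.2) = ∑' s : ℕ, e s * PP l s := by
    rw [h.tsum_prod]
    refine tsum_congr fun s => ?_
    unfold PP
    rw [← tsum_mul_left]
    refine tsum_congr fun t => ?_
    ring
  rw [← h1, ← (HasAntidiagonal.sigmaAntidiagonalEquivProd (A := ℕ)).tsum_eq]
  have h2 : Summable (fun x : (Σ n : ℕ, antidiagonal n) =>
      (fun p : ℕ × ℕ => e p.1 * dd p.2 * JJ l (p.1 + p.2))
        ((HasAntidiagonal.sigmaAntidiagonalEquivProd (A := ℕ)) x)) :=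
    ((HasAntidiagonal.sigmaAntidiagonalEquivProd (A := ℕ)).summable_iff (f := fun p : ℕ × ℕ =>
      e p.1 * dd p.2 * JJ l (p.1 + p.2))).2 h
  rw [h2.tsum_sigma' (fun n => Summable.of_finite)]
  refine tsum_congr fun n => ?_
  rw [tsum_fintype]
  simp only [HasAntidiagonal.sigmaAntidiagonalEquivProd_apply]
  rw [Finset.sum_coe_sort (antidiagonal n) (fun p => e p.1 * dd p.2 * JJ l (p.1 + p.2)),
    Finset.sum_mul, Finset.Nat.sum_antidiagonal_eq_sum_range_succ
    (fun i j => e i * dd j * JJ l (i + j))]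
  refine Finset.sum_congr rfl fun i hi => ?_
  have hi' := Finset.mem_range.1 hi
  congr 2
  omega

theorem t : S_AG := by
  intro _ hs
  have h4 : ∀ (l : ℝ) (s : ℕ), Summable (fun t : ℕ => |dd t| * JJ l (s + t)) := by
    intro l s
    have h := (sum_abs l (hs l)).prod_factor s
    have h2 := h.mul_left (ee s)⁻¹
    refine h2.congr fun t => ?_
    have := (AB.ee_pos s).ne'
    field_simp
  refine ⟨eg_bd, h4, fun l => ⟨?_, ?_⟩, fun g l => ?_⟩
  · have h := (sum_abs l (hs l)).prod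
    refine Summable.of_nonneg_of_le (fun s => mul_nonneg (AB.ee_pos _).le (abs_nonneg _))
      (fun s => ?_) h
    have e1 : (∑' t : ℕ, ee s * |dd t| * JJ l (s + t)) = ee s * ∑' t : ℕ, |dd t| * JJ l (s + t) := by
      rw [← tsum_mul_left]
      exact tsum_congr fun t => by ring
    rw [e1]
    refine mul_le_mul_of_nonneg_left ?_ (AB.ee_pos _).le
    unfold PP
    have h5 : Summable (fun t : ℕ => ‖dd t * JJ l (s + t)‖) := by
      refine (h4 l s).congr fun t => ?_
      rw [Real.norm_eq_abs, abs_mul, abs_of_nonneg (JJ_nonneg _ _)]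
    refine (norm_tsum_le_tsum_norm h5).trans (le_of_eq ?_)
    refine tsum_congr fun t => ?_
    rw [Real.norm_eq_abs, abs_mul, abs_of_nonneg (JJ_nonneg _ _)]
  · rw [rearr l (hs l) ee (fun i => by rw [abs_of_pos (AB.ee_pos i)])]
    rw [tsum_eq_single 0]
    · rw [AB.conv]
      simp [JJ]
    · intro r hr
      rw [AB.conv, if_neg hr, zero_mul]
  · rw [rearr l (hs l) (eg g) (fun i => by rw [abs_of_nonneg (eg_bd g i).1]; exact (eg_bd g i).2)]
    unfold pg
    refine tsum_congr fun r => ?_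
    congr 1
    unfold bb
    rw [PowerSeries.coeff_mul, Finset.Nat.sum_antidiagonal_eq_sum_range_succ
      (fun i j => PowerSeries.coeff i (PowerSeries.mk (eg g)) *
        PowerSeries.coeff j (PowerSeries.mk ee)⁻¹)]
    refine Finset.sum_congr rfl fun i _ => ?_
    rw [PowerSeries.coeff_mk]
    rfl

end Pool.Agent.Helper96.AW.AG
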