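import Mathlib
import Pool.Agent.Helper96.AW.AC
import Pool.Agent.Helper96.AW.AB
import Pool.Agent.Helper26.AL.All

namespace Pool.Agent.Helper96.AW.AH

open Finset Filter Topology Pool.Agent.Helper26.AF Pool.Agent.Helper26.AL MeasureTheory

lemma JJ_nonneg (l : ℝ) (s : ℕ) : 0 ≤ JJ l s := (okJCO s).2.1 l

lemma integrable_tsum {μ : Measure ℝ} {F : ℕ → ℝ → ℝ} (hm : ∀ i, Measurable (F i))
    (hi : ∀ i, Integrable (F i) μ) (hs : Summable fun i => ∫ x, ‖F i x‖ ∂μ) :
    Integrable (fun x => ∑' i, F i x) μ := by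
  refine ⟨(Measurable.tsum hm).aestronglyMeasurable, ?_⟩
  unfold HasFiniteIntegral
  calc ∫⁻ x, ‖∑' i, F i x‖ₑ ∂μ ≤ ∫⁻ x, ∑' i, ‖F i x‖ₑ ∂μ :=
        lintegral_mono fun x => enorm_tsum_le_tsum_enorm
    _ = ∑' i, ∫⁻ x, ‖F i x‖ₑ ∂μ := lintegral_tsum fun i => (hm i).enorm.aemeasurable
    _ = ∑' i, ENNReal.ofReal (∫ x, ‖F i x‖ ∂μ) := by
        congr 1
        funext i
        rw [ofReal_integral_norm_eq_lintegral_enorm (hi i)]
    _ = ENNReal.ofReal (∑' i, ∫ x, ‖F i x‖ ∂μ) :=
        (ENNReal.ofReal_tsum_of_nonneg (fun i => integral_nonneg fun x => norm_nonneg _) hs).symm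
    _ < ⊤ := ENNReal.ofReal_lt_top

theorem t : S_AH := by
  intro _ hD hS l s hs
  -- the functions
  set G : ℕ → ℝ → ℝ := fun t x => ww s x * Real.exp (-(FF x l)) * JJ (l - x) t with hG
  have hG0 : ∀ x, G 0 x = ww s x * Real.exp (-(FF x l)) := by
    intro x; simp [hG, JJ]
  have hGi : ∀ t, IntegrableOn (G t) (Set.Ioi 0) := by
    intro t
    rcases Nat.eq_zero_or_pos t with h | h
    · subst h
      refine (AC.integ l hs).congr (Eventually.of_forall fun x => (hG0 x).symm)
    · exact (hD l s t hs h).1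
  have hGe : ∀ t, JJ l (s + t) = ∫ x in Set.Ioi (0 : ℝ), G t x := by
    intro t
    rcases Nat.eq_zero_or_pos t with h | h
    · subst h
      rw [add_zero, AC.JJ_eq l hs]
      exact integral_congr_ae (Eventually.of_forall fun x => (hG0 x).symm)
    · exact (hD l s t hs h).2
  have hGm : ∀ t, Measurable (G t) := by
    intro t
    have h1 : Measurable (fun x : ℝ => JJ (l - x) t) :=
      ((okJCO t).1.comp (continuous_const.sub continuous_id)).measurable
    exact (AC.meas s l).mul h1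
  set F : ℕ → ℝ → ℝ := fun t x => dd t * G t x with hF
  have hFi : ∀ t, Integrable (F t) (volume.restrict (Set.Ioi 0)) := fun t => (hGi t).const_mul _
  have hFm : ∀ t, Measurable (F t) := fun t => (hGm t).const_mul _
  have hFn : ∀ t, ∫ x in Set.Ioi (0 : ℝ), ‖F t x‖ = |dd t| * JJ l (s + t) := by
    intro t
    rw [hGe t, ← integral_const_mul]
    refine setIntegral_congr_fun measurableSet_Ioi fun x hx => ?_
    have hx' : (0 : ℝ) < x := hx
    have : 0 ≤ G t x := mul_nonneg (mul_nonneg (AC.ww_nonneg hs hx'.le) (Real.exp_nonneg _))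
      (JJ_nonneg _ _)
    simp only [hF]
    rw [norm_mul, Real.norm_of_nonneg this, Real.norm_eq_abs]
  have hFs : Summable fun t => ∫ x in Set.Ioi (0 : ℝ), ‖F t x‖ := by
    simp_rw [hFn]
    exact hS l s
  have hsum := hasSum_integral_of_summable_integral_norm hFi hFs
  have hint := integrable_tsum hFm hFi hFs
  have hpt : ∀ x, ∑' t, F t x = ww s x * Real.exp (-(FF x l)) * p0 (l - x) := by
    intro x
    unfold p0
    rw [← tsum_mul_left]
    refine tsum_congr fun t => ?_
    simp only [hF, hG]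
    ring
  simp_rw [hpt] at hint hsum
  refine ⟨hint, ?_⟩
  rw [← hsum.tsum_eq]
  unfold PP
  refine tsum_congr fun t => ?_
  rw [hGe t, ← integral_const_mul]

end Pool.Agent.Helper96.AW.AH
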