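import Mathlib
import Pool.Agent.Helper96.AW.AB
import Pool.Agent.Helper96.AW.AC
import Pool.Agent.Helper26.AL.All

namespace Pool.Agent.Helper96.AW.AI

open Finset Filter Topology Pool.Agent.Helper26.AF Pool.Agent.Helper26.AL MeasureTheory

lemma JJ_nonneg (l : ℝ) (s : ℕ) : 0 ≤ JJ l s := (okJCO s).2.1 l

lemma wt_nonneg {n : ℕ} {p : ℝ} (h0 : 0 ≤ p) (h1 : p ≤ 1) (G : SimpleGraph (Fin n)) : 0 ≤ wt p G := by
  unfold wt
  have : 0 ≤ 1 - p := by linarith
  positivity

lemma wt_sum {n : ℕ} (p : ℝ) : ∑ G : SimpleGraph (Fin n), wt p G = 1 := by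
  have h := okCYL (Fin n) p ∅ ∅ (by simp) (by simp)
  unfold Pr EE at h
  simpa using h

lemma Pr_mem {n : ℕ} {p : ℝ} (h0 : 0 ≤ p) (h1 : p ≤ 1) (P : SimpleGraph (Fin n) → Prop) :
    0 ≤ Pr p P ∧ Pr p P ≤ 1 := by
  classical
  unfold Pr EE
  constructor
  · refine Finset.sum_nonneg fun G _ => mul_nonneg (wt_nonneg h0 h1 G) ?_
    beta_reduce
    split_ifs <;> norm_num
  · refine le_trans (Finset.sum_le_sum (g := fun G => wt p G) fun G _ => ?_) (wt_sum p).le
    beta_reduce
    have := wt_nonneg h0 h1 G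
    split_ifs <;> linarith

lemma pc_mem (l : ℝ) : ∀ᶠ n : ℕ in atTop, 0 < pc l n ∧ pc l n < 1 := by
  have h1 : Tendsto (fun n : ℕ => l / (n : ℝ) ^ ((1 : ℝ) / 3)) atTop (𝓝 0) :=
    tendsto_const_nhds.div_atTop
      ((tendsto_rpow_atTop (by norm_num)).comp tendsto_natCast_atTop_atTop)
  have h2 := h1.eventually (Ioo_mem_nhds (show (-(1 / 2) : ℝ) < 0 by norm_num)
    (show (0 : ℝ) < 1 / 2 by norm_num))
  filter_upwards [h2, eventually_ge_atTop 2] with n hn hn2
  have hn2' : (2 : ℝ) ≤ n := by exact_mod_cast hn2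
  unfold pc
  have a := hn.1
  have b := hn.2
  constructor
  · apply div_pos <;> linarith
  · rw [div_lt_one (by linarith)]
    linarith

theorem t : S_AI := by
  intro _ _ hs hN
  refine ⟨fun l => ?_, ?_⟩
  · constructor
    · refine ge_of_tendsto (hN l) ?_
      filter_upwards [pc_mem l] with n hn
      exact (Pr_mem hn.1.le hn.2.le _).1
    · refine le_of_tendsto (hN l) ?_
      filter_upwards [pc_mem l] with n hn
      exact (Pr_mem hn.1.le hn.2.le _).2
  · have h0 : Summable (fun s : ℕ => ee (s + 1) * JJ 0 (s + 1)) :=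
      (summable_nat_add_iff 1).2 (hs 0)
    have ht : Tendsto (fun l : ℝ => ∑' s : ℕ, ee (s + 1) * JJ l (s + 1)) atBot
        (𝓝 (∑' _s : ℕ, (0 : ℝ))) := by
      refine tendsto_tsum_of_dominated_convergence h0 (fun s => ?_) ?_
      · simpa using (AC.lim (s := s + 1) (by omega)).const_mul (ee (s + 1))
      · filter_upwards [eventually_le_atBot (0 : ℝ)] with l hl s
        rw [Real.norm_of_nonneg (mul_nonneg (AB.ee_pos _).le (JJ_nonneg _ _))]
        exact mul_le_mul_of_nonneg_left (AC.mono' l 0 (by omega) hl le_rfl) (AB.ee_pos _).le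
    rw [tsum_zero] at ht
    have he := ht.eventually (gt_mem_nhds (show (0 : ℝ) < 1 / 2 by norm_num))
    rw [eventually_atBot] at he
    obtain ⟨L, hL⟩ := he
    refine ⟨max 1 (-L), by positivity, fun l hl => ?_⟩
    have hl' : l ≤ L := by
      have := le_max_right 1 (-L)
      linarith
    have h1 := hL l hl'
    have hsum : Summable (fun r : ℕ => dd r * JJ l r) := by
      refine Summable.of_norm_bounded (hs l) fun r => ?_
      rw [Real.norm_eq_abs, abs_mul, abs_of_nonneg (JJ_nonneg _ _)]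
      exact mul_le_mul_of_nonneg_right (AB.dd_abs r) (JJ_nonneg _ _)
    unfold p0
    rw [← hsum.sum_add_tsum_nat_add 1]
    have e0 : ∑ i ∈ range 1, dd i * JJ l i = 1 := by
      simp [AB.dd_zero, JJ]
    rw [e0]
    have h2 : -∑' s : ℕ, ee (s + 1) * JJ l (s + 1) ≤ ∑' s : ℕ, dd (s + 1) * JJ l (s + 1) := by
      rw [← tsum_neg]
      refine Summable.tsum_le_tsum (fun s => ?_) ((summable_nat_add_iff 1).2 (hs l)).neg
        ((summable_nat_add_iff 1).2 hsum)
      have := (abs_le.1 (AB.dd_abs (s + 1))).1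
      have := mul_le_mul_of_nonneg_right this (JJ_nonneg l (s + 1))
      linarith
    linarith

end Pool.Agent.Helper96.AW.AI
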