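import Mathlib
import Pool.Agent.Helper96.AW.AC

namespace Pool.Agent.Helper96.AW.AJ

open Finset Filter Topology Pool.Agent.Helper26.AF Pool.Agent.Helper26.AL MeasureTheory

lemma integ_max {l : ℝ} (hl : 0 ≤ l) {s : ℕ} (hs : 1 ≤ s) :
    IntegrableOn (fun x => ww s x * Real.exp (-((max (x - l) 0) ^ 3 / 6))) (Set.Ioi 0) := by
  have h := ((AC.int_rpow (a := 3 * (s : ℝ) / 2 - 1) (c := 1 / 48) (by linarith [AC.exp_half hs])
    (by norm_num)).div_const ((2 : ℝ) ^ (3 * (s : ℝ) / 2) * Real.Gamma (3 * (s : ℝ) / 2))).const_mul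
    (Real.exp (l ^ 3 / 6))
  refine Integrable.mono' h ?_ ?_
  · have : Measurable (fun x : ℝ => ww s x * Real.exp (-((max (x - l) 0) ^ 3 / 6))) := by
      unfold ww; fun_prop
    exact this.aestronglyMeasurable
  · refine (ae_restrict_iff' measurableSet_Ioi).2 (Eventually.of_forall fun x hx => ?_)
    have hx' : (0 : ℝ) < x := hx
    rw [Real.norm_of_nonneg (mul_nonneg (AC.ww_nonneg hs hx'.le) (Real.exp_nonneg _))]
    unfold ww
    have e : x ^ (3 : ℝ) = x ^ 3 := by
      rw [← Real.rpow_natCast]; norm_num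
    rw [e]
    have key : x ^ 3 / 48 - l ^ 3 / 6 ≤ (max (x - l) 0) ^ 3 / 6 := by
      rcases le_or_gt (2 * l) x with h | h
      · have h1 : x / 2 ≤ max (x - l) 0 := le_max_of_le_left (by linarith)
        have h2 := pow_le_pow_left₀ (by positivity) h1 3
        have h3 : 0 ≤ l ^ 3 := by positivity
        nlinarith
      · have h1 : 0 ≤ (max (x - l) 0) ^ 3 := pow_nonneg (le_max_right _ _) 3
        have h2 := pow_lt_pow_left₀ h hx'.le (n := 3) (by norm_num)
        nlinarith
    have h2 : Real.exp (-((max (x - l) 0) ^ 3 / 6)) ≤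
        Real.exp (l ^ 3 / 6) * Real.exp (-(1 / 48) * x ^ 3) := by
      rw [← Real.exp_add]
      exact Real.exp_le_exp.2 (by linarith)
    have h3 : 0 ≤ x ^ (3 * (s : ℝ) / 2 - 1) /
        (2 ^ (3 * (s : ℝ) / 2) * Real.Gamma (3 * (s : ℝ) / 2)) :=
      div_nonneg (by positivity) (AC.cs_pos hs).le
    calc _ ≤ x ^ (3 * (s : ℝ) / 2 - 1) / (2 ^ (3 * (s : ℝ) / 2) * Real.Gamma (3 * (s : ℝ) / 2)) *
          (Real.exp (l ^ 3 / 6) * Real.exp (-(1 / 48) * x ^ 3)) := mul_le_mul_of_nonneg_left h2 h3
      _ = _ := by ring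

theorem t : S_AJ := by
  intro _ hH hI hZ
  obtain ⟨hp, M, hM, hMp⟩ := hI
  obtain ⟨C, hC, hZ⟩ := hZ
  have P0 : ∀ l : ℝ, PP l 0 = p0 l := by
    intro l; unfold PP p0; simp
  have J0 : ∀ l : ℝ, JJ l 0 = 1 := by
    intro l; unfold JJ; simp
  refine ⟨fun l s => ?_, ⟨M, hM, fun l s hs => ?_⟩, max C 1, by positivity, fun l hl => ⟨?_, fun s hs => ?_⟩⟩
  · rcases Nat.eq_zero_or_pos s with h | h
    · subst h
      rw [P0, J0]
      exact hp l
    · obtain ⟨hi, he⟩ := hH l s h
      constructor
      · rw [he]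
        exact setIntegral_nonneg measurableSet_Ioi fun x hx =>
          mul_nonneg (mul_nonneg (AC.ww_nonneg h (le_of_lt hx)) (Real.exp_nonneg _)) (hp _).1
      · rw [he, AC.JJ_eq l h]
        refine setIntegral_mono_on hi (AC.integ l h) measurableSet_Ioi fun x hx => ?_
        have h0 := mul_nonneg (AC.ww_nonneg h (le_of_lt hx)) (Real.exp_nonneg (-(FF x l)))
        calc _ ≤ ww s x * Real.exp (-(FF x l)) * 1 := mul_le_mul_of_nonneg_left (hp _).2 h0
          _ = _ := mul_one _
  · obtain ⟨hi, he⟩ := hH l s hs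
    rw [he, ← integral_const_mul]
    have hsub : Set.Ioi (max 0 (l + M)) ⊆ Set.Ioi (0 : ℝ) := Set.Ioi_subset_Ioi (le_max_left _ _)
    refine le_trans (b := ∫ x in Set.Ioi (max 0 (l + M)), ww s x * Real.exp (-(FF x l)) * p0 (l - x))
      ?_ ?_
    · refine setIntegral_mono_on (((AC.integ l hs).mono_set hsub).const_mul _) (hi.mono_set hsub)
        measurableSet_Ioi fun x hx => ?_
      have hx1 : 0 < x := lt_of_le_of_lt (le_max_left _ _) hx
      have hx2 : l + M < x := lt_of_le_of_lt (le_max_right _ _) hx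
      have h1 := hMp (l - x) (by linarith)
      have h0 := mul_nonneg (AC.ww_nonneg hs hx1.le) (Real.exp_nonneg (-(FF x l)))
      have := mul_le_mul_of_nonneg_left h1 h0
      linarith
    · refine setIntegral_mono_set hi ?_ (HasSubset.Subset.eventuallyLE hsub)
      refine (ae_restrict_iff' measurableSet_Ioi).2 (Eventually.of_forall fun x hx => ?_)
      exact mul_nonneg (mul_nonneg (AC.ww_nonneg hs (le_of_lt hx)) (Real.exp_nonneg _)) (hp _).1
  · rw [P0]
    refine (hZ l hl).trans ?_
    exact mul_le_mul_of_nonneg_right (le_max_left _ _) (by positivity)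
  · obtain ⟨hi, he⟩ := hH l s hs
    rw [he, ← integral_const_mul, ← integral_const_mul]
    refine setIntegral_mono_on hi (((integ_max hl hs).const_mul _).const_mul _) measurableSet_Ioi
      fun x hx => ?_
    have hx' : (0 : ℝ) < x := hx
    have hw := AC.ww_nonneg hs hx'.le
    suffices hsuf : Real.exp (-(FF x l)) * p0 (l - x) ≤ max C 1 * ((1 + l) * Real.exp (-(l ^ 3 / 6)) *
        Real.exp (-((max (x - l) 0) ^ 3 / 6))) by
      have := mul_le_mul_of_nonneg_left hsuf hw
      calc _ = ww s x * (Real.exp (-(FF x l)) * p0 (l - x)) := by ring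
        _ ≤ _ := this
        _ = _ := by ring
    rcases le_or_gt x l with h | h
    · have e : max (x - l) 0 = 0 := max_eq_right (by linarith)
      rw [e]
      have h1 := hZ (l - x) (by linarith)
      have h2 := mul_le_mul_of_nonneg_left h1 (Real.exp_nonneg (-(FF x l)))
      have e2 : Real.exp (-(FF x l)) * Real.exp (-((l - x) ^ 3 / 6)) = Real.exp (-(l ^ 3 / 6)) := by
        rw [← Real.exp_add]
        congr 1
        unfold FF
        ring
      calc _ ≤ Real.exp (-(FF x l)) * (C * ((1 + (l - x)) * Real.exp (-((l - x) ^ 3 / 6)))) := h2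
        _ = C * (1 + (l - x)) * (Real.exp (-(FF x l)) * Real.exp (-((l - x) ^ 3 / 6))) := by ring
        _ = C * (1 + (l - x)) * Real.exp (-(l ^ 3 / 6)) := by rw [e2]
        _ ≤ max C 1 * (1 + l) * Real.exp (-(l ^ 3 / 6)) := by
            refine mul_le_mul_of_nonneg_right ?_ (Real.exp_nonneg _)
            exact mul_le_mul (le_max_left _ _) (by linarith) (by linarith) (by positivity)
        _ = _ := by norm_num; ring
    · have e : max (x - l) 0 = x - l := max_eq_left (by linarith)
      rw [e]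
      have h1 := mul_le_mul_of_nonneg_left (hp (l - x)).2 (Real.exp_nonneg (-(FF x l)))
      have e2 : Real.exp (-(FF x l)) = Real.exp (-(l ^ 3 / 6)) * Real.exp (-((x - l) ^ 3 / 6)) := by
        rw [← Real.exp_add]
        congr 1
        unfold FF
        ring
      rw [mul_one] at h1
      refine h1.trans ?_
      rw [e2]
      have h3 : 1 ≤ max C 1 * (1 + l) := by
        have a := le_max_right C 1
        nlinarith
      have h4 : 0 ≤ Real.exp (-(l ^ 3 / 6)) * Real.exp (-((x - l) ^ 3 / 6)) := by positivity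
      nlinarith [mul_le_mul_of_nonneg_right h3 h4]

end Pool.Agent.Helper96.AW.AJ
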