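import Mathlib
import Pool.Agent.Helper96.AW.GoalsB

namespace Pool.Agent.Helper96.AW.AK

open Finset Filter Topology

/-- The exponent. -/
noncomputable def h (X s : ℝ) : ℝ := s / 2 * (1 + Real.log X - Real.log s)

lemma rp {X s : ℝ} (hX : 0 < X) (hs : 0 < s) :
    (Real.exp 1 * X / s) ^ (s / 2) = Real.exp (h X s) := by
  rw [Real.rpow_def_of_pos (by positivity), Real.log_div (by positivity) hs.ne',
    Real.log_mul (by positivity) hX.ne', Real.log_exp]
  unfold h
  congr 1
  ring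

lemma tangent {X s a : ℝ} (hs : 0 < s) (ha : 0 < a) :
    h X s ≤ h X a + (Real.log X - Real.log a) / 2 * (s - a) := by
  have h1 : Real.log (a / s) ≤ a / s - 1 := Real.log_le_sub_one_of_pos (by positivity)
  rw [Real.log_div ha.ne' hs.ne'] at h1
  have h2 : s / 2 * (Real.log a - Real.log s) ≤ s / 2 * (a / s - 1) :=
    mul_le_mul_of_nonneg_left h1 (by positivity)
  have h3 : s / 2 * (a / s - 1) = (a - s) / 2 := by field_simp
  unfold h
  nlinarith

/-- The ratio. -/
noncomputable def r : ℝ := Real.exp (-(Real.log 2 / 2))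

lemma r_pos : 0 < r := Real.exp_pos _

lemma r_lt : r < 1 := by
  unfold r
  rw [Real.exp_lt_one_iff]
  have := Real.log_pos (show (1 : ℝ) < 2 by norm_num)
  linarith

lemma sumA : Summable (fun j : ℕ => (1 + (j : ℝ)) ^ 3 * r ^ j) := by
  have h1 := summable_pow_mul_geometric_of_norm_lt_one (R := ℝ) 3 (r := r)
    (by rw [Real.norm_of_nonneg r_pos.le]; exact r_lt)
  have h2 := ((summable_nat_add_iff 1).2 h1).mul_left r⁻¹
  refine h2.congr fun j => ?_
  have := r_pos.ne'
  push_cast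
  rw [pow_succ]
  field_simp
  ring

/-- The constant. -/
noncomputable def A : ℝ := ∑' j : ℕ, (1 + (j : ℝ)) ^ 3 * r ^ j

lemma A_nonneg : 0 ≤ A := tsum_nonneg fun j => by have := r_pos.le; positivity

/-- The terms. -/
noncomputable def f (S : ℕ) (X : ℝ) (s : ℕ) : ℝ :=
  if S ≤ s then (s : ℝ) ^ 3 * (Real.exp 1 * X / s) ^ ((s : ℝ) / 2) else 0

lemma core {S : ℕ} {X m H : ℝ} (hS : 1 ≤ S) (hX : 0 < X) (hm : 1 ≤ m) (hXm : X ≤ m)
    (hSm : (S : ℝ) ≤ m) (hH : ∀ s : ℝ, (S : ℝ) ≤ s → h X s ≤ H) :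
    Summable (f S X) ∧ ∑' s, f S X s ≤ 81 * (1 + A) * m ^ 4 * Real.exp H := by
  have hm0 : 0 < m := by linarith
  have hS0 : (0 : ℝ) < S := by exact_mod_cast hS
  set N : ℕ := ⌈2 * m⌉₊ with hN
  have hN1 : 2 * m ≤ N := Nat.le_ceil _
  have hN2 : (N : ℝ) ≤ 3 * m := by
    have := Nat.ceil_lt_add_one (show 0 ≤ 2 * m by linarith)
    linarith
  have hSN : S ≤ N := by
    have : (S : ℝ) ≤ N := by linarith
    exact_mod_cast this
  have hl : Real.log X - Real.log (2 * m) ≤ -Real.log 2 := by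
    rw [Real.log_mul (by norm_num) hm0.ne']
    have := Real.log_le_log hX hXm
    linarith
  have hlog2 := Real.log_pos (show (1 : ℝ) < 2 by norm_num)
  have t1 : ∀ s ∈ range N, f S X s ≤ (N : ℝ) ^ 3 * Real.exp H := by
    intro s hs
    have hs' : s < N := Finset.mem_range.1 hs
    unfold f
    split_ifs with h1
    · have h1' : (S : ℝ) ≤ s := by exact_mod_cast h1
      rw [rp hX (by linarith)]
      have h2 : (s : ℝ) ≤ N := by exact_mod_cast hs'.le
      have h3 := Real.exp_le_exp.2 (hH s h1')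
      gcongr
    · positivity
  have t2 : ∀ j : ℕ, f S X (j + N) ≤ (N : ℝ) ^ 3 * Real.exp H * ((1 + (j : ℝ)) ^ 3 * r ^ j) := by
    intro j
    unfold f
    rw [if_pos (by omega)]
    have hN0 : (1 : ℝ) ≤ N := by linarith
    have hp : (0 : ℝ) < ((j + N : ℕ) : ℝ) := by push_cast; positivity
    rw [rp hX hp]
    have h1 : h X ((j + N : ℕ) : ℝ) ≤ H + -(Real.log 2 / 2) * j := by
      have h2 := tangent (X := X) hp (show 0 < 2 * m by linarith)
      have h3 := hH (2 * m) (by linarith)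
      have h4 : (j : ℝ) ≤ ((j + N : ℕ) : ℝ) - 2 * m := by push_cast; linarith
      have hj0 : (0 : ℝ) ≤ j := by positivity
      have h5 : (Real.log X - Real.log (2 * m)) / 2 * (((j + N : ℕ) : ℝ) - 2 * m) ≤
          -(Real.log 2 / 2) * j := by
        have h6 : (Real.log X - Real.log (2 * m)) / 2 * (((j + N : ℕ) : ℝ) - 2 * m) ≤
          -(Real.log 2 / 2) * (((j + N : ℕ) : ℝ) - 2 * m) :=
          mul_le_mul_of_nonneg_right (by linarith) (by linarith)
        nlinarith
      linarith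
    have h7 : Real.exp (h X ((j + N : ℕ) : ℝ)) ≤ Real.exp H * r ^ j := by
      refine (Real.exp_le_exp.2 h1).trans (le_of_eq ?_)
      rw [Real.exp_add]
      congr 1
      unfold r
      rw [← Real.exp_nat_mul]
      congr 1
      ring
    have h8 : ((j + N : ℕ) : ℝ) ≤ N * (1 + j) := by
      push_cast
      have hj0 : (0 : ℝ) ≤ j := by positivity
      nlinarith
    have hr := r_pos
    calc ((j + N : ℕ) : ℝ) ^ 3 * Real.exp (h X ((j + N : ℕ) : ℝ))
        ≤ (N * (1 + (j : ℝ))) ^ 3 * (Real.exp H * r ^ j) := by gcongr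
      _ = _ := by ring
  have hf0 : ∀ s, 0 ≤ f S X s := by
    intro s
    unfold f
    split_ifs with h1
    · positivity
    · exact le_rfl
  have hs2 : Summable (fun j => f S X (j + N)) :=
    Summable.of_nonneg_of_le (fun j => hf0 _) t2 (sumA.mul_left _)
  have hs : Summable (f S X) := (summable_nat_add_iff N).1 hs2
  refine ⟨hs, ?_⟩
  rw [← hs.sum_add_tsum_nat_add N]
  have b1 : ∑ s ∈ range N, f S X s ≤ (N : ℝ) ^ 4 * Real.exp H := by
    refine (Finset.sum_le_sum t1).trans (le_of_eq ?_)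
    rw [Finset.sum_const, Finset.card_range, nsmul_eq_mul]
    ring
  have b2 : ∑' j, f S X (j + N) ≤ (N : ℝ) ^ 3 * Real.exp H * A := by
    refine (hs2.tsum_le_tsum t2 (sumA.mul_left _)).trans (le_of_eq ?_)
    rw [tsum_mul_left]
    rfl
  have hN0 : (1 : ℝ) ≤ N := by linarith
  have hA := A_nonneg
  have b3 : (N : ℝ) ^ 3 ≤ (N : ℝ) ^ 4 := by
    rw [pow_succ (N : ℝ) 3]
    have : 0 ≤ (N : ℝ) ^ 3 := by positivity
    nlinarith
  have b4 : (N : ℝ) ^ 4 ≤ 81 * m ^ 4 := by
    calc (N : ℝ) ^ 4 ≤ (3 * m) ^ 4 := by gcongr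
      _ = _ := by ring
  calc ∑ s ∈ range N, f S X s + ∑' j, f S X (j + N)
      ≤ (N : ℝ) ^ 4 * Real.exp H + (N : ℝ) ^ 3 * Real.exp H * A := add_le_add b1 b2
    _ ≤ (N : ℝ) ^ 4 * Real.exp H + (N : ℝ) ^ 4 * Real.exp H * A := by gcongr
    _ = (N : ℝ) ^ 4 * ((1 + A) * Real.exp H) := by ring
    _ ≤ 81 * m ^ 4 * ((1 + A) * Real.exp H) := by gcongr
    _ = _ := by ring

theorem t : S_AK := by
  have hA := A_nonneg
  refine ⟨81 * (1 + A), by positivity, fun S X hS hX => ?_⟩
  have hS1 : (1 : ℝ) ≤ S := by exact_mod_cast hS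
  have hS0 : (0 : ℝ) < S := by linarith
  rcases le_or_gt X S with hXS | hXS
  · have h1 := core (m := S) (H := h X S) hS hX hS1 hXS le_rfl (fun s hs => by
      have h2 := tangent (X := X) (show 0 < s by linarith) hS0
      have h3 := Real.log_le_log hX hXS
      have h4 : (Real.log X - Real.log S) / 2 * (s - S) ≤ 0 :=
        mul_nonpos_of_nonpos_of_nonneg (by linarith) (by linarith)
      linarith)
    rw [← rp hX hS0] at h1
    exact ⟨h1.1, fun _ => h1.2, fun h => absurd hXS (not_le.2 h)⟩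
  · have h1 := core (m := X) (H := X / 2) hS hX (by linarith) le_rfl hXS.le (fun s hs => by
      have h2 := tangent (X := X) (show 0 < s by linarith) hX
      have h3 : h X X = X / 2 := by unfold h; ring
      rw [sub_self, zero_div, zero_mul, add_zero, h3] at h2
      exact h2)
    exact ⟨h1.1, fun h => absurd hXS (not_lt.2 h), fun _ => h1.2⟩

end Pool.Agent.Helper96.AW.AK
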