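import Mathlib
import Pool.Agent.Helper96.AW.GoalsB

namespace Pool.Agent.Helper96.AW.AL

lemma cube_inj {a b : ℝ} (h : a ^ 3 = b ^ 3) : a = b := by
  have : Odd 3 := by decide
  exact this.pow_injective h

lemma cube_root {a : ℝ} (ha : 0 < a) : ∃ x : ℝ, 0 < x ∧ x ^ 3 = a := by
  refine ⟨a ^ ((1 : ℝ) / 3), by positivity, ?_⟩
  rw [← Real.rpow_natCast, ← Real.rpow_mul ha.le]
  norm_num

lemma part1 {t S l x : ℝ} (ht : 1 < t) (hS : 0 < S) (hl : l ^ 3 = 3 / 2 * S * (2 - t) ^ 3 / t ^ 2)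
    (hx : 0 < x) : S / 2 * (1 + Real.log (x ^ 3 / (12 * S))) - FF x l ≤ -(S * It t) := by
  have ht0 : 0 < t := by linarith
  obtain ⟨x₀, hx0, h0⟩ := cube_root (a := 12 * S / t ^ 2) (by positivity)
  have hl' : l = x₀ * (1 - t / 2) := by
    apply cube_inj
    rw [hl]
    have : (x₀ * (1 - t / 2)) ^ 3 = x₀ ^ 3 * (2 - t) ^ 3 / 8 := by ring
    rw [this, h0]
    field_simp
    ring
  set v := x / x₀ with hv
  have hvp : 0 < v := by positivity
  have hxv : x = x₀ * v := by rw [hv]; field_simp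
  have hlog : Real.log (x ^ 3 / (12 * S)) = 3 * Real.log v - 2 * Real.log t := by
    have : x ^ 3 / (12 * S) = v ^ 3 / t ^ 2 := by
      rw [hxv, mul_pow, h0]
      field_simp
    rw [this, Real.log_div (by positivity) (by positivity), Real.log_pow, Real.log_pow]
    push_cast
    ring
  have hFF : FF x l = (12 * S / t ^ 2) / 6 * ((v - 1 + t / 2) ^ 3 + (1 - t / 2) ^ 3) := by
    unfold FF
    rw [hxv, hl', ← h0]
    ring
  rw [hlog, hFF]
  unfold It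
  have hlv : Real.log v ≤ v - 1 := Real.log_le_sub_one_of_pos hvp
  have hc : 0 ≤ (v - 1) ^ 2 * (v - 1 + 3 * t / 2) :=
    mul_nonneg (sq_nonneg _) (by linarith)
  have key : -(S * (Real.log t + (1 - t) * (2 - t) / t ^ 2)) -
      (S / 2 * (1 + (3 * Real.log v - 2 * Real.log t)) -
        (12 * S / t ^ 2) / 6 * ((v - 1 + t / 2) ^ 3 + (1 - t / 2) ^ 3)) =
      3 * S / 2 * (v - 1 - Real.log v) + 2 * S / t ^ 2 * ((v - 1) ^ 2 * (v - 1 + 3 * t / 2)) := by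
    field_simp
    ring
  have : 0 ≤ 3 * S / 2 * (v - 1 - Real.log v) +
      2 * S / t ^ 2 * ((v - 1) ^ 2 * (v - 1 + 3 * t / 2)) :=
    add_nonneg (mul_nonneg (by positivity) (by linarith)) (mul_nonneg (by positivity) hc)
  linarith

lemma cub_diff {κ l x₁ x : ℝ} (hκ0 : 0 ≤ κ) (hκ1 : κ < 1) (hx1 : 0 < x₁) (hl : l ≤ κ * x₁ / 2)
    (hx : x₁ ≤ x) : (1 - κ / 2) ^ 2 * (x ^ 3 - x₁ ^ 3) ≤ (x - l) ^ 3 - (x₁ - l) ^ 3 := by
  set q := 1 - κ / 2 with hq
  have hq0 : 0 < q := by linarith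
  have hq1 : q ≤ 1 := by linarith
  have a1 : q * x₁ ≤ x₁ - l := by rw [hq]; nlinarith
  have a2 : q * x ≤ x - l := by rw [hq]; nlinarith
  have b1 : 0 ≤ q * x₁ := by positivity
  have b2 : 0 ≤ q * x := by nlinarith
  have e1 : (x - l) ^ 3 - (x₁ - l) ^ 3 =
      (x - x₁) * ((x - l) ^ 2 + (x - l) * (x₁ - l) + (x₁ - l) ^ 2) := by ring
  have e2 : q ^ 2 * (x ^ 3 - x₁ ^ 3) =
      (x - x₁) * ((q * x) ^ 2 + (q * x) * (q * x₁) + (q * x₁) ^ 2) := by ring
  rw [e1, e2]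
  refine mul_le_mul_of_nonneg_left ?_ (by linarith)
  have c1 : (q * x) ^ 2 ≤ (x - l) ^ 2 := pow_le_pow_left₀ b2 a2 2
  have c2 : (q * x₁) ^ 2 ≤ (x₁ - l) ^ 2 := pow_le_pow_left₀ b1 a1 2
  have c3 : (q * x) * (q * x₁) ≤ (x - l) * (x₁ - l) := mul_le_mul a2 a1 b1 (b2.trans a2)
  linarith

theorem t : S_AL := by
  intro t ht
  have ht0 : 0 < t := by linarith
  -- κ = max 0 ((2-t)/t^(2/3))
  set r := t ^ ((2 : ℝ) / 3) with hr
  have hr1 : 1 < r := Real.one_lt_rpow ht (by norm_num)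
  have hr3 : r ^ 3 = t ^ 2 := by
    rw [hr, ← Real.rpow_natCast, ← Real.rpow_mul ht0.le, ← Real.rpow_natCast]
    norm_num
  set κ := max 0 ((2 - t) / r) with hκ
  have hκ0 : 0 ≤ κ := le_max_left _ _
  have hκ1 : κ < 1 := by
    refine max_lt one_pos ?_
    rw [div_lt_one (by linarith)]
    linarith
  refine ⟨((2 - κ) ^ 2 - 1) / 24, by nlinarith, fun S l hS hl x hx => ⟨part1 ht hS hl hx, fun h12 => ?_⟩⟩
  obtain ⟨x₁, hx1, h1⟩ := cube_root (a := 12 * S) (by positivity)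
  have hxx : x₁ ≤ x := by
    by_contra hcon
    push Not at hcon
    have := pow_lt_pow_left₀ hcon hx.le (n := 3) (by norm_num)
    linarith
  have hl1 : l = x₁ * (2 - t) / (2 * r) := by
    apply cube_inj
    rw [hl, div_pow, mul_pow, mul_pow, h1, hr3]
    field_simp
    ring
  have hl2 : l ≤ κ * x₁ / 2 := by
    have : (2 - t) / r ≤ κ := le_max_right _ _
    have h3 : l = (2 - t) / r * x₁ / 2 := by rw [hl1]; field_simp
    rw [h3]
    nlinarith
  have c := cub_diff hκ0 hκ1 hx1 hl2 hxx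
  have p := part1 ht hS hl hx1
  have e : Real.log (x₁ ^ 3 / (12 * S)) = 0 := by
    rw [h1, div_self (by positivity), Real.log_one]
  rw [e] at p
  unfold FF at p ⊢
  nlinarith

end Pool.Agent.Helper96.AW.AL
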