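import Mathlib
import Pool.Agent.Helper96.AW.AC
import Pool.Agent.Helper96.AW.AQ
import Pool.Agent.Helper96.AW.AK

namespace Pool.Agent.Helper96.AW.AP

open Finset Filter Topology Pool.Agent.Helper26.AF Pool.Agent.Helper26.AL MeasureTheory Asymptotics

lemma rpo {a : ℝ} (ha : a < 1) : (fun x : ℝ => x ^ a) =o[atTop] (fun x : ℝ => x) := by
  refine (isLittleO_iff_tendsto' ?_).2 ?_
  · filter_upwards [eventually_gt_atTop 0] with x hx h
    exact absurd h hx.ne'
  · refine (tendsto_rpow_neg_atTop (show 0 < 1 - a by linarith)).congr' ?_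
    filter_upwards [eventually_gt_atTop 0] with x hx
    rw [show -(1 - a) = a - 1 by ring, Real.rpow_sub_one hx.ne']

lemma ev (A B D ε : ℝ) (hε : 0 < ε) : ∀ᶠ g : ℕ in atTop,
    A + 4 * Real.log g + B * (g : ℝ) ^ ((2 : ℝ) / 3) + D * (g : ℝ) ^ ((1 : ℝ) / 3) ≤ ε * g := by
  have h1 : (fun x : ℝ => 4 * Real.log x) =o[atTop] (fun x : ℝ => x) :=
    (Real.isLittleO_log_id_atTop).const_mul_left 4
  have h2 : (fun x : ℝ => B * x ^ ((2 : ℝ) / 3)) =o[atTop] (fun x : ℝ => x) :=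
    (rpo (show (2 : ℝ) / 3 < 1 by norm_num)).const_mul_left B
  have h3 : (fun x : ℝ => D * x ^ ((1 : ℝ) / 3)) =o[atTop] (fun x : ℝ => x) :=
    (rpo (show (1 : ℝ) / 3 < 1 by norm_num)).const_mul_left D
  have h4 : (fun _ : ℝ => A) =o[atTop] (fun x : ℝ => x) := isLittleO_const_id_atTop A
  have h5 := (((h4.add h1).add h2).add h3).def hε
  have h6 := (h5.and (eventually_ge_atTop (0 : ℝ)))
  have h7 := tendsto_natCast_atTop_atTop (R := ℝ) |>.eventually h6
  filter_upwards [h7] with g hg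
  obtain ⟨a, b⟩ := hg
  rw [Real.norm_of_nonneg b] at a
  exact (le_abs_self _).trans a

lemma cube_inj {a b : ℝ} (h : a ^ 3 = b ^ 3) : a = b :=
  (Odd.strictMono_pow (by decide : Odd 3)).injective h

lemma rt {a : ℝ} (ha : 0 ≤ a) : (a ^ ((1 : ℝ) / 3)) ^ 3 = a := by
  rw [← Real.rpow_natCast, ← Real.rpow_mul ha]
  norm_num

lemma x0 (t : ℝ) (ht : 0 < t) (g : ℕ) : ((24 / t ^ 2) ^ ((1 : ℝ) / 3) * (g : ℝ) ^ ((1 : ℝ) / 3)) ^ 3 =
    24 * g / t ^ 2 := by
  rw [mul_pow, rt (by positivity), rt (by positivity)]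
  ring

theorem t : S_AP := by
  intro hAA hAC t ε M ht hε
  obtain ⟨C, hC, hAA⟩ := hAA
  obtain ⟨_, _, hint, _, _⟩ := hAC
  obtain ⟨_, _, hlg, _, _, _⟩ := AQ.t
  set K : ℝ := |1 - 2 * Real.log t| + 2 with hK
  have hK0 : 0 < K := by positivity
  set c : ℝ := (24 / t ^ 2) ^ ((1 : ℝ) / 3) with hc
  have hc0 : 0 < c := by positivity
  set δ : ℝ := min 1 (ε / K) with hδ
  have hδ0 : 0 < δ := by positivity
  have hδ1 : δ ≤ 1 := min_le_left _ _
  have hδ2 : δ * K ≤ ε := by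
    have := min_le_right 1 (ε / K)
    rwa [← hδ, le_div_iff₀ hK0] at this
  refine ⟨δ, hδ0, ?_⟩
  -- conditions on g
  have e1 := ev (K / 2 + Real.log (C * 64 * (c + 1)) + 1) (t ^ 2 * c ^ 2 / 8) (t * c / 4) (ε / 2)
    (by positivity)
  have e2 : ∀ᶠ g : ℕ in atTop, M ≤ t / 2 * (c * (g : ℝ) ^ ((1 : ℝ) / 3)) := by
    have h1 : Tendsto (fun g : ℕ => (g : ℝ) ^ ((1 : ℝ) / 3)) atTop atTop :=
      (tendsto_rpow_atTop (by norm_num)).comp tendsto_natCast_atTop_atTop
    have h2 := (h1.const_mul_atTop hc0).const_mul_atTop (show 0 < t / 2 by positivity)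
    exact h2.eventually (eventually_ge_atTop M)
  obtain ⟨g₀, hg₀⟩ := eventually_atTop.1 ((e1.and e2).and (eventually_ge_atTop 1))
  refine ⟨g₀, fun g hg s hs1 hs2 => ?_⟩
  obtain ⟨⟨e1, e2⟩, hg1⟩ := hg₀ g hg
  have hg1' : (1 : ℝ) ≤ g := by exact_mod_cast hg1
  have hs : 1 ≤ s := by omega
  have hs0 : (0 : ℝ) < s := by exact_mod_cast hs
  have hs1' : 2 * (g : ℝ) ≤ s := by exact_mod_cast hs1
  set q : ℝ := (g : ℝ) ^ ((1 : ℝ) / 3) with hq
  have hq1 : 1 ≤ q := Real.one_le_rpow hg1' (by norm_num)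
  have hq2 : (g : ℝ) ^ ((2 : ℝ) / 3) = q ^ 2 := by
    rw [hq, ← Real.rpow_natCast, ← Real.rpow_mul (by positivity)]
    norm_num
  have hqg : q ≤ g := by
    calc q = (g : ℝ) ^ ((1 : ℝ) / 3) := rfl
      _ ≤ (g : ℝ) ^ (1 : ℝ) := Real.rpow_le_rpow_of_exponent_le hg1' (by norm_num)
      _ = g := Real.rpow_one _
  rw [hq2] at e1
  set X : ℝ := c * q with hX
  have hX0 : 0 < X := by positivity
  have hX3 : X ^ 3 = 24 * g / t ^ 2 := x0 t ht g
  set l : ℝ := lg t g with hl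
  have hlX : l = X * (1 - t / 2) := by
    apply cube_inj
    rw [hlg t g ht, mul_pow, hX3]
    field_simp
    ring
  have ha : X - l = t / 2 * X := by rw [hlX]; ring
  have hm : max 0 (l + M) ≤ X := by
    refine max_le hX0.le ?_
    linarith
  -- lower bound of the integrand
  set B : ℝ := (C * (s : ℝ) ^ 3 * (X + 1))⁻¹ * Real.exp (AK.h (X ^ 3 / 12) s) *
    Real.exp (-(FF X l + (3 * (t / 2 * X) ^ 2 + 3 * (t / 2 * X) + 1) / 6)) with hB
  have low : ∀ x ∈ Set.Ioc X (X + 1), B ≤ ee s * (ww s x * Real.exp (-(FF x l))) := by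
    intro x hx
    have hx0 : 0 < x := hX0.trans hx.1
    have h1 := (hAA s hs x hx0).2
    have hXX : Real.exp (AK.h (X ^ 3 / 12) s) ≤
        (Real.exp 1 * x ^ 3 / (12 * s)) ^ ((s : ℝ) / 2) := by
      rw [← AK.rp (by positivity) hs0]
      refine Real.rpow_le_rpow (by positivity) ?_ (by positivity)
      rw [mul_div_assoc', div_div]
      have : X ^ 3 ≤ x ^ 3 := pow_le_pow_left₀ hX0.le hx.1.le 3
      gcongr
    have h2 : (C * (s : ℝ) ^ 3 * (X + 1))⁻¹ * Real.exp (AK.h (X ^ 3 / 12) s) ≤ ee s * ww s x := by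
      rw [inv_mul_le_iff₀ (by positivity)]
      have h3 : x⁻¹ * Real.exp (AK.h (X ^ 3 / 12) s) ≤ C * (s : ℝ) ^ 3 * (ee s * ww s x) :=
        (mul_le_mul_of_nonneg_left hXX (by positivity)).trans h1
      rw [inv_mul_le_iff₀ hx0] at h3
      have h4 : 0 ≤ C * (s : ℝ) ^ 3 * (ee s * ww s x) := by
        have := AC.ww_nonneg hs hx0.le
        have h5 : 0 ≤ ee s := by unfold ee; positivity
        positivity
      calc Real.exp (AK.h (X ^ 3 / 12) s) ≤ x * (C * (s : ℝ) ^ 3 * (ee s * ww s x)) := h3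
        _ ≤ (X + 1) * (C * (s : ℝ) ^ 3 * (ee s * ww s x)) :=
          mul_le_mul_of_nonneg_right hx.2 h4
        _ = _ := by ring
    have h5 : FF x l ≤ FF X l + (3 * (t / 2 * X) ^ 2 + 3 * (t / 2 * X) + 1) / 6 := by
      unfold FF
      have h6 : (x - l) ^ 3 ≤ (t / 2 * X + 1) ^ 3 := by
        have : 0 ≤ x - l := by
          have : 0 < t / 2 * X := by positivity
          linarith [hx.1]
        exact pow_le_pow_left₀ this (by linarith [hx.2]) 3
      rw [ha]
      nlinarith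
    have h7 := Real.exp_le_exp.2 (neg_le_neg h5)
    have h8 : 0 ≤ (C * (s : ℝ) ^ 3 * (X + 1))⁻¹ * Real.exp (AK.h (X ^ 3 / 12) s) := by positivity
    calc B = (C * (s : ℝ) ^ 3 * (X + 1))⁻¹ * Real.exp (AK.h (X ^ 3 / 12) s) *
          Real.exp (-(FF X l + (3 * (t / 2 * X) ^ 2 + 3 * (t / 2 * X) + 1) / 6)) := rfl
      _ ≤ (ee s * ww s x) * Real.exp (-(FF x l)) :=
          mul_le_mul h2 h7 (Real.exp_nonneg _) (h8.trans h2)
      _ = _ := by ring
  -- the integral
  have hI : B ≤ ee s * ∫ x in Set.Ioi (max 0 (l + M)), ww s x * Real.exp (-(FF x l)) := by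
    have hi : IntegrableOn (fun x => ee s * (ww s x * Real.exp (-(FF x l)))) (Set.Ioi (max 0 (l + M))) :=
      ((hint l s hs).mono_set (Set.Ioi_subset_Ioi (le_max_left _ _))).const_mul _
    have hsub : Set.Ioc X (X + 1) ⊆ Set.Ioi (max 0 (l + M)) := fun x hx => lt_of_le_of_lt hm hx.1
    rw [← integral_const_mul]
    calc B = ∫ _ in Set.Ioc X (X + 1), B := by
          rw [setIntegral_const]; simp
      _ ≤ ∫ x in Set.Ioc X (X + 1), ee s * (ww s x * Real.exp (-(FF x l))) := by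
          refine setIntegral_mono_on ?_ (hi.mono_set hsub) measurableSet_Ioc low
          simp [integrableOn_const_iff]
      _ ≤ _ := by
          refine setIntegral_mono_set hi ?_ hsub.eventuallyLE
          refine (ae_restrict_iff' measurableSet_Ioi).2 (Eventually.of_forall fun x hx => ?_)
          have hx0 : 0 ≤ x := (le_max_left 0 (l + M)).trans (le_of_lt hx)
          have := AC.ww_nonneg hs hx0
          have h5 : 0 ≤ ee s := by unfold ee; positivity
          show 0 ≤ ee s * (ww s x * Real.exp (-(FF x l)))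
          positivity
  refine le_trans ?_ hI
  -- the numbers
  have hlogC : Real.log (C * (s : ℝ) ^ 3 * (X + 1)) ≤ Real.log (C * 64 * (c + 1)) + 4 * Real.log g := by
    rw [show (4 : ℝ) * Real.log g = Real.log ((g : ℝ) ^ 4) by rw [Real.log_pow]; norm_num,
      ← Real.log_mul (by positivity) (by positivity)]
    refine Real.log_le_log (by positivity) ?_
    have hs4 : (s : ℝ) ≤ 4 * g := by nlinarith
    have hX4 : X + 1 ≤ (c + 1) * g := by
      rw [hX]; nlinarith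
    calc C * (s : ℝ) ^ 3 * (X + 1) ≤ C * (4 * (g : ℝ)) ^ 3 * ((c + 1) * g) := by gcongr
      _ = _ := by ring
  have hexp : B = Real.exp (-(Real.log (C * (s : ℝ) ^ 3 * (X + 1))) + AK.h (X ^ 3 / 12) s +
      -(FF X l + (3 * (t / 2 * X) ^ 2 + 3 * (t / 2 * X) + 1) / 6)) := by
    rw [Real.exp_add, Real.exp_add, Real.exp_neg (Real.log _), Real.exp_log (by positivity)]
  rw [hexp]
  refine Real.exp_le_exp.2 ?_
  have hFF : FF X l = g * (4 / t ^ 2 - 6 / t + 3) := by
    unfold FF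
    rw [ha, hlX]
    have : ((t / 2 * X) ^ 3 + (X * (1 - t / 2)) ^ 3) / 6 =
        X ^ 3 * ((t / 2) ^ 3 + (1 - t / 2) ^ 3) / 6 := by ring
    rw [this, hX3]
    field_simp
    ring
  have hlogX : Real.log (X ^ 3 / 12) = Real.log (2 * g) - 2 * Real.log t := by
    rw [hX3, show 24 * (g : ℝ) / t ^ 2 / 12 = 2 * g / t ^ 2 by ring,
      Real.log_div (by positivity) (by positivity), Real.log_pow]
    norm_num
  have hh : g * (1 - 2 * Real.log t) - (δ * g / 2 + 1 / 2) * K ≤ AK.h (X ^ 3 / 12) s := by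
    unfold AK.h
    rw [hlogX]
    have h1 : Real.log s - Real.log (2 * g) ≤ s / (2 * g) - 1 := by
      rw [← Real.log_div (by positivity) (by positivity)]
      exact Real.log_le_sub_one_of_pos (by positivity)
    have h2 : (s : ℝ) / (2 * g) ≤ 2 := by
      rw [div_le_iff₀ (by positivity)]
      nlinarith
    have h3 : (s : ℝ) / 2 * (Real.log s - Real.log (2 * g)) ≤ 2 * (s / 2 - g) := by
      have h4 : (s : ℝ) / 2 * (Real.log s - Real.log (2 * g)) ≤ s / 2 * (s / (2 * g) - 1) :=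
        mul_le_mul_of_nonneg_left h1 (by positivity)
      have h5 : (s : ℝ) / 2 * (s / (2 * g) - 1) = s / (2 * g) * (s / 2 - g) := by
        field_simp
      have h6 : (s : ℝ) / (2 * g) * (s / 2 - g) ≤ 2 * (s / 2 - g) :=
        mul_le_mul_of_nonneg_right h2 (by linarith)
      linarith
    have h7 : -(s / 2 - g) * |1 - 2 * Real.log t| ≤ (s / 2 - g) * (1 - 2 * Real.log t) := by
      have := neg_abs_le (1 - 2 * Real.log t)
      have h8 : 0 ≤ (s : ℝ) / 2 - g := by linarith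
      nlinarith
    have h9 : (s : ℝ) / 2 - g ≤ δ * g / 2 + 1 / 2 := by linarith
    have h10 : ((s : ℝ) / 2 - g) * K ≤ (δ * g / 2 + 1 / 2) * K :=
      mul_le_mul_of_nonneg_right h9 hK0.le
    have h11 : ((s : ℝ) / 2 - g) * K = (s / 2 - g) * |1 - 2 * Real.log t| + 2 * (s / 2 - g) := by
      rw [hK]; ring
    nlinarith
  have hIt : 2 * It t = 2 * Real.log t + 4 / t ^ 2 - 6 / t + 2 := by
    unfold It
    field_simp
    ring
  have hIg : (g : ℝ) * (2 * It t + ε) = g * (2 * Real.log t + 4 / t ^ 2 - 6 / t + 2) + g * ε := by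
    rw [hIt]; ring
  have hδg : δ * g / 2 * K ≤ ε / 2 * g := by
    have : δ * K * g ≤ ε * g := mul_le_mul_of_nonneg_right hδ2 (by positivity)
    nlinarith
  have hXq : X ^ 2 = c ^ 2 * q ^ 2 := by rw [hX]; ring
  have hXq1 : X = c * q := rfl
  rw [hFF, hIg]
  have e3 : (3 * (t / 2 * X) ^ 2 + 3 * (t / 2 * X) + 1) / 6 =
      t ^ 2 * c ^ 2 / 8 * q ^ 2 + t * c / 4 * q + 1 / 6 := by
    rw [hXq1]; ring
  rw [e3]
  nlinarith

end Pool.Agent.Helper96.AW.AP
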