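import Mathlib
import Pool.Agent.Helper96.AW.AP
import Pool.Agent.Helper96.AW.AG

namespace Pool.Agent.Helper96.AW.AM

open Finset Filter Topology Pool.Agent.Helper26.AF Pool.Agent.Helper26.AL MeasureTheory

lemma pow12 {c x : ℝ} (hc : 0 < c) (hx : 0 ≤ x) :
    x ^ 12 ≤ ((12 : ℕ).factorial : ℝ) * (2 / c) ^ 12 * Real.exp (c / 2 * x) := by
  have h := Real.pow_div_factorial_le_exp (c / 2 * x) (by positivity) 12
  rw [div_le_iff₀ (by positivity)] at h
  have e : x ^ 12 = (2 / c) ^ 12 * (c / 2 * x) ^ 12 := by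
    rw [← mul_pow]
    congr 1
    field_simp
  rw [e]
  calc (2 / c) ^ 12 * (c / 2 * x) ^ 12 ≤
      (2 / c) ^ 12 * (Real.exp (c / 2 * x) * ((12 : ℕ).factorial : ℝ)) := by gcongr
    _ = _ := by ring

lemma int_exp {c : ℝ} (hc : 0 < c) : IntegrableOn (fun x => Real.exp (-(c * x))) (Set.Ioi 0) ∧
    ∫ x in Set.Ioi (0 : ℝ), Real.exp (-(c * x)) = 1 / c := by
  have h1 := integrableOn_exp_mul_Ioi (show -c < 0 by linarith) 0
  have h2 := integral_exp_mul_Ioi (show -c < 0 by linarith) 0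
  constructor
  · refine h1.congr_fun (fun x _ => ?_) measurableSet_Ioi
    simp
  · rw [show (fun x : ℝ => Real.exp (-(c * x))) = fun x => Real.exp (-c * x) by ext x; simp, h2]
    rw [mul_zero, Real.exp_zero]
    field_simp

/-- The pointwise bound. -/
lemma pointwise {C C₂ c t l x X₁ : ℝ} {g N : ℕ} (hg : 1 ≤ g) (hC : 0 < C) (hC₂ : 0 < C₂) (hc : 0 < c)
    (hx : 0 < x)
    (hAA : ∀ s : ℕ, 1 ≤ s → ∀ x : ℝ, 0 < x →
      ee s * ww s x ≤ C * (s : ℝ) ^ 3 * (x⁻¹ * (Real.exp 1 * x ^ 3 / (12 * s)) ^ ((s : ℝ) / 2)))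
    (hFF : ∀ x l : ℝ, 0 ≤ x → x ^ 3 / 24 ≤ FF x l)
    (hAK : ∀ (S : ℕ) (X : ℝ), 1 ≤ S → 0 < X →
      Summable (fun s : ℕ => if S ≤ s then (s : ℝ) ^ 3 * (Real.exp 1 * X / s) ^ ((s : ℝ) / 2) else 0) ∧
      (X ≤ S → ∑' s : ℕ, (if S ≤ s then (s : ℝ) ^ 3 * (Real.exp 1 * X / s) ^ ((s : ℝ) / 2) else 0)
        ≤ C₂ * (S : ℝ) ^ 4 * (Real.exp 1 * X / S) ^ ((S : ℝ) / 2)) ∧
      ((S : ℝ) < X → ∑' s : ℕ, (if S ≤ s then (s : ℝ) ^ 3 * (Real.exp 1 * X / s) ^ ((s : ℝ) / 2) else 0)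
        ≤ C₂ * X ^ 4 * Real.exp (X / 2)))
    (hAL : ∀ x : ℝ, 0 < x →
      ((2 * g : ℝ) / 2 * (1 + Real.log (x ^ 3 / (12 * (2 * g)))) - FF x l ≤ -((2 * g) * It t)) ∧
      (12 * (2 * g : ℝ) ≤ x ^ 3 → x ^ 3 / 24 - FF x l ≤ -((2 * g) * It t) - c * (x ^ 3 - 12 * (2 * g))))
    (hX₁ : 0 < X₁) (hX₁3 : X₁ ^ 3 = 24 * g) :
    ∑ s ∈ range N, (if 2 * g < s then ee s * (ww s x * Real.exp (-(FF x l))) else 0) ≤
      C * C₂ * (1 + ((12 : ℕ).factorial : ℝ) * (2 / c) ^ 12) * (2 * g) ^ 4 *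
        Real.exp (-((2 * g) * It t) + |FF 1 l| + c * X₁) * Real.exp (-(c / 2 * x)) := by
  have hg' : (1 : ℝ) ≤ g := by exact_mod_cast hg
  set K₁ : ℝ := ((12 : ℕ).factorial : ℝ) * (2 / c) ^ 12 with hK₁
  have hK₁0 : 0 < K₁ := by positivity
  obtain ⟨hsum, hk1, hk2⟩ := hAK (2 * g) (x ^ 3 / 12) (by omega) (by positivity)
  have hcast : ((2 * g : ℕ) : ℝ) = 2 * g := by push_cast; ring
  rw [hcast] at hk1 hk2
  -- first bound
  set TT : ℝ := ∑' s : ℕ, (if 2 * g ≤ s then (s : ℝ) ^ 3 * (Real.exp 1 * (x ^ 3 / 12) / s) ^ ((s : ℝ) / 2)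
    else 0) with hTT
  have step : ∑ s ∈ range N, (if 2 * g < s then ee s * (ww s x * Real.exp (-(FF x l))) else 0) ≤
      C * x⁻¹ * Real.exp (-(FF x l)) * TT := by
    calc _ ≤ ∑ s ∈ range N, C * x⁻¹ * Real.exp (-(FF x l)) * (if 2 * g ≤ s then
          (s : ℝ) ^ 3 * (Real.exp 1 * (x ^ 3 / 12) / s) ^ ((s : ℝ) / 2) else 0) := by
          refine Finset.sum_le_sum fun s _ => ?_
          by_cases hs : 2 * g < s
          · rw [if_pos hs, if_pos hs.le]
            have h1 := hAA s (by omega) x hx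
            have h2 := mul_le_mul_of_nonneg_right h1 (Real.exp_nonneg (-(FF x l)))
            have e : Real.exp 1 * (x ^ 3 / 12) / s = Real.exp 1 * x ^ 3 / (12 * s) := by
              rw [mul_div_assoc', div_div]
            rw [e]
            calc _ = ee s * ww s x * Real.exp (-(FF x l)) := by ring
              _ ≤ _ := h2
              _ = _ := by ring
          · rw [if_neg hs]
            split_ifs
            · positivity
            · simp
      _ = C * x⁻¹ * Real.exp (-(FF x l)) * ∑ s ∈ range N, (if 2 * g ≤ s then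
          (s : ℝ) ^ 3 * (Real.exp 1 * (x ^ 3 / 12) / s) ^ ((s : ℝ) / 2) else 0) := by
          rw [Finset.mul_sum]
      _ ≤ _ := by
          refine mul_le_mul_of_nonneg_left ?_ (by positivity)
          refine hsum.sum_le_tsum _ fun s _ => ?_
          split_ifs
          · positivity
          · exact le_rfl
  refine step.trans ?_
  have habs : FF 1 l ≤ |FF 1 l| := le_abs_self _
  have habs0 : 0 ≤ |FF 1 l| := abs_nonneg _
  have hFx : Real.exp (-(FF x l)) ≤ 1 := by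
    rw [Real.exp_le_one_iff]
    have := hFF x l hx.le
    have h3 : 0 < x ^ 3 := by positivity
    linarith
  rcases le_or_gt (x ^ 3 / 12) (2 * (g : ℝ)) with hX | hX
  · have hk := hk1 hX
    have hxX₁ : x ≤ X₁ := by
      refine le_of_pow_le_pow_left₀ (n := 3) (by norm_num) hX₁.le ?_
      rw [hX₁3]; linarith
    have hexp : 1 ≤ Real.exp (c * X₁) * Real.exp (-(c / 2 * x)) := by
      rw [← Real.exp_add]
      refine Real.one_le_exp ?_
      nlinarith
    -- main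
    have main : x⁻¹ * Real.exp (-(FF x l)) * (Real.exp 1 * (x ^ 3 / 12) / (2 * g)) ^ ((2 * g : ℝ) / 2) ≤
        Real.exp (-((2 * g) * It t) + |FF 1 l|) := by
      rcases le_or_gt 1 x with h1 | h1
      · have hx1 : x⁻¹ ≤ 1 := inv_le_one_of_one_le₀ h1
        have h2 := (hAL x hx).1
        rw [AK.rp (by positivity) (by positivity)]
        have e : AK.h (x ^ 3 / 12) (2 * g) = 2 * g / 2 * (1 + Real.log (x ^ 3 / (12 * (2 * g)))) := by
          have e0 : x ^ 3 / (12 * (2 * (g : ℝ))) = (x ^ 3 / 12) / (2 * g) := by rw [div_div]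
          unfold AK.h
          rw [e0, Real.log_div (show x ^ 3 / 12 ≠ 0 by positivity) (by positivity)]
          ring
        rw [e]
        calc x⁻¹ * Real.exp (-(FF x l)) * Real.exp (2 * g / 2 * (1 + Real.log (x ^ 3 / (12 * (2 * g)))))
            ≤ 1 * Real.exp (-(FF x l)) * Real.exp (2 * g / 2 * (1 + Real.log (x ^ 3 / (12 * (2 * g))))) := by
              gcongr
          _ = Real.exp (2 * g / 2 * (1 + Real.log (x ^ 3 / (12 * (2 * g)))) - FF x l) := by
              rw [one_mul, ← Real.exp_add]; congr 1; ring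
          _ ≤ _ := Real.exp_le_exp.2 (by linarith)
      · have h2 := (hAL 1 one_pos).1
        have e1 : (2 * g : ℝ) / 2 = ((g : ℕ) : ℝ) := by ring
        have e2 : (Real.exp 1 * (x ^ 3 / 12) / (2 * g)) ^ ((2 * g : ℝ) / 2) =
            (x ^ 3) ^ g * (Real.exp 1 * (1 / 12) / (2 * g)) ^ ((2 * g : ℝ) / 2) := by
          rw [e1, Real.rpow_natCast, Real.rpow_natCast, ← mul_pow]
          congr 1
          ring
        have e3 : x⁻¹ * (x ^ 3) ^ g ≤ 1 := by
          rw [inv_mul_le_iff₀ hx, mul_one, ← pow_mul]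
          calc x ^ (3 * g) ≤ x ^ 1 := pow_le_pow_of_le_one hx.le h1.le (by omega)
            _ = x := pow_one x
        have e4 : (Real.exp 1 * (1 / 12) / (2 * g)) ^ ((2 * g : ℝ) / 2) ≤
            Real.exp (-((2 * g) * It t) + |FF 1 l|) := by
          rw [AK.rp (by positivity) (by positivity)]
          refine Real.exp_le_exp.2 ?_
          have e : AK.h (1 / 12) (2 * g) = 2 * g / 2 * (1 + Real.log ((1 : ℝ) ^ 3 / (12 * (2 * g)))) := by
            have e0 : (1 : ℝ) ^ 3 / (12 * (2 * (g : ℝ))) = (1 / 12) / (2 * g) := by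
              rw [one_pow, div_div]
            unfold AK.h
            rw [e0, Real.log_div (show (1 : ℝ) / 12 ≠ 0 by norm_num) (by positivity)]
            ring
          rw [e]
          linarith
        rw [e2]
        calc x⁻¹ * Real.exp (-(FF x l)) * ((x ^ 3) ^ g * (Real.exp 1 * (1 / 12) / (2 * g)) ^ ((2 * g : ℝ) / 2))
            = (x⁻¹ * (x ^ 3) ^ g) * Real.exp (-(FF x l)) *
              (Real.exp 1 * (1 / 12) / (2 * g)) ^ ((2 * g : ℝ) / 2) := by ring
          _ ≤ 1 * 1 * Real.exp (-((2 * g) * It t) + |FF 1 l|) := by gcongr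
          _ = _ := by ring
    calc C * x⁻¹ * Real.exp (-(FF x l)) * TT
        ≤ C * x⁻¹ * Real.exp (-(FF x l)) * (C₂ * (2 * g) ^ 4 *
          (Real.exp 1 * (x ^ 3 / 12) / (2 * g)) ^ ((2 * g : ℝ) / 2)) := by gcongr
      _ = C * C₂ * (2 * g) ^ 4 * (x⁻¹ * Real.exp (-(FF x l)) *
          (Real.exp 1 * (x ^ 3 / 12) / (2 * g)) ^ ((2 * g : ℝ) / 2)) := by ring
      _ ≤ C * C₂ * (2 * g) ^ 4 * Real.exp (-((2 * g) * It t) + |FF 1 l|) := by gcongr
      _ ≤ (C * C₂ * (2 * g) ^ 4 * Real.exp (-((2 * g) * It t) + |FF 1 l|)) *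
          ((1 + K₁) * (Real.exp (c * X₁) * Real.exp (-(c / 2 * x)))) := by
          refine le_mul_of_one_le_right (by positivity) ?_
          nlinarith
      _ = _ := by
          rw [Real.exp_add _ (c * X₁)]
          ring
  · have hk := hk2 hX
    have hx3 : 12 * (2 * g : ℝ) ≤ x ^ 3 := by linarith
    have h2 := (hAL x hx).2 hx3
    have hx1 : 1 ≤ x := by
      refine le_of_pow_le_pow_left₀ (n := 3) (by norm_num) hx.le ?_
      linarith
    have hX₁x : X₁ ≤ x := by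
      refine le_of_pow_le_pow_left₀ (n := 3) (by norm_num) hx.le ?_
      rw [hX₁3]; linarith
    have hdiff : x - X₁ ≤ x ^ 3 - 12 * (2 * g) := by
      have : x ^ 3 - 12 * (2 * g) = (x - X₁) * (x ^ 2 + x * X₁ + X₁ ^ 2) := by
        have : X₁ ^ 3 = 12 * (2 * g) := by rw [hX₁3]; ring
        rw [← this]; ring
      rw [this]
      have h3 : 1 ≤ x ^ 2 + x * X₁ + X₁ ^ 2 := by
        have : 1 ≤ x ^ 2 := one_le_pow₀ hx1
        have h4 : 0 ≤ x * X₁ := by positivity
        have h5 : 0 ≤ X₁ ^ 2 := by positivity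
        linarith
      nlinarith
    have main : x⁻¹ * (x ^ 3 / 12) ^ 4 * (Real.exp (x ^ 3 / 12 / 2) * Real.exp (-(FF x l))) ≤
        K₁ * (Real.exp (-((2 * g) * It t)) * (Real.exp (c * X₁) * Real.exp (-(c / 2 * x)))) := by
      have h4 : x⁻¹ * (x ^ 3 / 12) ^ 4 ≤ x ^ 12 := by
        rw [inv_mul_le_iff₀ hx]
        have h5 : (x ^ 3 / 12) ^ 4 ≤ (x ^ 3) ^ 4 := by
          refine pow_le_pow_left₀ (by positivity) ?_ 4
          have : 0 < x ^ 3 := by positivity
          linarith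
        have h6 : (x ^ 3) ^ 4 = x ^ 12 := by ring
        have h7 : 0 < x ^ 12 := by positivity
        nlinarith
      have h8 : Real.exp (x ^ 3 / 12 / 2) * Real.exp (-(FF x l)) ≤
          Real.exp (-((2 * g) * It t) - c * (x - X₁)) := by
        rw [← Real.exp_add]
        refine Real.exp_le_exp.2 ?_
        nlinarith
      have h9 := pow12 hc hx.le
      calc x⁻¹ * (x ^ 3 / 12) ^ 4 * (Real.exp (x ^ 3 / 12 / 2) * Real.exp (-(FF x l)))
          ≤ x ^ 12 * Real.exp (-((2 * g) * It t) - c * (x - X₁)) := by gcongr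
        _ ≤ (K₁ * Real.exp (c / 2 * x)) * Real.exp (-((2 * g) * It t) - c * (x - X₁)) := by gcongr
        _ = _ := by
            rw [mul_assoc, ← Real.exp_add, ← Real.exp_add, ← Real.exp_add]
            congr 2
            ring
    calc C * x⁻¹ * Real.exp (-(FF x l)) * TT
        ≤ C * x⁻¹ * Real.exp (-(FF x l)) * (C₂ * (x ^ 3 / 12) ^ 4 * Real.exp (x ^ 3 / 12 / 2)) := by gcongr
      _ = C * C₂ * (x⁻¹ * (x ^ 3 / 12) ^ 4 * (Real.exp (x ^ 3 / 12 / 2) * Real.exp (-(FF x l)))) := by ring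
      _ ≤ C * C₂ * (K₁ * (Real.exp (-((2 * g) * It t)) * (Real.exp (c * X₁) * Real.exp (-(c / 2 * x))))) := by
          gcongr
      _ ≤ C * C₂ * (K₁ * (Real.exp (-((2 * g) * It t)) * (Real.exp (c * X₁) * Real.exp (-(c / 2 * x))))) *
          ((1 + K₁) / K₁ * (2 * g) ^ 4 * Real.exp |FF 1 l|) := by
          refine le_mul_of_one_le_right (by positivity) ?_
          have h1 : 1 ≤ (1 + K₁) / K₁ := by
            rw [le_div_iff₀ hK₁0]; linarith
          have h3 : (1 : ℝ) ≤ (2 * g) ^ 4 := one_le_pow₀ (by linarith)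
          have h4 : 1 ≤ Real.exp |FF 1 l| := Real.one_le_exp habs0
          exact one_le_mul_of_one_le_of_one_le (one_le_mul_of_one_le_of_one_le h1 h3) h4
      _ = _ := by
          rw [Real.exp_add, Real.exp_add]
          field_simp

theorem t : S_AM := by
  intro hAA hAC hAK hAL _ t ε ht hε
  obtain ⟨C, hC, hAA⟩ := hAA
  obtain ⟨hFF, hJJ, hint, _, _⟩ := hAC
  obtain ⟨C₂, hC₂, hAK⟩ := hAK
  obtain ⟨c, hc, hAL⟩ := hAL t ht
  obtain ⟨_, _, hlg, _, _, _⟩ := AQ.t
  have ht0 : 0 < t := by linarith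
  set K₁ : ℝ := ((12 : ℕ).factorial : ℝ) * (2 / c) ^ 12 with hK₁
  have hK₁0 : 0 < K₁ := by positivity
  set D : ℝ := C * C₂ * (1 + K₁) * 16 * (1 / (c / 2)) with hD
  have hD0 : 0 < D := by positivity
  have e1 := AP.ev (Real.log D + 1) (yt t ^ 2) (c * (24 : ℝ) ^ ((1 : ℝ) / 3)) ε hε
  obtain ⟨g₀, hg₀⟩ := eventually_atTop.1 (e1.and (eventually_ge_atTop 1))
  refine ⟨g₀, fun g hg => ?_⟩
  obtain ⟨e1, hg1⟩ := hg₀ g hg
  have hg1' : (1 : ℝ) ≤ g := by exact_mod_cast hg1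
  set q : ℝ := (g : ℝ) ^ ((1 : ℝ) / 3) with hq
  have hq2 : (g : ℝ) ^ ((2 : ℝ) / 3) = q ^ 2 := by
    rw [hq, ← Real.rpow_natCast, ← Real.rpow_mul (by positivity)]
    norm_num
  have hq0 : 0 < q := by positivity
  rw [hq2] at e1
  set X₁ : ℝ := (24 : ℝ) ^ ((1 : ℝ) / 3) * q with hX₁
  have hX₁0 : 0 < X₁ := by positivity
  have hX₁3 : X₁ ^ 3 = 24 * g := by
    rw [hX₁, mul_pow, hq, AP.rt (by positivity), AP.rt (by positivity)]
  set l : ℝ := lg t g with hl
  have hlq : l = yt t * q := rfl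
  have hAL' : ∀ x : ℝ, 0 < x →
      ((2 * g : ℝ) / 2 * (1 + Real.log (x ^ 3 / (12 * (2 * g)))) - FF x l ≤ -((2 * g) * It t)) ∧
      (12 * (2 * g : ℝ) ≤ x ^ 3 → x ^ 3 / 24 - FF x l ≤
        -((2 * g) * It t) - c * (x ^ 3 - 12 * (2 * g))) := by
    refine hAL (2 * g) l (by positivity) ?_
    rw [hlg t g ht0]
    ring
  set Q : ℝ := C * C₂ * (1 + K₁) * (2 * g) ^ 4 *
        Real.exp (-((2 * g) * It t) + |FF 1 l| + c * X₁) with hQ
  have hQ0 : 0 < Q := by positivity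
  have hterm : ∀ s : ℕ, (if 2 * g < s then ee s * JJ l s else 0) =
      ∫ x in Set.Ioi (0 : ℝ), (if 2 * g < s then ee s * (ww s x * Real.exp (-(FF x l))) else 0) := by
    intro s
    by_cases hs : 2 * g < s
    · simp only [if_pos hs]
      rw [integral_const_mul, hJJ l s (by omega)]
    · simp only [if_neg hs, integral_zero]
  have hInt : ∀ s : ℕ, IntegrableOn (fun x => if 2 * g < s then
      ee s * (ww s x * Real.exp (-(FF x l))) else 0) (Set.Ioi 0) := by
    intro s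
    by_cases hs : 2 * g < s
    · simp only [if_pos hs]
      exact (hint l s (by omega)).const_mul _
    · simp only [if_neg hs]
      exact integrableOn_zero
  obtain ⟨hi1, hi2⟩ := int_exp (show 0 < c / 2 by positivity)
  have hpart : ∀ N : ℕ, ∑ s ∈ range N, (if 2 * g < s then ee s * JJ l s else 0) ≤ Q * (1 / (c / 2)) := by
    intro N
    rw [Finset.sum_congr rfl (fun s _ => hterm s), ← integral_finset_sum _ (fun s _ => hInt s), ← hi2,
      ← integral_const_mul]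
    refine setIntegral_mono_on (integrable_finset_sum _ (fun s _ => hInt s)) (hi1.const_mul Q)
      measurableSet_Ioi fun x hx => ?_
    exact pointwise hg1 hC hC₂ hc hx (fun s hs x hx => (hAA s hs x hx).1) hFF hAK hAL' hX₁0 hX₁3
  have hnn : ∀ s : ℕ, 0 ≤ (if 2 * g < s then ee s * JJ l s else 0) := by
    intro s
    split_ifs
    · have h1 : 0 ≤ JJ l s := AG.JJ_nonneg l s
      have h2 : 0 ≤ ee s := by unfold ee; positivity
      positivity
    · exact le_rfl
  refine (Real.tsum_le_of_sum_range_le hnn hpart).trans ?_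
  have hQD : Q * (1 / (c / 2)) = Real.exp (Real.log D + 4 * Real.log g +
      (-((2 * g) * It t) + |FF 1 l| + c * X₁)) := by
    rw [Real.exp_add, Real.exp_add, Real.exp_log hD0,
      show (4 : ℝ) * Real.log g = ((4 : ℕ) : ℝ) * Real.log g by norm_num, Real.exp_nat_mul,
      Real.exp_log (by positivity), hQ, hD]
    ring
  rw [hQD]
  refine Real.exp_le_exp.2 ?_
  have hF1 : |FF 1 l| ≤ 1 + yt t ^ 2 * q ^ 2 := by
    have h1 : FF 1 l = (1 - 3 * l + 3 * l ^ 2) / 6 := by unfold FF; ring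
    have h2 : yt t ^ 2 * q ^ 2 = l ^ 2 := by rw [hlq]; ring
    rw [h1, h2, abs_le]
    constructor <;> nlinarith [sq_nonneg (l - 1), sq_nonneg (l + 1)]
  have e4 : c * X₁ = c * (24 : ℝ) ^ ((1 : ℝ) / 3) * q := by rw [hX₁]; ring
  rw [e4]
  nlinarith

end Pool.Agent.Helper96.AW.AM
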