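import Mathlib
import Pool.Agent.Helper96.AW.GoalsB

namespace Pool.Agent.Helper96.AW.AN

theorem t : S_AN := by
  intro t l x ht ht2 hl hx
  have h2 : 0 < 2 - t := by linarith
  rcases le_total x l with h | h
  · have e : max (x - l) 0 = 0 := max_eq_right (by linarith)
    rw [e]
    have h3 : x ^ 3 ≤ l ^ 3 := pow_le_pow_left₀ hx h 3
    have h4 : (2 - t) ^ 2 ≤ 4 := by nlinarith
    have h5 : t ^ 2 * l ^ 3 / 24 ≤ t ^ 2 * l ^ 3 / (6 * (2 - t) ^ 2) := by
      apply div_le_div_of_nonneg_left (by positivity) (by positivity)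
      linarith
    have h6 : t ^ 2 * x ^ 3 / 24 ≤ t ^ 2 * l ^ 3 / 24 := by
      have := mul_le_mul_of_nonneg_left h3 (sq_nonneg t)
      linarith
    calc t ^ 2 * x ^ 3 / 24 - 0 ^ 3 / 6 = t ^ 2 * x ^ 3 / 24 := by ring
      _ ≤ _ := h6.trans h5
  · have e : max (x - l) 0 = x - l := max_eq_left (by linarith)
    rw [e, le_div_iff₀ (by positivity)]
    have hz : 0 ≤ x * (4 - t ^ 2) - 4 * (1 - t) * l := by
      have h6 : 0 ≤ (x - l) * (4 - t ^ 2) := mul_nonneg (by linarith) (by nlinarith)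
      nlinarith [mul_pos hl ht, mul_pos (mul_pos hl ht) (by linarith : 0 < 4 - t)]
    have key : 24 * (t ^ 2 * l ^ 3 - (t ^ 2 * x ^ 3 / 24 - (x - l) ^ 3 / 6) * (6 * (2 - t) ^ 2)) =
        6 * ((x * (2 - t) - 2 * l) ^ 2 * (x * (4 - t ^ 2) - 4 * (1 - t) * l)) := by ring
    have : 0 ≤ (x * (2 - t) - 2 * l) ^ 2 * (x * (4 - t ^ 2) - 4 * (1 - t) * l) :=
      mul_nonneg (sq_nonneg _) hz
    linarith

end Pool.Agent.Helper96.AW.AN
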