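import Mathlib
import Pool.Agent.Helper96.AW.GoalsA
import Pool.Agent.Helper96.AW.GoalsB

/-!
Project AW (MP_af6c86_pr, third theorem).  Part C: upper bound for the probability of no complex
component, and assembly.  Every goal is a `def S_XXX : Prop` with its complete proof in the docstring.
`uu l n = p/(1-p)`, `ta l n = τ`, `vv τ k = k^(k-2) (τ e^(-τ))^k/k!` (`Defs.lean`).
-/

namespace Pool.Agent.Helper96.AW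

open Finset Filter Topology Pool.Agent.Helper26.AF Pool.Agent.Helper26.AL MeasureTheory

/-- PACKET AT (prefactor).  Proof.  `e = l n^(-1/3) ≥ 0`, `p = (1+e)/n`, `u = p/(1-p)`, `d = 1 - τ = n^(-1/3)/(1+l)`,
`τ - τ^2/2 = (1 - d^2)/2`; `n` large, so `e ≤ 1`, `p ≤ 1/2`, `d ≤ 1/2`.  The logarithm of the left side is
`(n choose 2) log (1-p) + log n! + n log u - n log τ + n τ + (1 - d^2)/(2u)`.  Use `log (1-p) ≤ -p - p^2/2` (so the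
first term is at most `-(1+e) n/2 + (1+e)/2`), `log n! ≤ n log n - n + (1/2) log n + 1`, `n log u = n log (1+e) -
n log n - n log (1-p)` with `-n log (1-p) ≤ n (p + p^2) ≤ 4`, `1/u ≤ n/(1+e)`.  The sum is at most `(1/2) log n + 7 +
n B`, `B = -(1+e)/2 + log (1+e) - log (1-d) - d + (1 - d^2)/(2 (1+e))`.  With `log (1+e) ≤ e - e^2/2 + e^3/3`,
`-log (1-d) ≤ d + d^2/2 + d^3/3 + d^4`, `1 - e ≤ 1/(1+e) ≤ 1 - e + e^2 - e^3 + e^4`: `B ≤ -e^3/6 + d^3/3 + d^4 +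
e^4/2 + e d^2/2`, and `n B ≤ -l^3/6 + 1/3 + 1/2 + n (d^4 + e^4/2)`, where the last term tends to `0`. -/
def S_AT : Prop := ∃ C : ℝ, 0 < C ∧ ∀ l : ℝ, 0 ≤ l → ∀ᶠ n : ℕ in atTop,
  (1 - pc l n) ^ (n.choose 2) * (n.factorial : ℝ) *
    (uu l n / (ta l n * Real.exp (-(ta l n)))) ^ n *
    Real.exp ((ta l n - ta l n ^ 2 / 2) / uu l n)
  ≤ C * (Real.sqrt n * Real.exp (-(l ^ 3 / 6)))

/-- PACKET AU (block sums).  Proof.  `a = 1/u = (1-p)/p`, `d = 1 - τ ≤ n^(-1/3)`; for `n` large `n/3 ≤ a ≤ n`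
(`l ≥ 0`), `d ≤ 1/2`.  The first term is `exp (-a (1-d^2)/2) ≤ exp (-n/9) ≤ n^(-2/3)`.  By Stirling `k! ≤ e √k
(k/e)^k` and `log (1-d) + d ≥ -d^2`: `vv τ k ≥ e^(-1) k^(-5/2) exp (-k d^2) ≥ e^(-2) k^(-5/2)` for `k ≤ n^(2/3)`.  Let
`K = 2^i`.  (a) If `4 K ≤ n^(2/3)`, then `∑_(2K ≤ k < 4K) vv τ k ≥ 2K e^(-2) (4K)^(-5/2) = (e^(-2)/16) K^(-3/2)`, so
the term of `i` is at most `n K^(-5/2) exp (-c n K^(-3/2))`, `c = e^(-2)/48`.  With `w = n K^(-3/2)` this is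
`n^(-2/3) w^(5/3) e^(-c w) ≤ C₁ n^(-2/3)/w = C₁ n^(-2/3) K^(3/2)/n`; the sum over `i` is geometric with largest
`K^(3/2) ≤ n`.  (b) If `4K > n^(2/3)`, the term is at most `n K^(-5/2)`, a geometric series with sum at most
`2 n (n^(2/3)/4)^(-5/2) = 64 n^(-2/3)`. -/
def S_AU : Prop := ∃ C : ℝ, 0 < C ∧ ∀ l : ℝ, 0 ≤ l → ∀ᶠ n : ℕ in atTop,
  Real.exp (-((ta l n - ta l n ^ 2 / 2) / uu l n)) +
    ∑ i ∈ range n, 1 / uu l n * ((2 : ℝ) ^ i) ^ (-(5 : ℝ) / 2) *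
      Real.exp (-(1 / uu l n * ∑ k ∈ Ico (2 ^ (i + 1)) (2 ^ (i + 2)), vv (ta l n) k))
  ≤ C * (n : ℝ) ^ (-(2 : ℝ) / 3)

/-- PACKET AV (upper bound for the probability of no complex component; from TG, TA, AR, AT, AU and the
conclusions of TF, AS).  Proof.  `u = uu l n`, `τ = ta l n`, `z = τ e^(-τ)/u`, `n` large (`0 < pc l n < 1`, `0 < τ <
1`), `I = n` (`n < 2^n`), `M i = (1/u) (2^i)^(-5/2)` in TF.  Its hypothesis: `trk k u^(k-1) z^k/k! =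
(1/u) trk k (τ e^(-τ))^k/k! ≤ (1/u) k^(k-2) e^(-k)/k! ≤ (1/u) k^(-5/2)` (TA, `τ e^(-τ) ≤ 1/e`, `k! ≥ √k (k/e)^k`).
The exponent `A_i` in TF is at most `(1/u) ∑_(1 ≤ k < 2^(i+1)) vv τ k ≤ (1/u)(τ - τ^2/2) - (1/u) ∑_(2^(i+1) ≤ k <
2^(i+2)) vv τ k` (TA, AR with `n = 2^(i+2) - 1`).  The exponent `V` is at most `(1/2) log (1/(1-τ)) + C` (AS, since
`u^k z^k = (τ e^(-τ))^k`), so `e^V ≤ C' ((1+l) n^(1/3))^(1/2)`.  By TG, TF: `Pr = (1-p)^(n choose 2) XL u (n+1) n ≤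
[(1-p)^(n choose 2) n! z^(-n) e^((τ - τ^2/2)/u)] e^V [e^(-(τ - τ^2/2)/u) + ∑ M i exp (...)]`, and AT, AU give at
most `C √n e^(-l^3/6) (1+l) n^(1/6) n^(-2/3)`, and `1/2 + 1/6 - 2/3 = 0`. -/
def S_AV : Prop := S_TG → S_TA → S_AR → S_AT → S_AU →
  (∀ (u z : ℝ) (n I : ℕ) (M : ℕ → ℝ), 0 < u → 0 < z → n < 2 ^ I →
    (∀ i < I, ∀ k ∈ Ico (2 ^ i) (2 ^ (i + 1)),
      (trk k : ℝ) * u ^ (k - 1) * z ^ k / (k.factorial : ℝ) ≤ M i) →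
    XL u (n + 1) n * z ^ n / (n.factorial : ℝ)
      ≤ Real.exp (∑ k ∈ Icc 1 n, (Nc k 0 : ℝ) * u ^ k * z ^ k / (k.factorial : ℝ)) *
        (1 + ∑ i ∈ range I, M i * Real.exp (∑ k ∈ Ico 1 (2 ^ (i + 1)),
          (trk k : ℝ) * u ^ (k - 1) * z ^ k / (k.factorial : ℝ)))) →
  (∃ C : ℝ, 0 < C ∧ ∀ (τ : ℝ) (n : ℕ), 0 ≤ τ → τ < 1 →
    ∑ k ∈ Icc 1 n, (Nc k 0 : ℝ) * (τ * Real.exp (-τ)) ^ k / (k.factorial : ℝ)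
      ≤ 1 / 2 * Real.log (1 / (1 - τ)) + C) →
  ∃ C : ℝ, 0 < C ∧ ∀ l : ℝ, 0 ≤ l → ∀ᶠ n : ℕ in atTop,
    Pr (pc l n) (fun G : SimpleGraph (Fin n) => ZZ G = 0) ≤ C * ((1 + l) * Real.exp (-(l ^ 3 / 6)))

/-- PACKET TZ (trivial, from the conclusions of AV and NC).  Proof.  Limit of the inequality AV. -/
def S_TZ : Prop :=
  (∃ C : ℝ, 0 < C ∧ ∀ l : ℝ, 0 ≤ l → ∀ᶠ n : ℕ in atTop,
    Pr (pc l n) (fun G : SimpleGraph (Fin n) => ZZ G = 0) ≤ C * ((1 + l) * Real.exp (-(l ^ 3 / 6)))) →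
  (∀ l : ℝ, Tendsto (fun n : ℕ => Pr (pc l n) (fun G : SimpleGraph (Fin n) => ZZ G = 0)) atTop
    (𝓝 (p0 l))) →
  ∃ C : ℝ, 0 < C ∧ ∀ l : ℝ, 0 ≤ l → p0 l ≤ C * ((1 + l) * Real.exp (-(l ^ 3 / 6)))

/-- The facts used in the assembly (conclusions of AG, AJ, AM, AO, AP, GC, GD, GG). -/
structure Facts : Prop where
  eg_le : ∀ g s, 0 ≤ eg g s ∧ eg g s ≤ ee s
  sumE : ∀ l : ℝ, Summable (fun s : ℕ => ee s * |PP l s|) ∧ ∑' s : ℕ, ee s * PP l s = 1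
  sumG : ∀ (g : ℕ) (l : ℝ), pg g l = ∑' s : ℕ, eg g s * PP l s
  sumJ : ∀ l : ℝ, Summable (fun s : ℕ => ee s * JJ l s)
  PPb : ∀ (l : ℝ) (s : ℕ), 0 ≤ PP l s ∧ PP l s ≤ JJ l s
  PPl : ∃ M : ℝ, 0 < M ∧ ∀ (l : ℝ) (s : ℕ), 1 ≤ s →
    1 / 2 * (∫ x in Set.Ioi (max 0 (l + M)), ww s x * Real.exp (-(FF x l))) ≤ PP l s
  am : ∀ t ε : ℝ, 1 < t → 0 < ε → ∃ g₀ : ℕ, ∀ g ≥ g₀,
    ∑' s : ℕ, (if 2 * g < s then ee s * JJ (lg t g) s else 0) ≤ Real.exp (-(g * (2 * It t - ε)))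
  ao : ∀ t ε : ℝ, 0 < t → t < 1 → 0 < ε → ∃ δ : ℝ, 0 < δ ∧ ∃ g₀ : ℕ, ∀ g ≥ g₀,
    ∑ s ∈ range (⌊(2 + δ) * (g : ℝ)⌋₊ + 1), ee s * PP (lg t g) s ≤ Real.exp (-(g * (2 * It t - ε)))
  ap : ∀ t ε M : ℝ, 0 < t → 0 < ε → ∃ δ : ℝ, 0 < δ ∧ ∃ g₀ : ℕ, ∀ g ≥ g₀,
    ∀ s : ℕ, 2 * g ≤ s → (s : ℝ) ≤ (2 + δ) * g + 1 →
      Real.exp (-(g * (2 * It t + ε))) ≤
        ee s * ∫ x in Set.Ioi (max 0 (lg t g + M)), ww s x * Real.exp (-(FF x (lg t g)))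
  gc : ∀ g s : ℕ, s ≤ 2 * g → eg g s = ee s
  gd : ∀ δ : ℝ, 0 < δ → ∃ g₀ : ℕ, ∀ g ≥ g₀, ∀ s : ℕ, (2 + δ) * g ≤ s → eg g s ≤ ee s / 2
  gg : ∀ δ K : ℝ, 0 < δ → 0 < K → ∃ g₀ : ℕ, ∀ g ≥ g₀, ∀ s : ℕ, (2 + δ) * g ≤ s →
    eg g s ≤ Real.exp (-(K * g)) * ee s

/-- PACKET FA (assembly, `t > 1`).  Proof.  Let `l = lg t g`, `P = 1 - pg g l`.  By `sumE`, `sumG`: `P =
∑'_s (ee s - eg g s) PP l s` with nonnegative terms, the terms `s ≤ 2 g` vanish (`gc`), so `P ≤ ∑'_(s > 2g) ee s PP l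
s ≤ ∑'_(s > 2g) ee s JJ l s ≤ exp (-(g (2 It t - ε)))` for `g` large (`am`).  Lower bound: `M` from `PPl`, `δ` from `ap`,
`s = ⌈(2+δ) g⌉₊`, so `2 g ≤ (2+δ) g ≤ s ≤ (2+δ) g + 1`; `gd`: `P ≥ (ee s - eg g s) PP l s ≥ (ee s/2) PP l s ≥
(1/4) ee s ∫ ... ≥ (1/4) exp (-(g (2 It t + ε)))` for `g` large.  Take logarithms and divide by `g`. -/
def S_FA : Prop := Facts → ∀ t : ℝ, 1 < t →
  Tendsto (fun g : ℕ => Real.log (1 - pg g (lg t g)) / g) atTop (𝓝 (-(2 * It t)))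

/-- PACKET FB (assembly, `t < 1`; `It t > 0` by AQ).  Proof.  Let `l = lg t g`.  Lower bound: `pg g l ≥
eg g (2g) PP l (2g) = ee (2g) PP l (2g) ≥ (1/2) ee (2g) ∫ ... ≥ (1/2) exp (-(g (2 It t + ε)))` (`sumG`, all terms
nonnegative, `gc`, `PPl`, `ap` with `s = 2 g`).  Upper bound: `δ` from `ao`, `N = ⌊(2+δ) g⌋₊`.  The terms `s ≤ N` of
`sumG` are at most `ee s PP l s`, in total at most `exp (-(g (2 It t - ε)))`; for `s > N`, `(2+δ) g ≤ s`, so `gg` with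
`K = 2 It t + 1` gives at most `exp (-(K g)) ∑' ee s PP l s = exp (-(K g))`.  So `pg g l ≤ 2 exp (-(g (2 It t -
ε)))` for `g` large.  Take logarithms and divide by `g`. -/
def S_FB : Prop := Facts → S_AQ → ∀ t : ℝ, 0 < t → t < 1 →
  Tendsto (fun g : ℕ => Real.log (pg g (lg t g)) / g) atTop (𝓝 (-(2 * It t)))

end Pool.Agent.Helper96.AW
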