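import Mathlib
import Pool.Agent.Helper96.AW.GoalsC

namespace Pool.Agent.Helper96.AW.FA

open Finset Filter Topology Pool.Agent.Helper26.AF Pool.Agent.Helper26.AL MeasureTheory
open Pool.Agent.Helper96.AW

lemma summ_ee (F : Facts) (l : ℝ) : Summable (fun s : ℕ => ee s * PP l s) := by
  refine (F.sumE l).1.congr fun s => ?_
  rw [abs_of_nonneg (F.PPb l s).1]

lemma summ_eg (F : Facts) (g : ℕ) (l : ℝ) : Summable (fun s : ℕ => eg g s * PP l s) := by
  refine Summable.of_nonneg_of_le (fun s => mul_nonneg (F.eg_le g s).1 (F.PPb l s).1) (fun s => ?_)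
    (summ_ee F l)
  exact mul_le_mul_of_nonneg_right (F.eg_le g s).2 (F.PPb l s).1

lemma one_sub (F : Facts) (g : ℕ) (l : ℝ) :
    1 - pg g l = ∑' s : ℕ, (ee s - eg g s) * PP l s := by
  rw [← (F.sumE l).2, F.sumG g l, ← (summ_ee F l).tsum_sub (summ_eg F g l)]
  congr 1
  funext s
  ring

lemma summ_diff (F : Facts) (g : ℕ) (l : ℝ) :
    Summable (fun s : ℕ => (ee s - eg g s) * PP l s) := by
  refine ((summ_ee F l).sub (summ_eg F g l)).congr fun s => ?_
  ring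

lemma diff_nonneg (F : Facts) (g : ℕ) (l : ℝ) (s : ℕ) : 0 ≤ (ee s - eg g s) * PP l s :=
  mul_nonneg (sub_nonneg.2 (F.eg_le g s).2) (F.PPb l s).1

lemma upper (F : Facts) {t ε : ℝ} (ht : 1 < t) (hε : 0 < ε) : ∃ g₀ : ℕ, ∀ g ≥ g₀,
    1 - pg g (lg t g) ≤ Real.exp (-(g * (2 * It t - ε))) := by
  obtain ⟨g₀, hg⟩ := F.am t ε ht hε
  refine ⟨g₀, fun g hgg => le_trans ?_ (hg g hgg)⟩
  rw [one_sub F]
  have hs : Summable (fun s : ℕ => if 2 * g < s then ee s * JJ (lg t g) s else 0) := by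
    refine Summable.of_nonneg_of_le (fun s => ?_) (fun s => ?_) (F.sumJ (lg t g))
    · split_ifs
      · exact mul_nonneg ((F.eg_le g s).1.trans (F.eg_le g s).2) ((F.PPb _ s).1.trans (F.PPb _ s).2)
      · exact le_rfl
    · split_ifs
      · exact le_rfl
      · exact mul_nonneg ((F.eg_le g s).1.trans (F.eg_le g s).2) ((F.PPb _ s).1.trans (F.PPb _ s).2)
  refine (summ_diff F g _).tsum_le_tsum (fun s => ?_) hs
  split_ifs with h
  · have h1 : ee s - eg g s ≤ ee s := by linarith [(F.eg_le g s).1]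
    exact mul_le_mul h1 (F.PPb _ s).2 (F.PPb _ s).1 ((F.eg_le g s).1.trans (F.eg_le g s).2)
  · rw [F.gc g s (by omega)]
    simp

lemma lower (F : Facts) {t ε : ℝ} (ht : 1 < t) (hε : 0 < ε) : ∃ g₀ : ℕ, ∀ g ≥ g₀,
    1 / 4 * Real.exp (-(g * (2 * It t + ε))) ≤ 1 - pg g (lg t g) := by
  obtain ⟨M, hM, hPl⟩ := F.PPl
  obtain ⟨δ, hδ, g₁, h1⟩ := F.ap t ε M (by linarith) hε
  obtain ⟨g₂, h2⟩ := F.gd δ hδ
  refine ⟨max (max g₁ g₂) 1, fun g hg => ?_⟩
  have hg1 : g₁ ≤ g := (le_max_left _ _).trans ((le_max_left _ _).trans hg)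
  have hg2 : g₂ ≤ g := (le_max_right _ _).trans ((le_max_left _ _).trans hg)
  have hg3 : 1 ≤ g := (le_max_right _ _).trans hg
  set s := ⌈(2 + δ) * (g : ℝ)⌉₊ with hs
  have hgpos : (1 : ℝ) ≤ g := by exact_mod_cast hg3
  have hle : (2 + δ) * (g : ℝ) ≤ s := Nat.le_ceil _
  have hlt : (s : ℝ) ≤ (2 + δ) * g + 1 := (Nat.ceil_lt_add_one (by positivity)).le
  have hs2 : 2 * g ≤ s := by
    have : (2 : ℝ) * g ≤ s := by nlinarith
    exact_mod_cast this
  have a1 := h1 g hg1 s hs2 hlt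
  have a2 := h2 g hg2 s hle
  have a3 := hPl (lg t g) s (by omega)
  rw [one_sub F]
  have a4 := (summ_diff F g (lg t g)).le_tsum s (fun j _ => diff_nonneg F g _ j)
  refine le_trans ?_ a4
  have e0 : 0 ≤ ee s := (F.eg_le g s).1.trans (F.eg_le g s).2
  have a5 : ee s / 2 * (1 / 2 * (∫ x in Set.Ioi (max 0 (lg t g + M)),
      ww s x * Real.exp (-(FF x (lg t g))))) ≤ (ee s - eg g s) * PP (lg t g) s := by
    refine le_trans (mul_le_mul_of_nonneg_left a3 (by positivity)) ?_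
    exact mul_le_mul_of_nonneg_right (by linarith) (F.PPb _ s).1
  refine le_trans ?_ a5
  nlinarith [a1]

lemma logs {P : ℕ → ℝ} {I : ℝ}
    (hu : ∀ ε : ℝ, 0 < ε → ∃ g₀ : ℕ, ∀ g ≥ g₀, P g ≤ 2 * Real.exp (-(g * (2 * I - ε))))
    (hl : ∀ ε : ℝ, 0 < ε → ∃ g₀ : ℕ, ∀ g ≥ g₀, 1 / 4 * Real.exp (-(g * (2 * I + ε))) ≤ P g) :
    Tendsto (fun g : ℕ => Real.log (P g) / g) atTop (𝓝 (-(2 * I))) := by
  rw [Metric.tendsto_atTop]
  intro η hη
  obtain ⟨g₁, h1⟩ := hu (η / 2) (by positivity)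
  obtain ⟨g₂, h2⟩ := hl (η / 2) (by positivity)
  obtain ⟨g₃, h3⟩ := exists_nat_gt ((2 * Real.log 4 + 1) / (η / 2))
  refine ⟨max (max g₁ g₂) (g₃ + 1), fun g hg => ?_⟩
  have hg1 : g₁ ≤ g := (le_max_left _ _).trans ((le_max_left _ _).trans hg)
  have hg2 : g₂ ≤ g := (le_max_right _ _).trans ((le_max_left _ _).trans hg)
  have hg3 : g₃ + 1 ≤ g := (le_max_right _ _).trans hg
  have hgpos : (0 : ℝ) < g := by exact_mod_cast (by omega : 0 < g)
  have hg3' : (g₃ : ℝ) < g := by exact_mod_cast (by omega : g₃ < g)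
  have b : 2 * Real.log 4 + 1 < g * (η / 2) := by
    have := h3.trans hg3'
    rwa [div_lt_iff₀ (by positivity)] at this
  have u := h1 g hg1
  have v := h2 g hg2
  have hP : 0 < P g := lt_of_lt_of_le (by positivity) v
  have lu : Real.log (P g) ≤ Real.log 2 + -(g * (2 * I - η / 2)) := by
    have := Real.log_le_log hP u
    rwa [Real.log_mul (by norm_num) (Real.exp_ne_zero _), Real.log_exp] at this
  have lv : -Real.log 4 + -(g * (2 * I + η / 2)) ≤ Real.log (P g) := by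
    have := Real.log_le_log (by positivity) v
    rwa [Real.log_mul (by norm_num) (Real.exp_ne_zero _), Real.log_exp, one_div,
      Real.log_inv] at this
  have l4 : 0 < Real.log 4 := Real.log_pos (by norm_num)
  have l2 : Real.log 2 ≤ Real.log 4 := Real.log_le_log (by norm_num) (by norm_num)
  rw [Real.dist_eq, abs_lt]
  constructor
  · rw [lt_sub_iff_add_lt, lt_div_iff₀ hgpos]
    nlinarith
  · rw [sub_lt_iff_lt_add, div_lt_iff₀ hgpos]
    nlinarith

theorem t : S_FA := by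
  intro F t ht
  refine logs (P := fun g : ℕ => 1 - pg g (lg t g)) (fun ε hε => ?_) (fun ε hε => lower F ht hε)
  obtain ⟨g₀, h⟩ := upper F ht hε
  refine ⟨g₀, fun g hg => (h g hg).trans ?_⟩
  nlinarith [Real.exp_pos (-((g : ℝ) * (2 * It t - ε)))]

end Pool.Agent.Helper96.AW.FA
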