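import Mathlib
import Pool.Agent.Helper96.AW.FA

namespace Pool.Agent.Helper96.AW.FB

open Finset Filter Topology Pool.Agent.Helper26.AF Pool.Agent.Helper26.AL MeasureTheory
open Pool.Agent.Helper96.AW Pool.Agent.Helper96.AW.FA

lemma nn (F : Facts) (g : ℕ) (l : ℝ) (s : ℕ) : 0 ≤ eg g s * PP l s :=
  mul_nonneg (F.eg_le g s).1 (F.PPb l s).1

lemma lower (F : Facts) {t ε : ℝ} (ht : 0 < t) (hε : 0 < ε) : ∃ g₀ : ℕ, ∀ g ≥ g₀,
    1 / 4 * Real.exp (-(g * (2 * It t + ε))) ≤ pg g (lg t g) := by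
  obtain ⟨M, hM, hPl⟩ := F.PPl
  obtain ⟨δ, hδ, g₁, h1⟩ := F.ap t ε M ht hε
  refine ⟨max g₁ 1, fun g hg => ?_⟩
  have hg1 : g₁ ≤ g := (le_max_left _ _).trans hg
  have hg3 : 1 ≤ g := (le_max_right _ _).trans hg
  have hgpos : (1 : ℝ) ≤ g := by exact_mod_cast hg3
  have a1 := h1 g hg1 (2 * g) le_rfl (by push_cast; nlinarith)
  have a3 := hPl (lg t g) (2 * g) (by omega)
  rw [F.sumG]
  have a4 := (summ_eg F g (lg t g)).le_tsum (2 * g) (fun j _ => nn F g _ j)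
  refine le_trans ?_ a4
  rw [F.gc g (2 * g) le_rfl]
  have e0 : 0 ≤ ee (2 * g) := (F.eg_le g _).1.trans (F.eg_le g _).2
  have a5 := mul_le_mul_of_nonneg_left a3 e0
  refine le_trans ?_ a5
  nlinarith [a1, Real.exp_pos (-((g : ℝ) * (2 * It t + ε)))]

lemma upper (F : Facts) (hI : ∀ t : ℝ, 0 < t → t ≠ 1 → 0 < It t) {t ε : ℝ} (ht : 0 < t) (ht1 : t < 1)
    (hε : 0 < ε) : ∃ g₀ : ℕ, ∀ g ≥ g₀,
    pg g (lg t g) ≤ 2 * Real.exp (-(g * (2 * It t - ε))) := by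
  obtain ⟨δ, hδ, g₁, h1⟩ := F.ao t ε ht ht1 hε
  have hIt := hI t ht ht1.ne
  obtain ⟨g₂, h2⟩ := F.gg δ (2 * It t + 1) hδ (by linarith)
  refine ⟨max g₁ g₂, fun g hg => ?_⟩
  have hg1 : g₁ ≤ g := (le_max_left _ _).trans hg
  have hg2 : g₂ ≤ g := (le_max_right _ _).trans hg
  set l := lg t g with hl
  set N := ⌊(2 + δ) * (g : ℝ)⌋₊ with hN
  rw [F.sumG, ← (summ_eg F g l).sum_add_tsum_nat_add (N + 1)]
  have b1 : ∑ s ∈ range (N + 1), eg g s * PP l s ≤ Real.exp (-(g * (2 * It t - ε))) := by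
    refine le_trans (Finset.sum_le_sum fun s _ => ?_) (h1 g hg1)
    exact mul_le_mul_of_nonneg_right (F.eg_le g s).2 (F.PPb l s).1
  have b2 : ∑' s : ℕ, eg g (s + (N + 1)) * PP l (s + (N + 1)) ≤
      Real.exp (-((2 * It t + 1) * g)) := by
    have hsum := (summ_ee F l)
    have c1 : ∑' s : ℕ, eg g (s + (N + 1)) * PP l (s + (N + 1)) ≤
        ∑' s : ℕ, Real.exp (-((2 * It t + 1) * g)) * (ee (s + (N + 1)) * PP l (s + (N + 1))) := by
      refine ((summable_nat_add_iff (N + 1)).2 (summ_eg F g l)).tsum_le_tsum (fun s => ?_)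
        (((summable_nat_add_iff (N + 1)).2 hsum).mul_left _)
      have hs : (2 + δ) * (g : ℝ) ≤ ((s + (N + 1) : ℕ) : ℝ) := by
        have := (Nat.lt_floor_add_one ((2 + δ) * (g : ℝ))).le
        push_cast
        have h0 : (0 : ℝ) ≤ s := Nat.cast_nonneg s
        rw [← hN] at this
        linarith
      have := mul_le_mul_of_nonneg_right (h2 g hg2 (s + (N + 1)) hs) (F.PPb l (s + (N + 1))).1
      linarith
    refine c1.trans ?_
    rw [tsum_mul_left]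
    have c2 : ∑' s : ℕ, ee (s + (N + 1)) * PP l (s + (N + 1)) ≤ 1 := by
      rw [← (F.sumE l).2, ← hsum.sum_add_tsum_nat_add (N + 1)]
      have : 0 ≤ ∑ s ∈ range (N + 1), ee s * PP l s := Finset.sum_nonneg fun s _ =>
        mul_nonneg ((F.eg_le g s).1.trans (F.eg_le g s).2) (F.PPb l s).1
      linarith
    calc _ ≤ Real.exp (-((2 * It t + 1) * g)) * 1 :=
          mul_le_mul_of_nonneg_left c2 (Real.exp_nonneg _)
      _ = _ := mul_one _
  have b3 : Real.exp (-((2 * It t + 1) * g)) ≤ Real.exp (-(g * (2 * It t - ε))) := by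
    refine Real.exp_le_exp.2 ?_
    have : (0 : ℝ) ≤ g := Nat.cast_nonneg g
    nlinarith
  linarith

theorem t : S_FB := by
  intro F hQ t ht ht1
  exact logs (P := fun g : ℕ => pg g (lg t g)) (fun ε hε => upper F hQ.2.2.2.1 ht ht1 hε)
    (fun ε hε => lower F ht hε)

end Pool.Agent.Helper96.AW.FB
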