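import Mathlib
import Pool.Agent.Helper96.AW.GoalsA
import Pool.Agent.Helper26.AL.All

namespace Pool.Agent.Helper96.AW.GC

open Finset Filter Topology Pool.Agent.Helper26.AF Pool.Agent.Helper26.AL

theorem t : S_GC := by
  intro hGB g s hs
  obtain ⟨h1, h2, h3, h4⟩ := okEEQ
  rcases Nat.eq_zero_or_pos s with h0 | h0
  · subst h0; rw [h4, h3]
  have e : ∀ k, co (some g) k s = co none k s := by
    intro k
    unfold co
    refine Nat.card_congr (Equiv.subtypeEquivRight fun G => ?_)
    constructor
    · rintro ⟨a, b, _⟩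
      exact ⟨a, b, fun g' hg' => by simp at hg'⟩
    · rintro ⟨a, b, _⟩
      refine ⟨a, b, fun g' hg' => ?_⟩
      have hg2 : g = g' := by simpa using hg'
      subst hg2
      exact hGB _ G g a (by rw [b, Fintype.card_fin]; omega)
  have a1 := okCAS (some g) s h0
  have a2 := okCAS none s h0
  unfold AS at a1 a2
  simp only [e] at a1
  have a3 := tendsto_nhds_unique a1 a2
  have hG : 0 < Real.Gamma (3 * (s : ℝ) / 2) := Real.Gamma_pos_of_pos (by
    have : (0 : ℝ) < s := by exact_mod_cast h0
    positivity)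
  have hD : (2 : ℝ) ^ (3 * (s : ℝ) / 2) * Real.Gamma (3 * (s : ℝ) / 2) ≠ 0 := by positivity
  rw [div_left_inj' hD, h2, h1] at a3
  exact a3

end Pool.Agent.Helper96.AW.GC
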