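import Mathlib
import Pool.Agent.Helper96.AW.GoalsA
import Pool.Agent.Helper26.AL.All

namespace Pool.Agent.Helper96.AW.GD

open Finset Filter Topology Pool.Agent.Helper26.AF Pool.Agent.Helper26.AL

lemma card_KX (s : ℕ) : Fintype.card (KX s) = 2 * (3 * s) := by
  simp [KX]; ring

lemma cmq_pos {s : ℕ} (hs : 1 ≤ s) (κ : Equiv.Perm (KX s)) : 1 ≤ cmq κ Prod.fst := by
  unfold cmq
  have : Nonempty (KX s) := ⟨(⟨0, by omega⟩, 0)⟩
  have : Finite (Quot (fun a b : KX s => b = κ a ∨ Prod.fst b = Prod.fst a)) :=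
    Quot.finite _
  have : Nonempty (Quot (fun a b : KX s => b = κ a ∨ Prod.fst b = Prod.fst a)) :=
    ⟨Quot.mk _ (Classical.arbitrary _)⟩
  exact Nat.card_pos

theorem t : S_GD := by
  classical
  intro δ hδ
  set η : ℝ := δ / (4 * (2 + δ)) with hη
  have hη0 : 0 < η := by positivity
  obtain ⟨r₀, hr₀⟩ := okKER η hη0
  refine ⟨max r₀ 1, fun g hg s hs => ?_⟩
  have hg1 : 1 ≤ g := (le_max_right _ _).trans hg
  have hgr : r₀ ≤ g := (le_max_left _ _).trans hg
  have hg1' : (1 : ℝ) ≤ g := by exact_mod_cast hg1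
  have hgs : g ≤ s := by
    have : (g : ℝ) ≤ s := by nlinarith
    exact_mod_cast this
  have hs1 : 1 ≤ s := hg1.trans hgs
  have hker := hr₀ s (hgr.trans hgs)
  have hpmc := okPMC (KX s) (3 * s) (card_KX s)
  rw [show 2 * (3 * s) - 1 = 6 * s - 1 by omega] at hpmc
  have key : 2 * Nat.card {κ : Equiv.Perm (KX s) // IsPair κ ∧ EmbX g κ} ≤
      Nat.doubleFactorial (6 * s - 1) := by
    have h1 : Nat.card {κ : Equiv.Perm (KX s) // IsPair κ ∧ EmbX g κ} +
        Nat.card {κ : Equiv.Perm (KX s) // IsPair κ ∧ KConn κ ∧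
          ∀ σ, RotX σ → (orb (σ * κ) : ℝ) ≤ η * s} ≤ Nat.card {τ : Equiv.Perm (KX s) // IsPair τ} := by
      simp only [Nat.card_eq_fintype_card, Fintype.card_subtype]
      rw [← Finset.card_union_of_disjoint]
      · refine Finset.card_le_card ?_
        intro κ hκ
        rw [Finset.mem_union, Finset.mem_filter, Finset.mem_filter] at hκ
        rw [Finset.mem_filter]
        rcases hκ with h | h
        · exact ⟨h.1, h.2.1⟩
        · exact ⟨h.1, h.2.1⟩
      · rw [Finset.disjoint_left]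
        intro κ h1 h2
        rw [Finset.mem_filter] at h1 h2
        obtain ⟨σ, hσ, hσ2⟩ := h1.2.2
        have h3 := h2.2.2.2 σ hσ
        have h4 := cmq_pos hs1 κ
        have h5 : s + 2 ≤ orb (σ * κ) + 2 * g := by omega
        have h6 : (s : ℝ) + 2 ≤ orb (σ * κ) + 2 * g := by exact_mod_cast h5
        have h7 : (g : ℝ) ≤ s / (2 + δ) := by
          rw [le_div_iff₀ (by positivity)]
          linarith
        have h8 : η * s + 2 * (s / (2 + δ)) ≤ s := by
          have e : η * s + 2 * (s / (2 + δ)) = s * ((δ + 8) / (4 * (2 + δ))) := by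
            rw [hη]; field_simp; ring
          rw [e]
          have : (δ + 8) / (4 * (2 + δ)) ≤ 1 := by
            rw [div_le_one (by positivity)]
            linarith
          have hs0 : (0 : ℝ) ≤ s := by positivity
          nlinarith
        linarith
    rw [hpmc] at h1
    omega
  unfold eg ee
  rw [div_div, div_le_div_iff₀ (by positivity) (by positivity)]
  have key' : (2 : ℝ) * (Nat.card {κ : Equiv.Perm (KX s) // IsPair κ ∧ EmbX g κ} : ℝ) ≤
      (Nat.doubleFactorial (6 * s - 1) : ℝ) := by exact_mod_cast key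
  have hD : (0 : ℝ) < ((2 * s).factorial : ℝ) * 36 ^ s := by positivity
  nlinarith

end Pool.Agent.Helper96.AW.GD
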