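import Mathlib
import Pool.Agent.Helper96.AW.GoalsA
import Pool.Agent.Helper26.AL.All

namespace Pool.Agent.Helper96.AW.NB

open Finset Filter Topology Pool.Agent.Helper26.AF Pool.Agent.Helper26.AL

lemma ds_zero (k : ℕ) (hk : 1 ≤ k) : ds k 0 = 0 := by
  classical
  unfold ds
  refine sum_eq_zero fun G _ => ?_
  rw [if_neg]
  rintro ⟨h1, h2⟩
  have h3 := okCXN _ G h1
  rw [Fintype.card_fin] at h3
  have : Nonempty (Fin k) := ⟨⟨0, by omega⟩⟩
  have := h3.2.1 this
  omega

lemma ds_zero_pos (r : ℕ) (hr : 1 ≤ r) : ds 0 r = 0 := by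
  classical
  unfold ds
  refine sum_eq_zero fun G _ => ?_
  rw [if_neg]
  rintro ⟨_, h2⟩
  rw [ne_fin_zero] at h2
  omega

lemma ds_zero_zero : ds 0 0 = 1 := by
  classical
  unfold ds
  have h1 : ∀ G : SimpleGraph (Fin 0), (if CXG G ∧ ne G = 0 + 0 then (-1 : ℝ) ^ cc G else 0) = 1 := by
    intro G
    rw [if_pos ⟨cxg_fin_zero G, by rw [ne_fin_zero]⟩, cc_fin_zero, pow_zero]
  rw [sum_congr rfl fun G _ => h1 G]
  have hc : Fintype.card (SimpleGraph (Fin 0)) = 1 := by
    rw [Fintype.card_eq_one_iff]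
    refine ⟨⊥, fun H => ?_⟩
    ext x y
    exact x.elim0
  simp only [sum_const, card_univ, nsmul_eq_mul, mul_one]
  rw [hc]
  norm_num

lemma dd_zero : dd 0 = 1 := by
  unfold dd
  rw [PowerSeries.coeff_zero_eq_constantCoeff_apply, PowerSeries.constantCoeff_inv,
    ← PowerSeries.coeff_zero_eq_constantCoeff_apply, PowerSeries.coeff_mk, okEEQ.2.2.1]
  norm_num

theorem t : S_NB := by
  intro l r
  rcases Nat.eq_zero_or_pos r with rfl | hr
  · have h1 : ∀ n : ℕ, TD n (pc l n) 0 = 1 := by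
      intro n
      unfold TD
      rw [sum_eq_single 0]
      · rw [ds_zero_zero]
        simp [MM]
      · intro k _ hk
        rw [ds_zero k (Nat.pos_of_ne_zero hk)]
        ring
      · intro h; exact absurd (mem_range.2 (Nat.succ_pos n)) h
    simp only [h1]
    rw [dd_zero]
    unfold JJ
    simp
  · have h2 := okRIE l r (fun k => ds k r) (dd r) hr (okDAS r hr)
    refine h2.congr ?_
    intro n
    unfold TD
    rw [Finset.range_eq_Ico, Finset.sum_eq_sum_Ico_succ_bot (Nat.succ_pos n), ds_zero_pos r hr]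
    rw [mul_zero, mul_zero, zero_add]
    rfl

end Pool.Agent.Helper96.AW.NB
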