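import Mathlib
import Pool.Agent.Helper96.AW.NB

namespace Pool.Agent.Helper96.AW.NA

open Finset Filter Topology Pool.Agent.Helper26.AF Pool.Agent.Helper26.AL

lemma clo_sum {n R : ℕ} (G : SimpleGraph (Fin n)) : (∑ U : Finset (Fin n), open Classical in
    if Clo G U ∧ CXR R (gi G U) then (-1 : ℝ) ^ cc (gi G U) else 0) =
    open Classical in if cxs R G = ∅ then 1 else 0 := by
  classical
  obtain ⟨h1, _, h3⟩ := okCLO n R G
  have h := h3 (fun U => (-1 : ℝ) ^ cc (gi G U))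
  refine Eq.trans ?_ (h.trans ?_)
  · congr
  · have h4 : ∑ A ∈ (cxs R G).powerset, (-1 : ℝ) ^ cc (gi G (A.sup id)) =
        ∑ A ∈ (cxs R G).powerset, (-1 : ℝ) ^ #A := by
      refine sum_congr rfl fun A hA => ?_
      rw [(h1 A (mem_powerset.1 hA)).2.1]
    rw [h4]
    have h5 := Finset.sum_powerset_neg_one_pow_card (x := cxs R G)
    have h6 : ((∑ A ∈ (cxs R G).powerset, (-1 : ℤ) ^ #A : ℤ) : ℝ) =
        ∑ A ∈ (cxs R G).powerset, (-1 : ℝ) ^ #A := by push_cast; rfl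
    rw [← h6, h5]
    split_ifs <;> simp

lemma err_sum {n R : ℕ} {s : ℝ} (hs : 1 ≤ s) (G : SimpleGraph (Fin n)) :
    (∑ U : Finset (Fin n), open Classical in
    if Clo G U ∧ CXR R (gi G U) then s ^ (ne (gi G U) - #U) else 0) ≤
    ∏ Q ∈ cxs R G, (1 + 2 * s ^ (eIn G Q - #Q)) := by
  classical
  obtain ⟨h1, _, h3⟩ := okCLO n R G
  have h := h3 (fun U => s ^ (ne (gi G U) - #U))
  have h' : (∑ U : Finset (Fin n), open Classical in
    if Clo G U ∧ CXR R (gi G U) then s ^ (ne (gi G U) - #U) else 0) =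
      ∑ A ∈ (cxs R G).powerset, s ^ (ne (gi G (A.sup id)) - #(A.sup id)) := by
    refine Eq.trans ?_ h
    congr
  rw [h']
  have h4 : ∑ A ∈ (cxs R G).powerset, s ^ (ne (gi G (A.sup id)) - #(A.sup id)) =
      ∏ Q ∈ cxs R G, (1 + s ^ (eIn G Q - #Q)) := by
    rw [Finset.prod_one_add]
    refine sum_congr rfl fun A hA => ?_
    have hA' := mem_powerset.1 hA
    rw [Finset.prod_pow_eq_pow_sum, (h1 A hA').2.2.1, (h1 A hA').2.2.2]
    congr 1
    rw [← Finset.sum_tsub_distrib]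
    intro Q hQ
    have := hA' hQ
    unfold cxs at this
    rw [mem_filter] at this
    omega
  rw [h4]
  refine Finset.prod_le_prod (fun Q _ => by positivity) fun Q _ => ?_
  have : 0 ≤ s ^ (eIn G Q - #Q) := by positivity
  linarith

open Classical in
/-- The weights. -/
noncomputable def w (R : ℕ) (j i : ℕ) (_ : SimpleGraph (Fin j)) (H₂ : SimpleGraph (Fin i)) : ℝ :=
  if j = 0 ∧ CXG H₂ ∧ ne H₂ ≤ i + R then (-1 : ℝ) ^ cc H₂ else 0

lemma side (n R : ℕ) (p : ℝ) :
    ∑ k ∈ range (n + 1), (n.choose k : ℝ) * (1 - p) ^ MM n k *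
        ∑ j ∈ range (k + 1), (k.choose j : ℝ) * ∑ H₁ : SimpleGraph (Fin j),
          ∑ H₂ : SimpleGraph (Fin (k - j)), w R j (k - j) H₁ H₂ * (p / (1 - p)) ^ (ne H₁ + ne H₂) =
    ∑ r ∈ range (R + 1), TD n p r := by
  classical
  have hlow : ∀ {m : ℕ} (H : SimpleGraph (Fin m)), CXG H → m ≤ ne H := by
    intro m H h
    have := (okCXN (Fin m) H h).1
    rwa [Fintype.card_fin] at this
  unfold TD
  rw [sum_comm]
  refine sum_congr rfl fun k _ => ?_
  rw [← mul_sum]
  congr 1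
  rw [sum_eq_single 0]
  · rw [Nat.choose_zero_right, Nat.cast_one, one_mul]
    have h0 : ∀ H : SimpleGraph (Fin 0), H = ⊥ := by
      intro H
      ext x y
      exact x.elim0
    rw [Fintype.sum_eq_single (⊥ : SimpleGraph (Fin 0)) (fun x hx => absurd (h0 x) hx)]
    rw [ne_fin_zero]
    unfold ds
    simp only [mul_sum]
    rw [sum_comm]
    show ∑ H₂ : SimpleGraph (Fin k), w R 0 k ⊥ H₂ * (p / (1 - p)) ^ (0 + ne H₂) = _
    refine sum_congr rfl fun H _ => ?_
    have hg := Pool.Agent.Helper45.AL.group_r k 0 R (p / (1 - p)) 1 ((-1 : ℝ) ^ cc H) (ne H)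
      (CXG H) (fun h => hlow H h) (Nat.zero_le _)
    rw [zero_add, one_mul] at hg
    rw [zero_add]
    have e : w R 0 k ⊥ H = if CXG H ∧ ne H ≤ k - 0 + R then (-1 : ℝ) ^ cc H else 0 := by
      unfold w
      by_cases h : CXG H ∧ ne H ≤ k - 0 + R
      · rw [if_pos (show 0 = 0 ∧ CXG H ∧ ne H ≤ k + R from ⟨rfl, h⟩), if_pos h]
      · rw [if_neg (show ¬ (0 = 0 ∧ CXG H ∧ ne H ≤ k + R) from fun h' => h h'.2), if_neg h]
    rw [e, ← hg]
    refine sum_congr rfl fun r _ => ?_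
    rw [mul_one]
  · intro j _ hj
    apply mul_eq_zero_of_right
    refine sum_eq_zero fun H₁ _ => sum_eq_zero fun H₂ _ => ?_
    unfold w
    rw [if_neg (fun h => hj h.1), zero_mul]
  · intro h; exact absurd (mem_range.2 (Nat.succ_pos k)) h

lemma inner {n : ℕ} (R : ℕ) (G : SimpleGraph (Fin n)) :
    (∑ U₁ : Finset (Fin n), ∑ U₂ : Finset (Fin n),
      open Classical in if Disjoint U₁ U₂ ∧ (Clo G U₁ ∧ Clo G U₂)
        then w R #U₁ #U₂ (gi G U₁) (gi G U₂) else 0) =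
    ∑ U : Finset (Fin n), open Classical in
      if Clo G U ∧ CXG (gi G U) ∧ ne (gi G U) ≤ #U + R then (-1 : ℝ) ^ cc (gi G U) else 0 := by
  classical
  rw [Fintype.sum_eq_single (∅ : Finset (Fin n))]
  · refine sum_congr rfl fun U _ => ?_
    have hc : Clo G ∅ := fun x y _ hx => absurd hx (Finset.notMem_empty x)
    by_cases h : Clo G U
    · rw [if_pos ⟨Finset.disjoint_empty_left U, hc, h⟩]
      unfold w
      by_cases h2 : CXG (gi G U) ∧ ne (gi G U) ≤ #U + R
      · rw [if_pos ⟨Finset.card_empty, h2⟩, if_pos ⟨h, h2⟩]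
      · rw [if_neg (fun h' => h2 h'.2), if_neg (fun h' => h2 h'.2)]
    · rw [if_neg (fun h' => h h'.2.2), if_neg (fun h' => h h'.1)]
  · intro U₁ hU₁
    refine sum_eq_zero fun U₂ _ => ?_
    split_ifs
    · unfold w
      rw [if_neg]
      rintro ⟨h, _⟩
      exact hU₁ (Finset.card_eq_zero.1 h)
    · rfl

lemma graph {n R : ℕ} {s : ℝ} (hs : 1 ≤ s) (G : SimpleGraph (Fin n)) :
    |(open Classical in if cxs R G = ∅ then (1 : ℝ) else 0) -
      ∑ U₁ : Finset (Fin n), ∑ U₂ : Finset (Fin n),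
      open Classical in if Disjoint U₁ U₂ ∧ (Clo G U₁ ∧ Clo G U₂)
        then w R #U₁ #U₂ (gi G U₁) (gi G U₂) else 0| ≤
    1 / s ^ R * ∏ Q ∈ cxs R G, (1 + 2 * s ^ (eIn G Q - #Q)) := by
  classical
  have hlow : ∀ {m : ℕ} (H : SimpleGraph (Fin m)), CXG H → m ≤ ne H := by
    intro m H h
    have := (okCXN (Fin m) H h).1
    rwa [Fintype.card_fin] at this
  have hcomp : ∀ {m : ℕ} (H : SimpleGraph (Fin m)), CXG H → ∀ Q, IsComp H Q → eIn H Q + m ≤ #Q + ne H := by
    intro m H h Q hQ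
    have := (okCXN (Fin m) H h).2.2 Q hQ
    rwa [Fintype.card_fin] at this
  have hs0 : 0 < s ^ R := by positivity
  rw [← clo_sum G, inner R G, ← Finset.sum_sub_distrib]
  refine (abs_sum_le_sum_abs _ _).trans ?_
  refine le_trans ?_ (mul_le_mul_of_nonneg_left (err_sum hs G) (by positivity))
  rw [mul_sum]
  refine sum_le_sum fun U _ => ?_
  by_cases hC : Clo G U
  · by_cases hX : CXR R (gi G U)
    · have hg := Pool.Agent.Helper45.AL.cxg_of_cxr hX
      by_cases hR : ne (gi G U) ≤ #U + R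
      · rw [if_pos ⟨hC, hX⟩, if_pos ⟨hC, hg, hR⟩, if_pos ⟨hC, hX⟩, sub_self, abs_zero]
        positivity
      · rw [if_pos ⟨hC, hX⟩, if_neg (fun h => hR h.2.2), if_pos ⟨hC, hX⟩, sub_zero, abs_pow, abs_neg,
          abs_one, one_pow, one_div, ← div_eq_inv_mul, le_div_iff₀ hs0, one_mul]
        exact pow_le_pow_right₀ hs (by omega)
    · have : ¬ (CXG (gi G U) ∧ ne (gi G U) ≤ #U + R) := by
        rintro ⟨h1, h2⟩
        apply hX
        intro Q hQ
        refine ⟨h1 Q hQ, ?_⟩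
        have := hcomp _ h1 Q hQ
        omega
      rw [if_neg (fun h => hX h.2), if_neg (fun h => this h.2), if_neg (fun h => hX h.2)]
      simp
  · rw [if_neg (fun h => hC h.1), if_neg (fun h => hC h.1), if_neg (fun h => hC h.1)]
    simp

theorem t : S_NA := by
  classical
  intro n R p s hp0 hp1 hs
  have hF := okFUN n (w R) p hp0 hp1
  rw [← side, ← hF]
  unfold Pr
  rw [← EE_sub, ← EE_smul]
  refine Pool.Agent.Helper45.AL.abs_EE_le hp0.le hp1.le fun G => ?_
  have h := graph (R := R) hs G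
  refine le_trans (le_of_eq ?_) h
  congr

end Pool.Agent.Helper96.AW.NA
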