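import Mathlib
import Pool.Agent.Helper96.AW.AI
import Pool.Agent.Helper26.AL.All

/-! Project AW: `pg g` is antitone and has values in `[0, 1]`. -/

namespace Pool.Agent.Helper96.AW.MON

open Finset Filter Topology Pool.Agent.Helper26.AF Pool.Agent.Helper26.AL

/-- The edge numbers. -/
noncomputable def mm (l : ℝ) (n : ℕ) : ℕ := ⌊(n : ℝ) / 2 + l / 2 * (n : ℝ) ^ ((2 : ℝ) / 3)⌋₊

lemma mm_lim (l : ℝ) : Tendsto (fun n : ℕ => ((mm l n : ℝ) - n / 2) / (n : ℝ) ^ ((2 : ℝ) / 3)) atTop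
    (𝓝 (l / 2)) := by
  have hq : Tendsto (fun n : ℕ => (n : ℝ) ^ ((1 : ℝ) / 3)) atTop atTop :=
    (tendsto_rpow_atTop (by norm_num)).comp tendsto_natCast_atTop_atTop
  have hr : Tendsto (fun n : ℕ => (n : ℝ) ^ ((2 : ℝ) / 3)) atTop atTop :=
    (tendsto_rpow_atTop (by norm_num)).comp tendsto_natCast_atTop_atTop
  have hinv : Tendsto (fun n : ℕ => 1 / (n : ℝ) ^ ((2 : ℝ) / 3)) atTop (𝓝 0) := by
    simp only [one_div]
    exact hr.inv_tendsto_atTop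
  have hlow : Tendsto (fun n : ℕ => l / 2 - 1 / (n : ℝ) ^ ((2 : ℝ) / 3)) atTop (𝓝 (l / 2)) := by
    simpa using hinv.const_sub (l / 2)
  have hev : ∀ᶠ n : ℕ in atTop, 0 ≤ (n : ℝ) / 2 + l / 2 * (n : ℝ) ^ ((2 : ℝ) / 3) ∧
      0 < (n : ℝ) ^ ((2 : ℝ) / 3) := by
    filter_upwards [hq.eventually (eventually_ge_atTop (|l|)), eventually_gt_atTop 0] with n h1 h2
    have hn : (0 : ℝ) < n := by exact_mod_cast h2
    have hp : 0 < (n : ℝ) ^ ((2 : ℝ) / 3) := by positivity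
    refine ⟨?_, hp⟩
    have e : (n : ℝ) = (n : ℝ) ^ ((1 : ℝ) / 3) * (n : ℝ) ^ ((2 : ℝ) / 3) := by
      rw [← Real.rpow_add hn]
      norm_num
    have h3 : (n : ℝ) / 2 + l / 2 * (n : ℝ) ^ ((2 : ℝ) / 3) =
        ((n : ℝ) ^ ((1 : ℝ) / 3) + l) / 2 * (n : ℝ) ^ ((2 : ℝ) / 3) := by
      rw [add_div, add_mul]
      congr 1
      rw [div_mul_eq_mul_div, ← e]
    rw [h3]
    have : 0 ≤ (n : ℝ) ^ ((1 : ℝ) / 3) + l := by linarith [neg_abs_le l]
    positivity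
  refine tendsto_of_tendsto_of_tendsto_of_le_of_le' hlow tendsto_const_nhds ?_ ?_
  · filter_upwards [hev] with n hn
    rw [le_div_iff₀ hn.2, sub_mul, one_div, inv_mul_cancel₀ hn.2.ne']
    have := Nat.lt_floor_add_one ((n : ℝ) / 2 + l / 2 * (n : ℝ) ^ ((2 : ℝ) / 3))
    unfold mm
    linarith
  · filter_upwards [hev] with n hn
    rw [div_le_iff₀ hn.2]
    have := Nat.floor_le hn.1
    unfold mm
    linarith

lemma lim (g : ℕ) (l : ℝ) : Tendsto (fun n : ℕ => Pr (pc l n) (fun G : SimpleGraph (Fin n) =>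
    Embeds G g)) atTop (𝓝 (pg g l)) := (okLIP g l).2

lemma pg_mem (g : ℕ) (l : ℝ) : 0 ≤ pg g l ∧ pg g l ≤ 1 := by
  constructor
  · refine ge_of_tendsto (lim g l) ?_
    filter_upwards [AI.pc_mem l] with n hn
    exact Pr_nonneg hn.1.le hn.2.le _
  · refine le_of_tendsto (lim g l) ?_
    filter_upwards [AI.pc_mem l] with n hn
    exact Pr_le_one hn.1.le hn.2.le _

lemma anti (g : ℕ) : Antitone (pg g) := by
  intro l₁ l₂ h
  rcases h.eq_or_lt with h | h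
  · rw [h]
  refine le_of_forall_pos_le_add fun ε hε => ?_
  have h1 := okTRD ((l₁ + l₂) / 2) ((l₂ - l₁) / 2) (mm ((l₁ + l₂) / 2)) (by linarith)
    (mm_lim ((l₁ + l₂) / 2)) (fun n G => ¬ Embeds G g)
    (fun n G G' h h1 h2 => h1 (okMONO (Fin n) G' G g h h2)) (ε / 2) (by linarith)
  rw [show (l₁ + l₂) / 2 + (l₂ - l₁) / 2 = l₂ by ring,
    show (l₁ + l₂) / 2 - (l₂ - l₁) / 2 = l₁ by ring] at h1
  refine le_of_tendsto_of_tendsto (lim g l₂) ((lim g l₁).add_const ε) ?_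
  filter_upwards [h1] with n hn
  have e1 := Pr_compl (pc l₁ n) (fun G : SimpleGraph (Fin n) => Embeds G g)
  have e2 := Pr_compl (pc l₂ n) (fun G : SimpleGraph (Fin n) => Embeds G g)
  linarith [hn.1, hn.2]

end Pool.Agent.Helper96.AW.MON
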