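import Mathlib
import Pool.Agent.Helper96.AW.FA
import Pool.Agent.Helper96.AW.FB
import Pool.Agent.Helper96.AW.AQ
import Pool.Agent.Helper96.AW.MON

/-! Project AW: from the points `yt t * g^(1/3)` to arbitrary sequences. -/

namespace Pool.Agent.Helper96.AW.SEQ

open Finset Filter Topology Pool.Agent.Helper26.AF Pool.Agent.Helper26.AL

lemma near {t ε : ℝ} (ht : 0 < t) (hε : 0 < ε) : ∀ᶠ x in 𝓝 t, |It x - It t| < ε ∧ 0 < x := by
  have h1 := (AQ.It_deriv ht).continuousAt.tendsto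
  have h2 := Metric.tendsto_nhds.1 h1 ε hε
  filter_upwards [h2, lt_mem_nhds ht] with x hx hx0
  exact ⟨by rwa [Real.dist_eq] at hx, hx0⟩

lemma right {t ε : ℝ} (ht : 0 < t) (hε : 0 < ε) {P : ℝ → Prop} (hP : ∀ᶠ x in 𝓝 t, P x) :
    ∃ x, t < x ∧ |It x - It t| < ε ∧ P x := by
  have h := (((near ht hε).and hP).filter_mono nhdsWithin_le_nhds).and
    (self_mem_nhdsWithin (a := t) (s := Set.Ioi t))
  obtain ⟨x, ⟨⟨h1, _⟩, h2⟩, h3⟩ := h.exists
  exact ⟨x, h3, h1, h2⟩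

lemma left {t ε : ℝ} (ht : 0 < t) (hε : 0 < ε) {P : ℝ → Prop} (hP : ∀ᶠ x in 𝓝 t, P x) :
    ∃ x, 0 < x ∧ x < t ∧ |It x - It t| < ε ∧ P x := by
  have h := (((near ht hε).and hP).filter_mono nhdsWithin_le_nhds).and
    (self_mem_nhdsWithin (a := t) (s := Set.Iio t))
  obtain ⟨x, ⟨⟨h1, h0⟩, h2⟩, h3⟩ := h.exists
  exact ⟨x, h0, h3, h1, h2⟩

lemma le_lg {t x : ℝ} {l : ℕ → ℝ} (hx0 : 0 < x) (hxt : x < t)
    (hl : Tendsto (fun g : ℕ => l g / (g : ℝ) ^ ((1 : ℝ) / 3)) atTop (𝓝 (yt t))) :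
    ∀ᶠ g : ℕ in atTop, l g ≤ lg x g := by
  have h1 : yt t < yt x := AQ.anti hx0 (show (0 : ℝ) < t by linarith) hxt
  filter_upwards [hl.eventually (gt_mem_nhds h1), eventually_gt_atTop 0] with g hg hg0
  have hp : 0 < (g : ℝ) ^ ((1 : ℝ) / 3) := Real.rpow_pos_of_pos (by exact_mod_cast hg0) _
  rw [div_lt_iff₀ hp] at hg
  exact hg.le

lemma lg_le {t x : ℝ} {l : ℕ → ℝ} (ht : 0 < t) (hxt : t < x)
    (hl : Tendsto (fun g : ℕ => l g / (g : ℝ) ^ ((1 : ℝ) / 3)) atTop (𝓝 (yt t))) :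
    ∀ᶠ g : ℕ in atTop, lg x g ≤ l g := by
  have h1 : yt x < yt t := AQ.anti ht (show (0 : ℝ) < x by linarith) hxt
  filter_upwards [hl.eventually (lt_mem_nhds h1), eventually_gt_atTop 0] with g hg hg0
  have hp : 0 < (g : ℝ) ^ ((1 : ℝ) / 3) := Real.rpow_pos_of_pos (by exact_mod_cast hg0) _
  rw [lt_div_iff₀ hp] at hg
  exact hg.le

theorem above (F : Facts) {t : ℝ} (ht : 1 ≤ t) {l : ℕ → ℝ}
    (hl : Tendsto (fun g : ℕ => l g / (g : ℝ) ^ ((1 : ℝ) / 3)) atTop (𝓝 (yt t))) :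
    Tendsto (fun g : ℕ => Real.log (1 - pg g (l g)) / g) atTop (𝓝 (-(2 * It t))) := by
  have ht0 : 0 < t := by linarith
  refine FA.logs (P := fun g : ℕ => 1 - pg g (l g)) (fun ε hε => ?_) (fun ε hε => ?_)
  · rcases ht.eq_or_lt with h1 | h1
    · subst h1
      refine ⟨0, fun g _ => ?_⟩
      have e : It 1 = 0 := by unfold It; simp
      rw [e]
      have h2 := (MON.pg_mem g (l g)).1
      have h3 : 1 ≤ Real.exp (-((g : ℝ) * (2 * 0 - ε))) := by
        refine Real.one_le_exp ?_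
        have : (0 : ℝ) ≤ g := Nat.cast_nonneg g
        nlinarith
      linarith
    · obtain ⟨x, hx0, hxt, hx, hx1⟩ := left ht0 (show 0 < ε / 4 by linarith) (lt_mem_nhds h1)
      obtain ⟨g₁, h2⟩ := FA.upper F hx1 (show 0 < ε / 2 by linarith)
      obtain ⟨g₂, h3⟩ := eventually_atTop.1 (le_lg hx0 hxt hl)
      refine ⟨max g₁ g₂, fun g hg => ?_⟩
      have a1 := h2 g ((le_max_left _ _).trans hg)
      have a2 := MON.anti g (h3 g ((le_max_right _ _).trans hg))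
      have a3 : Real.exp (-((g : ℝ) * (2 * It x - ε / 2))) ≤ Real.exp (-((g : ℝ) * (2 * It t - ε))) := by
        refine Real.exp_le_exp.2 ?_
        have : (0 : ℝ) ≤ g := Nat.cast_nonneg g
        have := (abs_lt.1 hx).1
        nlinarith
      have a4 := Real.exp_pos (-((g : ℝ) * (2 * It t - ε)))
      linarith
  · obtain ⟨x, hxt, hx, _⟩ := right ht0 (show 0 < ε / 4 by linarith) (P := fun _ => True) (by simp)
    obtain ⟨g₁, h2⟩ := FA.lower F (show 1 < x by linarith) (show 0 < ε / 2 by linarith)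
    obtain ⟨g₂, h3⟩ := eventually_atTop.1 (lg_le ht0 hxt hl)
    refine ⟨max g₁ g₂, fun g hg => ?_⟩
    have a1 := h2 g ((le_max_left _ _).trans hg)
    have a2 := MON.anti g (h3 g ((le_max_right _ _).trans hg))
    have a3 : Real.exp (-((g : ℝ) * (2 * It t + ε))) ≤ Real.exp (-((g : ℝ) * (2 * It x + ε / 2))) := by
      refine Real.exp_le_exp.2 ?_
      have : (0 : ℝ) ≤ g := Nat.cast_nonneg g
      have := (abs_lt.1 hx).2
      nlinarith
    linarith

theorem below (F : Facts) {t : ℝ} (ht0 : 0 < t) (ht : t ≤ 1) {l : ℕ → ℝ}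
    (hl : Tendsto (fun g : ℕ => l g / (g : ℝ) ^ ((1 : ℝ) / 3)) atTop (𝓝 (yt t))) :
    Tendsto (fun g : ℕ => Real.log (pg g (l g)) / g) atTop (𝓝 (-(2 * It t))) := by
  refine FA.logs (P := fun g : ℕ => pg g (l g)) (fun ε hε => ?_) (fun ε hε => ?_)
  · rcases ht.eq_or_lt with h1 | h1
    · subst h1
      refine ⟨0, fun g _ => ?_⟩
      have e : It 1 = 0 := by unfold It; simp
      rw [e]
      have h2 := (MON.pg_mem g (l g)).2
      have h3 : 1 ≤ Real.exp (-((g : ℝ) * (2 * 0 - ε))) := by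
        refine Real.one_le_exp ?_
        have : (0 : ℝ) ≤ g := Nat.cast_nonneg g
        nlinarith
      linarith
    · obtain ⟨x, hxt, hx, hx1⟩ := right ht0 (show 0 < ε / 4 by linarith) (gt_mem_nhds h1)
      obtain ⟨g₁, h2⟩ := FB.upper F AQ.t.2.2.2.1 (show 0 < x by linarith) hx1
        (show 0 < ε / 2 by linarith)
      obtain ⟨g₂, h3⟩ := eventually_atTop.1 (lg_le ht0 hxt hl)
      refine ⟨max g₁ g₂, fun g hg => ?_⟩
      have a1 := h2 g ((le_max_left _ _).trans hg)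
      have a2 := MON.anti g (h3 g ((le_max_right _ _).trans hg))
      have a3 : Real.exp (-((g : ℝ) * (2 * It x - ε / 2))) ≤ Real.exp (-((g : ℝ) * (2 * It t - ε))) := by
        refine Real.exp_le_exp.2 ?_
        have : (0 : ℝ) ≤ g := Nat.cast_nonneg g
        have := (abs_lt.1 hx).1
        nlinarith
      linarith
  · obtain ⟨x, hx0, hxt, hx, _⟩ := left ht0 (show 0 < ε / 4 by linarith) (P := fun _ => True) (by simp)
    obtain ⟨g₁, h2⟩ := FB.lower F hx0 (show 0 < ε / 2 by linarith)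
    obtain ⟨g₂, h3⟩ := eventually_atTop.1 (le_lg hx0 hxt hl)
    refine ⟨max g₁ g₂, fun g hg => ?_⟩
    have a1 := h2 g ((le_max_left _ _).trans hg)
    have a2 := MON.anti g (h3 g ((le_max_right _ _).trans hg))
    have a3 : Real.exp (-((g : ℝ) * (2 * It t + ε))) ≤ Real.exp (-((g : ℝ) * (2 * It x + ε / 2))) := by
      refine Real.exp_le_exp.2 ?_
      have : (0 : ℝ) ≤ g := Nat.cast_nonneg g
      have := (abs_lt.1 hx).2
      nlinarith
    linarith

end Pool.Agent.Helper96.AW.SEQ
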