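import Mathlib
import Pool.Agent.Helper96.AW.GoalsC
import Pool.Agent.Helper12.AW.TA
import Pool.Agent.Helper22.AW.AR
import Pool.Agent.Helper22.AW.AS
import Pool.Agent.Helper22.AW.AT
import Pool.Agent.Helper22.AW.AU
import Pool.Agent.Helper22.AW.TG
import Pool.Agent.Helper24.AW.TF
import Pool.Agent.Helper25.AW.NC
import Pool.Agent.Helper38.AW.TC
import Pool.Agent.Helper38.AW.TB2
import Pool.Agent.Helper38.AW.AA
import Pool.Agent.Helper38.AW.GF
import Pool.Agent.Helper41.AW.TE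
import Pool.Agent.Helper42.AW.GB
import Pool.Agent.Helper44.AW.GA
import Pool.Agent.Helper45.AW.AV
import Pool.Agent.Helper51.AW.TD1
import Pool.Agent.Helper63.AW.AO
import Pool.Agent.Helper90.AW.TB1
import Pool.Agent.Helper95.AW.GE
import Pool.Agent.Helper97.AW.GG
import Pool.Agent.Helper96.AW.AB
import Pool.Agent.Helper96.AW.AC
import Pool.Agent.Helper96.AW.AD
import Pool.Agent.Helper96.AW.AE
import Pool.Agent.Helper96.AW.AF
import Pool.Agent.Helper96.AW.AG
import Pool.Agent.Helper96.AW.AH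
import Pool.Agent.Helper96.AW.AI
import Pool.Agent.Helper96.AW.AJ
import Pool.Agent.Helper96.AW.AK
import Pool.Agent.Helper96.AW.AL
import Pool.Agent.Helper96.AW.AM
import Pool.Agent.Helper96.AW.AN
import Pool.Agent.Helper96.AW.AP
import Pool.Agent.Helper96.AW.AQ
import Pool.Agent.Helper96.AW.FA
import Pool.Agent.Helper96.AW.FB
import Pool.Agent.Helper96.AW.GC
import Pool.Agent.Helper96.AW.GD
import Pool.Agent.Helper96.AW.NA
import Pool.Agent.Helper96.AW.NB
import Pool.Agent.Helper96.AW.TZ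
import Pool.Agent.Helper96.AW.SEQ

/-! Project AW: the packets put together. -/

namespace Pool.Agent.Helper96.AW

open Finset Filter Topology Pool.Agent.Helper26.AF Pool.Agent.Helper26.AL

theorem facts : Facts := by
  have hGE : S_GE := Pool.Agent.Helper95.AW.GE.t
  have hNCc : S_NC := Pool.Agent.Helper25.AW.NC.t
  have hTC : S_TC := Pool.Agent.Helper38.AW.TC.t
  have hTB2 : S_TB2 := Pool.Agent.Helper38.AW.TB2.t
  have hAA : S_AA := Pool.Agent.Helper38.AW.AA.t
  have hTE : S_TE := Pool.Agent.Helper41.AW.TE.t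
  have hGFc : S_GF := Pool.Agent.Helper38.AW.GF.t
  have hAB : S_AB := AB.t
  have hAC : S_AC := AC.t
  have hAD := AD.t hAC
  have hAE := AE.t hAA
  have hAF := AF.t hAC hAE
  have hAG := AG.t hAB hAF
  have hAH := AH.t hAC hAD hAG.2.1
  have hNC := hNCc NA.t NB.t
  have hAI := AI.t hAB hAC hAF (fun l => (hNC l).2)
  have hTF := Pool.Agent.Helper24.AW.TF.t (Pool.Agent.Helper51.AW.TD1.t hTC) hTE
  have hAS := Pool.Agent.Helper22.AW.AS.t Pool.Agent.Helper90.AW.TB1.t hTB2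
  have hAV := Pool.Agent.Helper45.AW.AV.t Pool.Agent.Helper22.AW.TG.t Pool.Agent.Helper12.AW.TA.t
    Pool.Agent.Helper22.AW.AR.t Pool.Agent.Helper22.AW.AT.t Pool.Agent.Helper22.AW.AU.t hTF hAS
  have hTZ := TZ.t hAV (fun l => (hNC l).2)
  have hAJ := AJ.t hAC hAH hAI hTZ
  have hAM := AM.t hAA hAC AK.t AL.t hAF
  have hAO := Pool.Agent.Helper63.AW.AO.t AN.t hAE hAJ.2.2
  have hAP := AP.t hAA hAC
  have hGC := GC.t (Pool.Agent.Helper42.AW.GB.t Pool.Agent.Helper44.AW.GA.t)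
  have hGG := Pool.Agent.Helper97.AW.GG.t (hGFc hGE)
  exact ⟨hAG.1, hAG.2.2.1, hAG.2.2.2, hAF, hAJ.1, hAJ.2.1, hAM, hAO, hAP, hGC, GD.t, hGG⟩

/-- `p_g` on the critical window. -/
theorem pg_lim (g : ℕ) (l : ℝ) (m : ℕ → ℕ)
    (hm : Tendsto (fun n : ℕ => ((m n : ℝ) - n / 2) / (n : ℝ) ^ ((2 : ℝ) / 3)) atTop (𝓝 (l / 2))) :
    Tendsto (fun n : ℕ => prm n (m n) (fun G => Embeds G g)) atTop (𝓝 (pg g l)) := okFIN g l m hm

theorem It_two : It 2 = Real.log 2 := by unfold It; simp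

end Pool.Agent.Helper96.AW
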