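import Mathlib
import Pool.Agent.Helper96.AW.GoalsC

namespace Pool.Agent.Helper96.AW.TZ

open Finset Filter Topology Pool.Agent.Helper26.AF Pool.Agent.Helper26.AL

theorem t : S_TZ := by
  rintro ⟨C, hC, h⟩ hT
  exact ⟨C, hC, fun l hl => le_of_tendsto (hT l) (h l hl)⟩

end Pool.Agent.Helper96.AW.TZ
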